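import Pool.Agent.H62.EF.Defs

/-!
# EF MaxI: a maximum principle

`Φ z = h z * ⟨Fh z₀, Fh z⟩ * exp (-2 κ conj (z₀ - c) (z - z₀))` is holomorphic on `ball z₀ r`.  Maximum principle on `closedBall z₀ r₀`
(`Complex.exists_mem_frontier_isMaxOn_norm`): there is `z` with `‖z - z₀‖ = r₀` and `‖Φ z₀‖ ≤ ‖Φ z‖`.  Here `‖Φ z₀‖ = ‖h z₀‖ ‖Fh z₀‖²`, and
`‖Φ z‖ ≤ ‖h z‖ γ ‖Fh z₀‖ ‖Fh z‖ exp (-2 κ Re (conj (z₀ - c) (z - z₀)))`; multiply by `exp (-κ ‖z₀ - c‖²) / ‖Fh z₀‖` and use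
`‖z - c‖² = ‖z₀ - c‖² + 2 Re (conj (z₀ - c) (z - z₀)) + r₀²`.
-/

set_option autoImplicit false

open Topology Filter Metric

namespace Pool.Agent.H62.EF

open Pool.Agent.H36.BP (EN fs wd)

variable {N : ℕ}

theorem max_ineq {h : ℂ → ℂ} {Fh : ℂ → EN N} {z₀ : ℂ} {r₀ r : ℝ} (hr₀ : 0 < r₀) (hr : r₀ < r)
    (hh : DifferentiableOn ℂ h (ball z₀ r)) (hFh : DifferentiableOn ℂ Fh (ball z₀ r)) (h0 : Fh z₀ ≠ 0) {γ : ℝ}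
    (hγ : ∀ z ∈ sphere z₀ r₀, ‖inner ℂ (Fh z₀) (Fh z)‖ ≤ γ * (‖Fh z₀‖ * ‖Fh z‖)) (κ : ℝ) (c : ℂ) :
    ∃ z ∈ sphere z₀ r₀, ‖h z₀‖ * ‖Fh z₀‖ * Real.exp (-κ * ‖z₀ - c‖ ^ 2) ≤
      Real.exp (κ * r₀ ^ 2) * γ * (‖h z‖ * ‖Fh z‖ * Real.exp (-κ * ‖z - c‖ ^ 2)) := by
  set a : ℂ := (starRingEnd ℂ) (z₀ - c) with ha
  set Φ : ℂ → ℂ := fun z => h z * inner ℂ (Fh z₀) (Fh z) * Complex.exp (-(2 * (κ : ℂ)) * a * (z - z₀)) with hΦ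
  have hsub : closedBall z₀ r₀ ⊆ ball z₀ r := closedBall_subset_ball hr
  have hd : DifferentiableOn ℂ Φ (closedBall z₀ r₀) := by
    have h1 : DifferentiableOn ℂ h (closedBall z₀ r₀) := hh.mono hsub
    have h2 : DifferentiableOn ℂ (fun z => (innerSL ℂ (Fh z₀)) (Fh z)) (closedBall z₀ r₀) :=
      (innerSL ℂ (Fh z₀)).differentiable.comp_differentiableOn (hFh.mono hsub)
    have h3 : DifferentiableOn ℂ (fun z : ℂ => Complex.exp (-(2 * (κ : ℂ)) * a * (z - z₀))) (closedBall z₀ r₀) := by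
      apply Differentiable.differentiableOn
      fun_prop
    exact (h1.mul h2).mul h3
  have hcl : DiffContOnCl ℂ Φ (ball z₀ r₀) := by
    apply DifferentiableOn.diffContOnCl
    rw [closure_ball z₀ hr₀.ne']
    exact hd
  obtain ⟨z, hz, hmax⟩ := Complex.exists_mem_frontier_isMaxOn_norm isBounded_ball (nonempty_ball.2 hr₀) hcl
  rw [frontier_ball z₀ hr₀.ne'] at hz
  have hzr : ‖z - z₀‖ = r₀ := by rw [← dist_eq_norm]; exact hz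
  have hle : ‖Φ z₀‖ ≤ ‖Φ z‖ := by
    have h0m : z₀ ∈ closure (ball z₀ r₀) := subset_closure (mem_ball_self hr₀)
    exact hmax h0m
  refine ⟨z, hz, ?_⟩
  set R : ℝ := (a * (z - z₀)).re with hR
  have e0 : ‖Φ z₀‖ = ‖h z₀‖ * ‖Fh z₀‖ ^ 2 := by
    simp only [hΦ, sub_self, mul_zero, Complex.exp_zero, mul_one, norm_mul]
    rw [inner_self_eq_norm_sq_to_K]
    simp
  have e1 : ‖Φ z‖ = ‖h z‖ * ‖inner ℂ (Fh z₀) (Fh z)‖ * Real.exp (-(2 * κ) * R) := by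
    simp only [hΦ, norm_mul, Complex.norm_exp]
    congr 2
    have : -(2 * (κ : ℂ)) * a * (z - z₀) = ((-(2 * κ) : ℝ) : ℂ) * (a * (z - z₀)) := by
      push_cast
      ring
    rw [this, Complex.re_ofReal_mul]
  have hq : ‖z - c‖ ^ 2 = ‖z₀ - c‖ ^ 2 + 2 * R + r₀ ^ 2 := by
    rw [← hzr, hR, ha]
    rw [← Complex.normSq_eq_norm_sq, ← Complex.normSq_eq_norm_sq, ← Complex.normSq_eq_norm_sq]
    simp only [Complex.normSq_apply, Complex.sub_re, Complex.sub_im, Complex.mul_re, map_sub, Complex.conj_re,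
      Complex.conj_im]
    ring
  have hF : 0 < ‖Fh z₀‖ := norm_pos_iff.2 h0
  have hg := hγ z hz
  have key : ‖h z₀‖ * ‖Fh z₀‖ ≤ ‖h z‖ * (γ * ‖Fh z‖) * Real.exp (-(2 * κ) * R) := by
    have h1 : ‖h z₀‖ * ‖Fh z₀‖ ^ 2 ≤ ‖h z‖ * (γ * (‖Fh z₀‖ * ‖Fh z‖)) * Real.exp (-(2 * κ) * R) := by
      rw [← e0]
      refine hle.trans ?_
      rw [e1]
      gcongr
    have h2 : (‖h z₀‖ * ‖Fh z₀‖) * ‖Fh z₀‖ ≤ (‖h z‖ * (γ * ‖Fh z‖) * Real.exp (-(2 * κ) * R)) * ‖Fh z₀‖ := by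
      calc (‖h z₀‖ * ‖Fh z₀‖) * ‖Fh z₀‖ = ‖h z₀‖ * ‖Fh z₀‖ ^ 2 := by ring
        _ ≤ _ := h1
        _ = _ := by ring
    exact le_of_mul_le_mul_right h2 hF
  have hE : Real.exp (-(2 * κ) * R) * Real.exp (-κ * ‖z₀ - c‖ ^ 2) =
      Real.exp (κ * r₀ ^ 2) * Real.exp (-κ * ‖z - c‖ ^ 2) := by
    rw [← Real.exp_add, ← Real.exp_add, hq]
    congr 1
    ring
  calc ‖h z₀‖ * ‖Fh z₀‖ * Real.exp (-κ * ‖z₀ - c‖ ^ 2)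
      ≤ ‖h z‖ * (γ * ‖Fh z‖) * Real.exp (-(2 * κ) * R) * Real.exp (-κ * ‖z₀ - c‖ ^ 2) :=
        mul_le_mul_of_nonneg_right key (Real.exp_pos _).le
    _ = ‖h z‖ * (γ * ‖Fh z‖) * (Real.exp (-(2 * κ) * R) * Real.exp (-κ * ‖z₀ - c‖ ^ 2)) := by ring
    _ = Real.exp (κ * r₀ ^ 2) * γ * (‖h z‖ * ‖Fh z‖ * Real.exp (-κ * ‖z - c‖ ^ 2)) := by
        rw [hE]
        ring

end Pool.Agent.H62.EF
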