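import Pool.Agent.H62.EF.Defs
import Pool.Agent.H36.BP.WdA

/-!
# EF PrA: the projection matrix of a line

`pr x = x x^* / ‖x‖²`.  For `x ≠ 0`, `y ≠ 0`: `‖pr x‖ = 1`, `⟨pr x, pr y⟩ = ‖⟨x, y⟩‖² / (‖x‖² ‖y‖²)` (`∑_{i,j} conj (x i conj (x j)) y i conj (y j)`),
so `‖pr x - pr y‖² = 2 - 2 ‖⟨x, y⟩‖² / (‖x‖² ‖y‖²) = 2 (wd x y)² / (‖x‖² ‖y‖²)` (`wd x y ^ 2 = ‖x‖² ‖y‖² - ‖⟨x, y⟩‖²`, the radicand is
nonnegative by Cauchy-Schwarz).  `pr_eq_iff`: `wd x y = 0` iff `x` is a multiple of `y` (equality in Cauchy-Schwarz, or the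
lemmas of `H36/BP/WdA.lean`).
`isCompact_pr`: `pr '' X = pr '' (X ∩ sphere 0 1)` (`smul_mem`), and `X ∩ sphere 0 1` is compact (`IsCone.closed`).
`nm_close`: `‖(‖x₀‖² / ⟨x₀, x⟩) • x - x₀‖² = ‖x₀‖² (wd x₀ x)² / ‖⟨x₀, x⟩‖²`: the vector `(‖x₀‖² / ⟨x₀, x⟩) • x - x₀` is orthogonal to
`x₀`; and `(wd x₀ x)² = ‖x₀‖² ‖x‖² ‖pr x - pr x₀‖² / 2`, `‖⟨x₀, x⟩‖² = ‖x₀‖² ‖x‖² (1 - ‖pr x - pr x₀‖² / 2)`.
(`inner ℂ x₀ x` is linear in `x`.)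
-/

set_option autoImplicit false

open Topology Filter Metric

namespace Pool.Agent.H62.EF

open Pool.Agent.H36.BP (EN fs wd)
open Pool.Agent.H14.PP (IsCone)

variable {N : ℕ}

theorem wd_sq (x y : EN N) : wd x y ^ 2 = ‖x‖ ^ 2 * ‖y‖ ^ 2 - ‖inner ℂ x y‖ ^ 2 := by
  exact Pool.Agent.H36.BP.wd_sq x y

theorem pr_smul (x : EN N) {c : ℂ} (hc : c ≠ 0) : pr (c • x) = pr x := by
  have h1 : c * (starRingEnd ℂ) c = ((‖c‖ ^ 2 : ℝ) : ℂ) := by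
    rw [Complex.mul_conj']
    push_cast
    rfl
  have h2 : ((‖c‖ ^ 2 : ℝ) : ℂ) ≠ 0 := by
    have : ‖c‖ ≠ 0 := norm_ne_zero_iff.mpr hc
    exact_mod_cast pow_ne_zero 2 this
  unfold pr
  congr 1
  funext i
  have h3 : ((‖c • x‖ ^ 2 : ℝ) : ℂ) = ((‖c‖ ^ 2 : ℝ) : ℂ) * ((‖x‖ ^ 2 : ℝ) : ℂ) := by
    rw [norm_smul, mul_pow]
    push_cast
    rfl
  have h4 : (c • x) i.1 * (starRingEnd ℂ) ((c • x) i.2) =
      ((‖c‖ ^ 2 : ℝ) : ℂ) * (x i.1 * (starRingEnd ℂ) (x i.2)) := by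
    rw [← h1]
    simp only [PiLp.smul_apply, smul_eq_mul, map_mul]
    ring
  rw [h3, h4, mul_div_mul_left _ _ h2]

private theorem inner_sum (x y : EN N) : (inner ℂ x y : ℂ) = ∑ i, (starRingEnd ℂ) (x i) * y i := by
  rw [PiLp.inner_apply]
  refine Finset.sum_congr rfl fun i _ => ?_
  rw [RCLike.inner_apply]
  ring

private theorem sq_ne {x : EN N} (hx : x ≠ 0) : ((‖x‖ ^ 2 : ℝ) : ℂ) ≠ 0 := by
  have : ‖x‖ ≠ 0 := norm_ne_zero_iff.mpr hx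
  exact_mod_cast pow_ne_zero 2 this

private theorem inner_pr (x y : EN N) : (inner ℂ (pr x) (pr y) : ℂ) =
    ((‖(inner ℂ x y : ℂ)‖ ^ 2 / (‖x‖ ^ 2 * ‖y‖ ^ 2) : ℝ) : ℂ) := by
  have h1 : ((‖(inner ℂ x y : ℂ)‖ ^ 2 : ℝ) : ℂ) = (inner ℂ x y : ℂ) * (starRingEnd ℂ) (inner ℂ x y : ℂ) := by
    rw [Complex.mul_conj']
    push_cast
    rfl
  have h2 : (inner ℂ (pr x) (pr y) : ℂ) = ∑ p : Fin (N + 1) × Fin (N + 1),
      ((starRingEnd ℂ) (x p.1) * y p.1) * (x p.2 * (starRingEnd ℂ) (y p.2)) /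
        (((‖x‖ ^ 2 : ℝ) : ℂ) * ((‖y‖ ^ 2 : ℝ) : ℂ)) := by
    rw [PiLp.inner_apply]
    refine Finset.sum_congr rfl fun p _ => ?_
    rw [RCLike.inner_apply]
    simp only [pr, map_div₀, map_mul, Complex.conj_conj, Complex.conj_ofReal]
    rw [div_mul_div_comm]
    congr 1
    · ring
    · ring
  rw [h2, ← Finset.sum_div, Fintype.sum_prod_type]
  have h3 : ∑ i : Fin (N + 1), ∑ j : Fin (N + 1), ((starRingEnd ℂ) (x i) * y i) * (x j * (starRingEnd ℂ) (y j)) =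
      (inner ℂ x y : ℂ) * (starRingEnd ℂ) (inner ℂ x y : ℂ) := by
    rw [inner_sum, map_sum, Finset.sum_mul_sum]
    refine Finset.sum_congr rfl fun i _ => Finset.sum_congr rfl fun j _ => ?_
    rw [map_mul, Complex.conj_conj]
  rw [h3, ← h1]
  push_cast
  rfl

theorem norm_pr {x : EN N} (hx : x ≠ 0) : ‖pr x‖ = 1 := by
  have h0 : ‖x‖ ≠ 0 := norm_ne_zero_iff.mpr hx
  have h1 : ‖pr x‖ ^ 2 = 1 := by
    rw [← inner_self_eq_norm_sq (𝕜 := ℂ), inner_pr, inner_self_eq_norm_sq_to_K]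
    simp only [Complex.coe_algebraMap, norm_pow, Complex.norm_real, norm_norm, RCLike.re_to_complex, Complex.ofReal_re]
    field_simp
  have h2 : 0 ≤ ‖pr x‖ := norm_nonneg _
  nlinarith [h1, h2]

theorem dist_pr_sq {x y : EN N} (hx : x ≠ 0) (hy : y ≠ 0) :
    ‖pr x - pr y‖ ^ 2 = 2 * (wd x y ^ 2 / (‖x‖ ^ 2 * ‖y‖ ^ 2)) := by
  have h0 : ‖x‖ ≠ 0 := norm_ne_zero_iff.mpr hx
  have h0' : ‖y‖ ≠ 0 := norm_ne_zero_iff.mpr hy
  rw [norm_sub_sq (𝕜 := ℂ), inner_pr, norm_pr hx, norm_pr hy, wd_sq]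
  simp only [RCLike.re_to_complex, Complex.ofReal_re]
  field_simp
  ring

theorem dist_pr {x y : EN N} (hx : x ≠ 0) (hy : y ≠ 0) :
    dist (pr x) (pr y) = Real.sqrt 2 * (wd x y / (‖x‖ * ‖y‖)) := by
  have h1 : 0 ≤ wd x y := Real.sqrt_nonneg _
  have h2 : 0 ≤ Real.sqrt 2 * (wd x y / (‖x‖ * ‖y‖)) := by positivity
  have h3 : dist (pr x) (pr y) ^ 2 = (Real.sqrt 2 * (wd x y / (‖x‖ * ‖y‖))) ^ 2 := by
    rw [dist_eq_norm, dist_pr_sq hx hy, mul_pow, Real.sq_sqrt (by norm_num), div_pow, mul_pow]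
  exact (pow_left_inj₀ dist_nonneg h2 two_ne_zero).mp h3

/-- the scalar product in terms of the distance -/
theorem norm_inner_sq {x y : EN N} (hx : x ≠ 0) (hy : y ≠ 0) :
    ‖inner ℂ x y‖ ^ 2 = ‖x‖ ^ 2 * ‖y‖ ^ 2 * (1 - dist (pr x) (pr y) ^ 2 / 2) := by
  have h0 : ‖x‖ ≠ 0 := norm_ne_zero_iff.mpr hx
  have h0' : ‖y‖ ≠ 0 := norm_ne_zero_iff.mpr hy
  rw [dist_eq_norm, dist_pr_sq hx hy, wd_sq]
  field_simp
  ring

theorem pr_eq_iff {x y : EN N} (hx : x ≠ 0) (hy : y ≠ 0) : pr x = pr y ↔ ∃ c : ℂ, c ≠ 0 ∧ x = c • y := by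
  constructor
  · intro h
    have h1 := norm_inner_sq hy hx
    rw [h, dist_self] at h1
    have h2 : ‖(inner ℂ y x : ℂ)‖ ^ 2 = (‖y‖ * ‖x‖) ^ 2 := by
      rw [h1]
      ring
    have h3 : ‖(inner ℂ y x : ℂ)‖ = ‖y‖ * ‖x‖ :=
      (pow_left_inj₀ (norm_nonneg _) (by positivity) two_ne_zero).mp h2
    exact (norm_inner_eq_norm_iff hy hx).mp h3
  · rintro ⟨c, hc, rfl⟩
    exact pr_smul y hc

theorem continuousAt_pr {x : EN N} (hx : x ≠ 0) : ContinuousAt pr x := by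
  have h1 : ContinuousAt (fun x : EN N => fun i : Fin (N + 1) × Fin (N + 1) =>
      x i.1 * (starRingEnd ℂ) (x i.2) / ((‖x‖ ^ 2 : ℝ) : ℂ)) x := by
    refine continuousAt_pi.mpr fun i => ?_
    refine ContinuousAt.div ?_ ?_ (sq_ne hx)
    · refine ContinuousAt.mul ?_ ?_
      · exact (PiLp.continuous_apply 2 _ i.1).continuousAt
      · exact Complex.continuous_conj.continuousAt.comp (PiLp.continuous_apply 2 _ i.2).continuousAt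
    · exact Complex.continuous_ofReal.continuousAt.comp (continuous_norm.pow 2).continuousAt
  exact (PiLp.continuous_toLp 2 _).continuousAt.comp h1

theorem isCompact_pr {X : Set (EN N)} (hX : IsCone X) : IsCompact (pr '' X) := by
  have h1 : X ∩ sphere (0 : EN N) 1 = (insert 0 X) ∩ sphere (0 : EN N) 1 := by
    ext x
    constructor
    · rintro ⟨hx, hs⟩
      exact ⟨Set.mem_insert_of_mem _ hx, hs⟩
    · rintro ⟨hx, hs⟩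
      refine ⟨?_, hs⟩
      rcases hx with rfl | hx
      · simp at hs
      · exact hx
  have h2 : IsCompact (X ∩ sphere (0 : EN N) 1) := by
    rw [h1]
    exact (isCompact_sphere (0 : EN N) 1).inter_left hX.closed
  have h3 : pr '' X = pr '' (X ∩ sphere (0 : EN N) 1) := by
    ext p
    constructor
    · rintro ⟨x, hx, rfl⟩
      have hx0 : x ≠ 0 := fun h => hX.zero_notMem (h ▸ hx)
      have hn : ‖x‖ ≠ 0 := norm_ne_zero_iff.mpr hx0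
      have hc : (((‖x‖⁻¹ : ℝ)) : ℂ) ≠ 0 := by
        exact_mod_cast inv_ne_zero hn
      refine ⟨(((‖x‖⁻¹ : ℝ)) : ℂ) • x, ⟨hX.smul_mem x hx _ hc, ?_⟩, pr_smul x hc⟩
      rw [mem_sphere_zero_iff_norm, norm_smul, Complex.norm_real, norm_inv, norm_norm]
      exact inv_mul_cancel₀ hn
    · rintro ⟨x, hx, rfl⟩
      exact ⟨x, hx.1, rfl⟩
  rw [h3]
  refine h2.image_of_continuousOn fun x hx => ?_
  have hx0 : x ≠ 0 := fun h => hX.zero_notMem (h ▸ hx.1)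
  exact (continuousAt_pr hx0).continuousWithinAt

/-- the representative of the line of `x` in the affine space `⟨x₀, x⟩ = ‖x₀‖²` -/
noncomputable def nm (x₀ x : EN N) : EN N := (((‖x₀‖ ^ 2 : ℝ) : ℂ) / inner ℂ x₀ x) • x

theorem nm_close {x₀ : EN N} (hx₀ : x₀ ≠ 0) {ε : ℝ} (hε : 0 < ε) :
    ∃ δ : ℝ, 0 < δ ∧ ∀ x : EN N, x ≠ 0 → dist (pr x) (pr x₀) < δ → inner ℂ x₀ x ≠ (0 : ℂ) ∧ ‖nm x₀ x - x₀‖ < ε := by
  have hn : 0 < ‖x₀‖ := norm_pos_iff.mpr hx₀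
  refine ⟨min 1 (ε / ‖x₀‖), lt_min one_pos (div_pos hε hn), fun x hx hd => ?_⟩
  have hx' : 0 < ‖x‖ := norm_pos_iff.mpr hx
  have hd1 : dist (pr x) (pr x₀) < 1 := lt_of_lt_of_le hd (min_le_left _ _)
  have hd2 : ‖x₀‖ * dist (pr x) (pr x₀) < ε := by
    have := lt_of_lt_of_le hd (min_le_right _ _)
    rw [lt_div_iff₀ hn] at this
    linarith
  have hi := norm_inner_sq hx₀ hx
  rw [dist_comm] at hi
  set d := dist (pr x) (pr x₀) with hdd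
  have hd0 : 0 ≤ d := dist_nonneg
  have hq : 0 < 1 - d ^ 2 / 2 := by nlinarith
  have hi0 : 0 < ‖(inner ℂ x₀ x : ℂ)‖ ^ 2 := by
    rw [hi]
    positivity
  have hne : (inner ℂ x₀ x : ℂ) ≠ 0 := by
    intro h
    rw [h] at hi0
    simp at hi0
  refine ⟨hne, ?_⟩
  have hc0 : (starRingEnd ℂ) (inner ℂ x₀ x : ℂ) ≠ 0 := by
    intro h
    exact hne ((map_eq_zero _).mp h)
  have h1 : (inner ℂ (nm x₀ x) x₀ : ℂ) = ((‖x₀‖ ^ 2 : ℝ) : ℂ) := by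
    unfold nm
    rw [inner_smul_left, map_div₀, Complex.conj_ofReal, ← inner_conj_symm x x₀, div_mul_cancel₀ _ hc0]
  have h2 : ‖nm x₀ x‖ ^ 2 = ‖x₀‖ ^ 2 / (1 - d ^ 2 / 2) := by
    unfold nm
    rw [norm_smul, norm_div, Complex.norm_real, mul_pow, div_pow, hi, Real.norm_of_nonneg (by positivity)]
    field_simp
  have h3 : ‖nm x₀ x - x₀‖ ^ 2 ≤ (‖x₀‖ * d) ^ 2 := by
    rw [norm_sub_sq (𝕜 := ℂ), h1, h2]
    simp only [RCLike.re_to_complex, Complex.ofReal_re]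
    have h4 : ‖x₀‖ ^ 2 / (1 - d ^ 2 / 2) - 2 * ‖x₀‖ ^ 2 + ‖x₀‖ ^ 2 = ‖x₀‖ ^ 2 * ((d ^ 2 / 2) / (1 - d ^ 2 / 2)) := by
      have hdq : d ^ 2 / 2 = 1 - (1 - d ^ 2 / 2) := by ring
      generalize 1 - d ^ 2 / 2 = q at hq hdq ⊢
      rw [hdq]
      have hq' : q ≠ 0 := hq.ne'
      field_simp
      ring
    rw [h4, mul_pow]
    refine mul_le_mul_of_nonneg_left ?_ (by positivity)
    rw [div_le_iff₀ hq]
    have h6 : d ^ 2 ≤ 1 := by nlinarith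
    have h7 : (1 : ℝ) / 2 ≤ 1 - d ^ 2 / 2 := by linarith
    nlinarith [mul_le_mul_of_nonneg_left h7 (sq_nonneg d)]
  have h5 : ‖nm x₀ x - x₀‖ ≤ ‖x₀‖ * d := abs_le_of_sq_le_sq' h3 (by positivity) |>.2
  linarith

/-- a neighbourhood of a point of the cone which is a cone contains the points with near projection -/
theorem near_of_pr {x₀ : EN N} (hx₀ : x₀ ≠ 0) {U : Set (EN N)} (hU : U ∈ 𝓝 x₀) :
    ∃ δ : ℝ, 0 < δ ∧ ∀ x : EN N, x ≠ 0 → dist (pr x) (pr x₀) < δ → ∃ c : ℂ, c ≠ 0 ∧ c • x ∈ U := by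
  obtain ⟨ε, hε, hb⟩ := Metric.mem_nhds_iff.mp hU
  obtain ⟨δ, hδ, h⟩ := nm_close hx₀ hε
  refine ⟨δ, hδ, fun x hx hd => ?_⟩
  obtain ⟨h1, h2⟩ := h x hx hd
  refine ⟨((‖x₀‖ ^ 2 : ℝ) : ℂ) / inner ℂ x₀ x, div_ne_zero (sq_ne hx₀) h1, hb ?_⟩
  rw [mem_ball, dist_eq_norm]
  exact h2

end Pool.Agent.H62.EF
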