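import Pool.Agent.H62.EF.PrLip
import Pool.Agent.H17.Montel
import Pool.Agent.H17.GlobalLift

/-!
# EF LimL: limits of curves with bounded derivative

`F n` is a holomorphic curve in `X` on `ball 0 (ρ n)`, `ρ n → ∞` along the ultrafilter `𝒰`, with `fs (F n z) ((F n)' z) ≤ L` (`L > 0`).

(a) Local: let `z₀ ∈ ℂ`, `r = 1 / (8 L)`.  For `𝒰`-almost all `n` we have `ball z₀ r ⊆ ball 0 (ρ n)`; let `e n = F n z₀ / ‖F n z₀‖`,
`φ n z = (⟨e n, F n z⟩)⁻¹ • F n z` on `ball z₀ r`.  `pr_lipschitz`: `dist (pr (F n z)) (pr (e n)) ≤ 2 L r = 1/4`, so by `norm_inner_sq`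
`‖⟨e n, F n z⟩‖² ≥ ‖F n z‖² / 2`: `φ n` is holomorphic, `‖φ n z‖ ≤ 2`, `⟨e n, φ n z⟩ = 1`.  `e n → e` (compact sphere) and by
`montel_ultrafilter` `φ n → ψ` locally uniformly on `ball z₀ r`, `ψ` holomorphic; `⟨e, ψ z⟩ = 1`, so `ψ z ≠ 0`, and `ψ z ∈ X` because
`insert 0 X` is closed.  `pr (F n z) = pr (φ n z) → pr (ψ z)` (`continuousAt_pr`), and
`fs (F n z) ((F n)' z) = fs (φ n z) ((φ n)' z) → fs (ψ z) (ψ' z)` (`fs (k x) (k v + a x) = fs x v`, see `H36/BP/MtA.lean` and `WdA.lean`;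
`TendstoLocallyUniformlyOn.deriv`).

(b) Global: for every `z` let `y z` be the limit of `pr (F n z)`; by (a) for every `z₀` there is `ψ` holomorphic near `z₀`, without
zeros, with `pr (ψ z) = y z`.  Define `f z : PN N` as the class of `ψ_z z` (the `ψ` chosen at the point `z`); near `z₀`
`f z = [ψ_{z₀} z]` by `pr_eq_iff`, so `f` is `HolomorphicInto` on `univ`; `exists_global_lift` gives an entire lift `G` without zeros,
`pr (G z) = y z`, `G z = c • ψ z` with `c ≠ 0` near `z₀`, so `G z ∈ X`; `fs (G z) (G' z) = fs (ψ z) (ψ' z)` because `G = a ψ` near `z₀` with `a`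
holomorphic without zeros (`a = ⟨e, G⟩`).
-/

set_option autoImplicit false

open Topology Filter Metric

namespace Pool.Agent.H62.EF

open Pool.Agent.H36.BP (EN fs wd)
open Pool.Agent.H14.PP (IsCone)

variable {N : ℕ}

private lemma LimL_ne_zero {X : Set (EN N)} (hX : IsCone X) {x : EN N} (hx : x ∈ X) : x ≠ 0 := by
  rintro rfl
  exact hX.zero_notMem hx

private lemma LimL_fs_cont {x v : EN N} (hx : x ≠ 0) : ContinuousAt (fun p : EN N × EN N => fs p.1 p.2) (x, v) := by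
  unfold fs
  have h1 : ContinuousAt (fun p : EN N × EN N => wd p.1 p.2) (x, v) := Pool.Agent.H36.BP.wd_cont.continuousAt
  have h2 : ContinuousAt (fun p : EN N × EN N => ‖p.1‖ ^ 2) (x, v) := (continuous_fst.norm.pow 2).continuousAt
  exact h1.div h2 (pow_ne_zero 2 (norm_ne_zero_iff.mpr hx))

private lemma LimL_exists_coord {w : EN N} (hw : w ≠ 0) : ∃ j, w j ≠ 0 := by
  by_contra h
  push Not at h
  apply hw
  ext j
  exact h j

private lemma LimL_coord_an {f : ℂ → EN N} {z : ℂ} (hf : AnalyticAt ℂ f z) (i : Fin (N + 1)) :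
    AnalyticAt ℂ (fun w => f w i) z := by
  exact ((EuclideanSpace.proj (𝕜 := ℂ) i : EN N →L[ℂ] ℂ).analyticAt _).comp hf

private lemma LimL_fs_tendsto {x v : EN N} (hx : x ≠ 0) {a b : ℕ → EN N} {l : Filter ℕ} (ha : Tendsto a l (𝓝 x))
    (hb : Tendsto b l (𝓝 v)) : Tendsto (fun n => fs (a n) (b n)) l (𝓝 (fs x v)) := by
  have h1 := ha.prodMk_nhds hb
  have h2 := (LimL_fs_cont (v := v) hx).tendsto.comp h1
  exact h2

private lemma LimL_fs_eq_aux {f g : ℂ → EN N} {k : ℂ → ℂ} {z : ℂ} (hg : AnalyticAt ℂ g z) (hf0 : f z ≠ 0)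
    (hg0 : g z ≠ 0) (hk : AnalyticAt ℂ k z) (h : ∀ᶠ w in 𝓝 z, f w = k w • g w) :
    fs (f z) (deriv f z) = fs (g z) (deriv g z) := by
  have hz : f z = k z • g z := h.self_of_nhds
  have h0 : k z ≠ 0 := by
    intro h1
    apply hf0
    rw [hz, h1, zero_smul]
  have hd : deriv f z = k z • deriv g z + deriv k z • g z := by
    have h1 : f =ᶠ[𝓝 z] fun w => k w • g w := h
    rw [h1.deriv_eq]
    exact (hk.differentiableAt.hasDerivAt.smul hg.differentiableAt.hasDerivAt).deriv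
  rw [hd, hz]
  exact Pool.Agent.H36.BP.fs_inv hg0 _ h0 _

/-- the length of the derivative does not depend on the lift -/
private lemma LimL_fs_eq {f g : ℂ → EN N} {z : ℂ} (hf : AnalyticAt ℂ f z) (hg : AnalyticAt ℂ g z) (hf0 : f z ≠ 0)
    (hg0 : g z ≠ 0) (h : ∀ᶠ w in 𝓝 z, ∃ c : ℂ, c ≠ 0 ∧ f w = c • g w) : fs (f z) (deriv f z) = fs (g z) (deriv g z) := by
  obtain ⟨l, hl⟩ := LimL_exists_coord hg0
  have hgl := LimL_coord_an hg l
  have hfl := LimL_coord_an hf l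
  have ha : AnalyticAt ℂ (fun w => f w l / g w l) z := hfl.div hgl hl
  have he : ∀ᶠ w in 𝓝 z, f w = (f w l / g w l) • g w := by
    filter_upwards [h, hgl.continuousAt.eventually_ne hl] with w h1 h2
    obtain ⟨c, hc, h3⟩ := h1
    have h4 : f w l = c * g w l := by rw [h3]; rfl
    have h2' : g w l ≠ 0 := h2
    rw [h4, mul_div_assoc, div_self h2', mul_one]
    exact h3
  exact LimL_fs_eq_aux hg hf0 hg0 ha he

private lemma LimL_local {X : Set (EN N)} (hX : IsCone X) {L : ℝ} (hL : 0 < L) (𝒰 : Ultrafilter ℕ) (F : ℕ → ℂ → EN N) (ρ : ℕ → ℝ)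
    (hρ : Tendsto ρ 𝒰 atTop) (hF : ∀ᶠ n in (𝒰 : Filter ℕ), DifferentiableOn ℂ (F n) (ball 0 (ρ n)) ∧
      ∀ z ∈ ball (0 : ℂ) (ρ n), F n z ∈ X ∧ fs (F n z) (deriv (F n) z) ≤ L) (z₀ : ℂ) :
    ∃ (r : ℝ) (φ : ℕ → ℂ → EN N) (ψ : ℂ → EN N), 0 < r ∧
        (∀ᶠ n in (𝒰 : Filter ℕ), DifferentiableOn ℂ (F n) (ball z₀ r) ∧ DifferentiableOn ℂ (φ n) (ball z₀ r) ∧
          ∀ z ∈ ball z₀ r, F n z ∈ X ∧ ∃ c : ℂ, c ≠ 0 ∧ φ n z = c • F n z) ∧
        DifferentiableOn ℂ ψ (ball z₀ r) ∧ (∀ z ∈ ball z₀ r, ψ z ∈ X) ∧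
        TendstoLocallyUniformlyOn φ ψ 𝒰 (ball z₀ r) := by
  set r : ℝ := 1 / (8 * L) with hr
  have hr0 : 0 < r := by positivity
  have hz₀ : z₀ ∈ ball z₀ r := mem_ball_self hr0
  have hev : ∀ᶠ n in (𝒰 : Filter ℕ), DifferentiableOn ℂ (F n) (ball z₀ r) ∧
      ∀ z ∈ ball z₀ r, F n z ∈ X ∧ ‖F n z₀‖ * ‖F n z‖ ≤ 2 * ‖inner ℂ (F n z₀) (F n z)‖ := by
    filter_upwards [hF, hρ.eventually_ge_atTop (‖z₀‖ + r)] with n h1 h2
    obtain ⟨h1, h3⟩ := h1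
    have hsub : ball z₀ r ⊆ ball 0 (ρ n) := by
      apply ball_subset_ball'
      rw [dist_zero_right]
      linarith
    refine ⟨h1.mono hsub, fun z hz => ⟨(h3 z (hsub hz)).1, ?_⟩⟩
    have hx0 : F n z₀ ≠ 0 := LimL_ne_zero hX (h3 z₀ (hsub hz₀)).1
    have hy0 : F n z ≠ 0 := LimL_ne_zero hX (h3 z (hsub hz)).1
    have hlip := pr_lipschitz isOpen_ball (convex_ball z₀ r) (h1.mono hsub)
      (fun w hw => LimL_ne_zero hX (h3 w (hsub hw)).1) (fun w hw => (h3 w (hsub hw)).2) z₀ hz₀ z hz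
    have h4 : ‖z₀ - z‖ ≤ r := by
      rw [← dist_eq_norm, dist_comm]
      exact (mem_ball.mp hz).le
    have h5 : dist (pr (F n z₀)) (pr (F n z)) ≤ 1 / 4 := by
      calc dist (pr (F n z₀)) (pr (F n z)) ≤ 2 * L * ‖z₀ - z‖ := hlip
        _ ≤ 2 * L * r := by gcongr
        _ = 1 / 4 := by rw [hr]; field_simp; norm_num
    have h6 := norm_inner_sq hx0 hy0
    have h7 : dist (pr (F n z₀)) (pr (F n z)) ^ 2 ≤ 1 := by
      have := dist_nonneg (x := pr (F n z₀)) (y := pr (F n z))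
      nlinarith
    have h8 : (‖F n z₀‖ * ‖F n z‖) ^ 2 ≤ (2 * ‖inner ℂ (F n z₀) (F n z)‖) ^ 2 := by
      rw [mul_pow, mul_pow, h6]
      have h9 : 0 ≤ ‖F n z₀‖ ^ 2 * ‖F n z‖ ^ 2 := by positivity
      nlinarith
    exact abs_le_of_sq_le_sq' h8 (by positivity) |>.2
  set φ : ℕ → ℂ → EN N := fun n z => (((‖F n z₀‖ : ℝ) : ℂ) / inner ℂ (F n z₀) (F n z)) • F n z with hφ
  have hev2 : ∀ᶠ n in (𝒰 : Filter ℕ), DifferentiableOn ℂ (F n) (ball z₀ r) ∧ DifferentiableOn ℂ (φ n) (ball z₀ r) ∧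
      ∀ z ∈ ball z₀ r, F n z ∈ X ∧ (∃ c : ℂ, c ≠ 0 ∧ φ n z = c • F n z) ∧ ‖φ n z‖ ≤ 2 ∧ 1 ≤ ‖φ n z‖ := by
    filter_upwards [hev] with n h1
    obtain ⟨h1, h2⟩ := h1
    have hx0 : F n z₀ ≠ 0 := LimL_ne_zero hX (h2 z₀ hz₀).1
    have hxn : 0 < ‖F n z₀‖ := norm_pos_iff.mpr hx0
    have hin : ∀ z ∈ ball z₀ r, (inner ℂ (F n z₀) (F n z) : ℂ) ≠ 0 := by
      intro z hz h
      have h3 := (h2 z hz).2
      have hyn : 0 < ‖F n z‖ := norm_pos_iff.mpr (LimL_ne_zero hX (h2 z hz).1)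
      rw [h, norm_zero, mul_zero] at h3
      have : 0 < ‖F n z₀‖ * ‖F n z‖ := mul_pos hxn hyn
      linarith
    refine ⟨h1, ?_, fun z hz => ⟨(h2 z hz).1, ⟨_, ?_, rfl⟩, ?_, ?_⟩⟩
    · have h3 : DifferentiableOn ℂ (fun z => (inner ℂ (F n z₀) (F n z) : ℂ)) (ball z₀ r) :=
        (innerSL ℂ (F n z₀)).differentiable.comp_differentiableOn h1
      have h4 : DifferentiableOn ℂ (fun z => ((‖F n z₀‖ : ℝ) : ℂ) / (inner ℂ (F n z₀) (F n z) : ℂ)) (ball z₀ r) :=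
        (differentiableOn_const _).div h3 hin
      exact h4.smul h1
    · exact div_ne_zero (Complex.ofReal_ne_zero.mpr hxn.ne') (hin z hz)
    · have h3 := (h2 z hz).2
      have h4 : 0 < ‖(inner ℂ (F n z₀) (F n z) : ℂ)‖ := norm_pos_iff.mpr (hin z hz)
      simp only [hφ]
      rw [norm_smul, norm_div, Complex.norm_real, norm_norm, div_mul_eq_mul_div, div_le_iff₀ h4]
      exact h3
    · have h4 : 0 < ‖(inner ℂ (F n z₀) (F n z) : ℂ)‖ := norm_pos_iff.mpr (hin z hz)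
      simp only [hφ]
      rw [norm_smul, norm_div, Complex.norm_real, norm_norm, div_mul_eq_mul_div, le_div_iff₀ h4, one_mul]
      exact norm_inner_le_norm _ _
  obtain ⟨ψ, hψ, hconv⟩ := Pool.Agent.H17.montel_ultrafilter 𝒰 (F := φ) (a := z₀) (r := r) (B := 2)
    (hev2.mono fun n h => h.2.1) (hev2.mono fun n h z hz => ((h.2.2 z hz).2.2.1))
  refine ⟨r, φ, ψ, hr0, hev2.mono fun n h => ⟨h.1, h.2.1, fun z hz => ⟨(h.2.2 z hz).1, (h.2.2 z hz).2.1⟩⟩, hψ, ?_, hconv⟩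
  intro z hz
  have h1 : Tendsto (fun n => φ n z) 𝒰 (𝓝 (ψ z)) := hconv.tendsto_at hz
  have h2 : ψ z ∈ insert 0 X := by
    refine hX.closed.mem_of_tendsto h1 ?_
    filter_upwards [hev2] with n h
    obtain ⟨h3, ⟨c, hc, h4⟩, -⟩ := h.2.2 z hz
    rw [h4]
    exact Or.inr (hX.smul_mem _ h3 c hc)
  have h3 : 1 ≤ ‖ψ z‖ := by
    refine ge_of_tendsto h1.norm ?_
    filter_upwards [hev2] with n h
    exact (h.2.2 z hz).2.2.2
  rcases h2 with h2 | h2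
  · rw [h2, norm_zero] at h3
    linarith
  · exact h2

theorem limit_curves {X : Set (EN N)} (hX : IsCone X) {L : ℝ} (hL : 0 < L) (𝒰 : Ultrafilter ℕ) (F : ℕ → ℂ → EN N) (ρ : ℕ → ℝ)
    (hρ : Tendsto ρ 𝒰 atTop) (hF : ∀ᶠ n in (𝒰 : Filter ℕ), DifferentiableOn ℂ (F n) (ball 0 (ρ n)) ∧
      ∀ z ∈ ball (0 : ℂ) (ρ n), F n z ∈ X ∧ fs (F n z) (deriv (F n) z) ≤ L) :
    ∃ G : ℂ → EN N, Differentiable ℂ G ∧ (∀ z, G z ∈ X) ∧ (∀ z, Tendsto (fun n => pr (F n z)) 𝒰 (𝓝 (pr (G z)))) ∧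
      (∀ z, Tendsto (fun n => fs (F n z) (deriv (F n) z)) 𝒰 (𝓝 (fs (G z) (deriv G z)))) ∧
      ∀ z₀, ∃ (r : ℝ) (φ : ℕ → ℂ → EN N) (ψ : ℂ → EN N), 0 < r ∧
        (∀ᶠ n in (𝒰 : Filter ℕ), DifferentiableOn ℂ (φ n) (ball z₀ r) ∧ ∀ z ∈ ball z₀ r, ∃ c : ℂ, c ≠ 0 ∧ φ n z = c • F n z) ∧
        DifferentiableOn ℂ ψ (ball z₀ r) ∧ (∀ z ∈ ball z₀ r, ∃ c : ℂ, c ≠ 0 ∧ ψ z = c • G z) ∧
        TendstoLocallyUniformlyOn φ ψ 𝒰 (ball z₀ r) := by
  classical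
  choose r φ ψ hr hev hψd hψX hconv using LimL_local hX hL 𝒰 F ρ hρ hF
  have hψ0 : ∀ z₀, ∀ z ∈ ball z₀ (r z₀), ψ z₀ z ≠ 0 := fun z₀ z hz => LimL_ne_zero hX (hψX z₀ z hz)
  have hself : ∀ z, z ∈ ball z (r z) := fun z => mem_ball_self (hr z)
  have hprl : ∀ z₀, ∀ z ∈ ball z₀ (r z₀), Tendsto (fun n => pr (F n z)) 𝒰 (𝓝 (pr (ψ z₀ z))) := by
    intro z₀ z hz
    have h1 : Tendsto (fun n => φ z₀ n z) 𝒰 (𝓝 (ψ z₀ z)) := (hconv z₀).tendsto_at hz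
    have h2 : Tendsto (fun n => pr (φ z₀ n z)) 𝒰 (𝓝 (pr (ψ z₀ z))) :=
      (continuousAt_pr (hψ0 z₀ z hz)).tendsto.comp h1
    refine h2.congr' ?_
    filter_upwards [hev z₀] with n h
    obtain ⟨-, c, hc, h4⟩ := h.2.2 z hz
    rw [h4, pr_smul _ hc]
  have hψan : ∀ z₀, AnalyticAt ℂ (ψ z₀) z₀ := fun z₀ => (hψd z₀).analyticAt (isOpen_ball.mem_nhds (hself z₀))
  have hofne : ∀ v : EN N, v ≠ 0 → v.ofLp ≠ 0 := by
    intro v hv h
    apply hv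
    ext j
    exact congrFun h j
  set f : ℂ → Pool.Agent.H17.PN N := fun z => Projectivization.mk ℂ (ψ z z).ofLp
    (hofne _ (hψ0 z z (hself z))) with hf
  have hfhol : Pool.Agent.H17.HolomorphicInto f Set.univ := by
    intro z₀ _
    refine ⟨fun w => (ψ z₀ w).ofLp, ?_, ?_⟩
    · rw [analyticAt_pi_iff]
      intro j
      exact LimL_coord_an (hψan z₀) j
    · filter_upwards [isOpen_ball.mem_nhds (hself z₀)] with z hz
      have h2 := hψ0 z₀ z hz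
      refine ⟨hofne _ h2, ?_⟩
      have h3 : pr (ψ z z) = pr (ψ z₀ z) := tendsto_nhds_unique (hprl z z (hself z)) (hprl z₀ z hz)
      obtain ⟨c, hc, h4⟩ := (pr_eq_iff (hψ0 z z (hself z)) h2).mp h3
      rw [hf, Projectivization.mk_eq_mk_iff']
      exact ⟨c, by rw [h4]; rfl⟩
  obtain ⟨x, hx⟩ := Pool.Agent.H17.exists_global_lift hfhol
  set G : ℂ → EN N := fun z => WithLp.toLp 2 (fun j => (x j : ℂ → ℂ) z) with hG
  have hGd : Differentiable ℂ G := by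
    have h1 : Differentiable ℂ (fun z => (fun j => (x j : ℂ → ℂ) z)) :=
      differentiable_pi.2 fun j => (x j).diff
    exact (PiLp.continuousLinearEquiv 2 ℂ (fun _ : Fin (N + 1) => ℂ)).symm.differentiable.comp h1
  have hGc : ∀ z, ∃ c : ℂ, c ≠ 0 ∧ ψ z z = c • G z := by
    intro z
    obtain ⟨h1, h2⟩ := hx z
    obtain ⟨c, hc, h3⟩ := Pool.Agent.H17.mk_eq_mk_cross h2
    refine ⟨c, hc, ?_⟩
    ext j
    exact h3 j
  have hGX : ∀ z, G z ∈ X := by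
    intro z
    obtain ⟨c, hc, h1⟩ := hGc z
    have h2 := hX.smul_mem _ (hψX z z (hself z)) c⁻¹ (inv_ne_zero hc)
    rwa [h1, smul_smul, inv_mul_cancel₀ hc, one_smul] at h2
  have hG0 : ∀ z, G z ≠ 0 := fun z => LimL_ne_zero hX (hGX z)
  have hGpr : ∀ z, pr (ψ z z) = pr (G z) := by
    intro z
    obtain ⟨c, hc, h1⟩ := hGc z
    rw [h1, pr_smul _ hc]
  have hlim : ∀ z, Tendsto (fun n => pr (F n z)) 𝒰 (𝓝 (pr (G z))) := by
    intro z
    rw [← hGpr z]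
    exact hprl z z (hself z)
  have hprop : ∀ z₀, ∀ z ∈ ball z₀ (r z₀), ∃ c : ℂ, c ≠ 0 ∧ ψ z₀ z = c • G z := by
    intro z₀ z hz
    exact (pr_eq_iff (hψ0 z₀ z hz) (hG0 z)).mp (tendsto_nhds_unique (hprl z₀ z hz) (hlim z))
  refine ⟨G, hGd, hGX, hlim, ?_, ?_⟩
  · intro z
    have hzb := isOpen_ball.mem_nhds (hself z)
    have h1 : fs (ψ z z) (deriv (ψ z) z) = fs (G z) (deriv G z) := by
      refine LimL_fs_eq (hψan z) (hGd.analyticAt z) (hψ0 z z (hself z)) (hG0 z) ?_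
      filter_upwards [hzb] with w hw
      exact hprop z w hw
    rw [← h1]
    have h2 : Tendsto (fun n => φ z n z) 𝒰 (𝓝 (ψ z z)) := (hconv z).tendsto_at (hself z)
    have hd : TendstoLocallyUniformlyOn (deriv ∘ (φ z)) (deriv (ψ z)) 𝒰 (ball z (r z)) :=
      (hconv z).deriv ((hev z).mono fun n hn => hn.2.1) isOpen_ball
    have h3 : Tendsto (fun n => deriv (φ z n) z) 𝒰 (𝓝 (deriv (ψ z) z)) := hd.tendsto_at (hself z)
    have h4 : Tendsto (fun n => fs (φ z n z) (deriv (φ z n) z)) 𝒰 (𝓝 (fs (ψ z z) (deriv (ψ z) z))) :=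
      LimL_fs_tendsto (hψ0 z z (hself z)) h2 h3
    refine h4.congr' ?_
    filter_upwards [hev z] with n h
    obtain ⟨h5, h6, h7⟩ := h
    have hFX := (h7 z (hself z)).1
    obtain ⟨c, hc, h8⟩ := (h7 z (hself z)).2
    refine LimL_fs_eq (h6.analyticAt hzb) (h5.analyticAt hzb) ?_ (LimL_ne_zero hX hFX) ?_
    · rw [h8]
      exact smul_ne_zero hc (LimL_ne_zero hX hFX)
    · filter_upwards [hzb] with w hw
      exact (h7 w hw).2
  · intro z₀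
    refine ⟨r z₀, φ z₀, ψ z₀, hr z₀, ?_, hψd z₀, hprop z₀, hconv z₀⟩
    filter_upwards [hev z₀] with n h
    exact ⟨h.2.1, fun z hz => (h.2.2 z hz).2⟩

end Pool.Agent.H62.EF
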