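import Pool.Agent.H17BP.NF
import Pool.Agent.H17BP.SliceF
import Pool.Agent.H17BP.Ift

/-!
# EF IsoA: an analytic function which vanishes on a smooth curve

`exists_power`: let `g` be analytic at `0` and not identically `0` near `0`.  Then there are arbitrarily small `x` such that, for some `δ > 0`,
`g (x', y) = 0` implies `y = 0` for `‖x' - x‖ < δ`, `‖y‖ < δ`.
Proof.  `exists_slice_of_ne` (`H17BP/SliceF.lean`): some slice `t ↦ g (t v)` has finite order `k` at `0`.  Induction on `k`.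
* If `x ↦ g (x, 0)` is not identically `0` near `0`: there are arbitrarily small `x` with `g (x, 0) ≠ 0`, and `g ≠ 0` near `(x, 0)` (continuity).
* Otherwise `g (x, 0) = 0` for all small `x`, so (`exists_div_y`, `H17BP/NF.lean` or `Div.lean`) `g (x, y) = y * g₁ (x, y)` near `0` with `g₁` analytic at `0`.
  The slice of `g₁` along the same `v` has order `k - 1` (`v.2 ≠ 0` because the slice of `g` is not identically `0`).  Apply the induction hypothesis to `g₁`: for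
  small `x` (so that `g = y g₁` near `(x, 0)`) `g (x', y) = 0` implies `y = 0` or `g₁ (x', y) = 0`, hence `y = 0`.

`exists_isolated`: let `π : ℂ → ℂ × ℂ` be analytic at `0` with `π 0 = p₀`, `π' 0 ≠ 0`, and let `G` be analytic at `p₀`, not identically `0` near `p₀`,
with `G (π z) = 0` for `z` near `0`.  Then there are arbitrarily small `z₁` and `δ > 0` such that every zero `p` of `G` with `‖p - π z₁‖ < δ` is of the
form `p = π z` with `‖z - z₁‖ < ε'` (for every prescribed `ε' > 0`).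
Proof.  Let `e` be a vector which is not a multiple of `π' 0`, `Φ (z, w) = π z + w • e - p₀`: a local biholomorphic map (`bihol_iff`: the derivative at `0` has the columns
`π' 0`, `e`).  `g = G (p₀ + Φ ·)` is analytic at `0` and not identically `0` near `0`.  Take `z₁` as in `exists_power` for `g`, small.  `Φ` is a homeomorphism from a
neighbourhood of `0` to a neighbourhood of `0` (inverse germ `Φ'`, analytic near `0`), so every `p` near `π z₁` is `p₀ + Φ (z, w)` with `(z, w) = Φ' (p - p₀)` near `(z₁, 0)`;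
`G p = 0` gives `g (z, w) = 0`, `w = 0`, `p = π z`.
-/

set_option autoImplicit false

open Topology Filter Metric

namespace Pool.Agent.H62.EF

private theorem pow_aux (k : ℕ) : ∀ {g : ℂ × ℂ → ℂ} (v : ℂ × ℂ), AnalyticAt ℂ g 0 →
    analyticOrderAt (fun z : ℂ => g (z * v.1, z * v.2)) 0 ≤ (k : ℕ∞) → ∀ {ε : ℝ}, 0 < ε →
    ∃ (x : ℂ) (δ : ℝ), ‖x‖ < ε ∧ 0 < δ ∧ ∀ x' y : ℂ, ‖x' - x‖ < δ → ‖y‖ < δ → g (x', y) = 0 → y = 0 := by
  -- the case that `g (x, 0)` is not identically zero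
  have case1 : ∀ {g : ℂ × ℂ → ℂ}, AnalyticAt ℂ g 0 → (¬ ∀ᶠ x in 𝓝 (0 : ℂ), g (x, 0) = 0) →
      ∀ {ε : ℝ}, 0 < ε → ∃ (x : ℂ) (δ : ℝ), ‖x‖ < ε ∧ 0 < δ ∧
        ∀ x' y : ℂ, ‖x' - x‖ < δ → ‖y‖ < δ → g (x', y) = 0 → y = 0 := by
    intro g hg h0 ε hε
    have hf : ∃ᶠ x in 𝓝 (0 : ℂ), g (x, 0) ≠ 0 := not_eventually.1 h0
    have ht : Tendsto (fun x : ℂ => ((x, 0) : ℂ × ℂ)) (𝓝 0) (𝓝 0) :=
      (continuous_id.prodMk continuous_const).tendsto' _ _ rfl
    have han : ∀ᶠ x in 𝓝 (0 : ℂ), AnalyticAt ℂ g (x, 0) := ht.eventually hg.eventually_analyticAt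
    have hε' : ∀ᶠ x in 𝓝 (0 : ℂ), ‖x‖ < ε := by
      filter_upwards [Metric.ball_mem_nhds (0 : ℂ) hε] with x hx
      exact mem_ball_zero_iff.1 hx
    obtain ⟨x, hx0, hx1, hx2⟩ := (hf.and_eventually (han.and hε')).exists
    have hne : ∀ᶠ p in 𝓝 ((x, 0) : ℂ × ℂ), g p ≠ 0 := hx1.continuousAt.eventually_ne hx0
    obtain ⟨δ, hδ, hδ'⟩ := Metric.eventually_nhds_iff.1 hne
    refine ⟨x, δ, hx2, hδ, fun x' y h1 h2 h3 => ?_⟩
    have hd : dist ((x', y) : ℂ × ℂ) (x, 0) < δ := by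
      rw [Prod.dist_eq]
      refine max_lt ?_ ?_
      · simpa [dist_eq_norm] using h1
      · simpa [dist_eq_norm] using h2
    exact absurd h3 (hδ' hd)
  induction k with
  | zero =>
    intro g v hg ho ε hε
    refine case1 hg ?_ hε
    intro h
    -- the slice has order zero but vanishes at zero
    have h1 : analyticOrderAt (fun z : ℂ => g (z * v.1, z * v.2)) 0 = 0 := by
      simpa using ho
    have han : AnalyticAt ℂ (fun z : ℂ => g (z * v.1, z * v.2)) 0 := by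
      refine AnalyticAt.comp_of_eq (g := g) (f := fun z : ℂ => ((z * v.1, z * v.2) : ℂ × ℂ)) hg ?_ ?_
      · exact (analyticAt_id.mul analyticAt_const).prod (analyticAt_id.mul analyticAt_const)
      · simp
    rw [han.analyticOrderAt_eq_zero] at h1
    apply h1
    simp only [zero_mul]
    exact h.self_of_nhds
  | succ k ih =>
    intro g v hg ho ε hε
    by_cases h : ∀ᶠ x in 𝓝 (0 : ℂ), g (x, 0) = 0
    · obtain ⟨g₁, hg₁, he⟩ := Pool.Agent.H17BP.exists_div_y hg h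
      have hl : AnalyticAt ℂ (fun z : ℂ => ((z * v.1, z * v.2) : ℂ × ℂ)) 0 :=
        (analyticAt_id.mul analyticAt_const).prod (analyticAt_id.mul analyticAt_const)
      have han : AnalyticAt ℂ (fun z : ℂ => g₁ (z * v.1, z * v.2)) 0 :=
        AnalyticAt.comp_of_eq (g := g₁) (f := fun z : ℂ => ((z * v.1, z * v.2) : ℂ × ℂ)) hg₁ hl (by simp)
      have hlt : Tendsto (fun z : ℂ => ((z * v.1, z * v.2) : ℂ × ℂ)) (𝓝 0) (𝓝 0) := by
        have h1 : Continuous (fun z : ℂ => ((z * v.1, z * v.2) : ℂ × ℂ)) := by fun_prop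
        exact h1.tendsto' _ _ (by simp)
      have hm : AnalyticAt ℂ (fun z : ℂ => z * v.2) 0 := analyticAt_id.mul analyticAt_const
      have hcongr : (fun z : ℂ => g (z * v.1, z * v.2)) =ᶠ[𝓝 0]
          ((fun z : ℂ => z * v.2) * fun z : ℂ => g₁ (z * v.1, z * v.2)) := by
        filter_upwards [hlt.eventually he] with z hz
        rw [hz]
        rfl
      rw [analyticOrderAt_congr hcongr, analyticOrderAt_mul hm han] at ho
      have h1 : 1 ≤ analyticOrderAt (fun z : ℂ => z * v.2) 0 := by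
        rw [Order.one_le_iff_ne_zero, hm.analyticOrderAt_ne_zero]
        exact zero_mul _
      have h2 : analyticOrderAt (fun z : ℂ => g₁ (z * v.1, z * v.2)) 0 ≤ (k : ℕ∞) := by
        have h3 : 1 + analyticOrderAt (fun z : ℂ => g₁ (z * v.1, z * v.2)) 0 ≤ ((k + 1 : ℕ) : ℕ∞) :=
          le_trans (by gcongr) ho
        rw [Nat.cast_add, Nat.cast_one, add_comm] at h3
        exact (ENat.add_le_add_iff_right (by simp)).1 h3
      obtain ⟨r, hr, hr'⟩ := Metric.eventually_nhds_iff.1 he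
      obtain ⟨x, δ, hx, hδ, hx'⟩ := ih v hg₁ h2 (lt_min hε hr)
      have hxr : ‖x‖ < r := lt_of_lt_of_le hx (min_le_right _ _)
      refine ⟨x, min δ (r - ‖x‖), lt_of_lt_of_le hx (min_le_left _ _), lt_min hδ (by linarith), ?_⟩
      intro x' y h3 h4 h5
      have h6 : dist ((x', y) : ℂ × ℂ) 0 < r := by
        rw [dist_zero_right, Prod.norm_def]
        refine max_lt ?_ ?_
        · have h7 := lt_of_lt_of_le h3 (min_le_right _ _)
          have h8 : ‖x'‖ ≤ ‖x' - x‖ + ‖x‖ := by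
            calc ‖x'‖ = ‖(x' - x) + x‖ := by rw [sub_add_cancel]
              _ ≤ _ := norm_add_le _ _
          simp only
          linarith
        · have h7 := lt_of_lt_of_le h4 (min_le_right _ _)
          have h8 := norm_nonneg x
          simp only
          linarith
      have h7 := hr' h6
      rw [h5, smul_eq_mul] at h7
      rcases mul_eq_zero.1 h7.symm with h8 | h8
      · exact h8
      · exact hx' x' y (lt_of_lt_of_le h3 (min_le_left _ _)) (lt_of_lt_of_le h4 (min_le_left _ _)) h8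
    · exact case1 hg h hε

theorem exists_power {g : ℂ × ℂ → ℂ} (hg : AnalyticAt ℂ g 0) (h0 : ¬ ∀ᶠ x in 𝓝 (0 : ℂ × ℂ), g x = 0) {ε : ℝ} (hε : 0 < ε) :
    ∃ (x : ℂ) (δ : ℝ), ‖x‖ < ε ∧ 0 < δ ∧ ∀ x' y : ℂ, ‖x' - x‖ < δ → ‖y‖ < δ → g (x', y) = 0 → y = 0 := by
  obtain ⟨m, v, hm⟩ := Pool.Agent.H17BP.exists_slice_of_ne hg h0
  exact pow_aux m v hg hm hε

theorem exists_isolated {π : ℂ → ℂ × ℂ} (hπ : AnalyticAt ℂ π 0) (hπ' : deriv π 0 ≠ 0) {G : ℂ × ℂ → ℂ} (hG : AnalyticAt ℂ G (π 0))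
    (h0 : ¬ ∀ᶠ p in 𝓝 (π 0), G p = 0) {ε : ℝ} (hε : 0 < ε) :
    ∃ z₁ : ℂ, ‖z₁‖ < ε ∧ ∀ ε' : ℝ, 0 < ε' → ∃ δ : ℝ, 0 < δ ∧ ∀ p : ℂ × ℂ, ‖p - π z₁‖ < δ → G p = 0 → ∃ z : ℂ, ‖z - z₁‖ < ε' ∧ p = π z := by
  -- a vector which is not a multiple of the derivative
  obtain ⟨e, he⟩ : ∃ e : ℂ × ℂ, (deriv π 0).1 * e.2 - e.1 * (deriv π 0).2 ≠ 0 := by
    by_cases h1 : (deriv π 0).1 = 0
    · refine ⟨(1, 0), ?_⟩
      have h2 : (deriv π 0).2 ≠ 0 := fun h2 => hπ' (Prod.ext h1 h2)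
      simpa using h2
    · exact ⟨(0, 1), by simpa using h1⟩
  set Φ : ℂ × ℂ → ℂ × ℂ := fun x => π x.1 + x.2 • e - π 0 with hΦdef
  have hπ1 : AnalyticAt ℂ (fun x : ℂ × ℂ => π x.1) 0 :=
    AnalyticAt.comp_of_eq (g := π) (f := fun x : ℂ × ℂ => x.1) hπ analyticAt_fst rfl
  have hΦan : AnalyticAt ℂ Φ 0 := (hπ1.add (analyticAt_snd.smul analyticAt_const)).sub analyticAt_const
  have hΦ0 : Φ 0 = 0 := by
    simp [hΦdef]
  have hd1 : HasFDerivAt π (ContinuousLinearMap.toSpanSingleton ℂ (deriv π 0)) ((0 : ℂ × ℂ).1) :=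
    hπ.differentiableAt.hasDerivAt.hasFDerivAt
  have hd2 : HasFDerivAt (fun x : ℂ × ℂ => π x.1)
      ((ContinuousLinearMap.toSpanSingleton ℂ (deriv π 0)).comp (ContinuousLinearMap.fst ℂ ℂ ℂ)) 0 :=
    HasFDerivAt.comp (g := π) (0 : ℂ × ℂ) hd1 hasFDerivAt_fst
  have hd3 : HasFDerivAt (fun x : ℂ × ℂ => x.2 • e) ((ContinuousLinearMap.snd ℂ ℂ ℂ).smulRight e) 0 :=
    (hasFDerivAt_snd (𝕜 := ℂ) (E := ℂ) (F := ℂ) (p := (0 : ℂ × ℂ))).smul_const e
  have hd4 : HasFDerivAt Φ ((ContinuousLinearMap.toSpanSingleton ℂ (deriv π 0)).comp (ContinuousLinearMap.fst ℂ ℂ ℂ) +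
      (ContinuousLinearMap.snd ℂ ℂ ℂ).smulRight e) 0 := (hd2.add hd3).sub_const (π 0)
  have hbi : Pool.Agent.H17BP.Bihol Φ := by
    rw [Pool.Agent.H17BP.bihol_iff hΦan hΦ0, hd4.fderiv]
    simpa using he
  obtain ⟨Φ', hΦ', hinv1, hinv2⟩ := hbi.exists_inv
  -- the function in the new coordinates
  have hgan : AnalyticAt ℂ (fun x : ℂ × ℂ => G (π 0 + Φ x)) 0 := by
    refine AnalyticAt.comp_of_eq (g := G) (f := fun x : ℂ × ℂ => π 0 + Φ x) hG ?_ ?_
    · exact analyticAt_const.add hΦan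
    · rw [hΦ0, add_zero]
  have hsub : Tendsto (fun p : ℂ × ℂ => p - π 0) (𝓝 (π 0)) (𝓝 0) := by
    have h1 : Continuous (fun p : ℂ × ℂ => p - π 0) := by fun_prop
    exact h1.tendsto' _ _ (sub_self _)
  have hgne : ¬ ∀ᶠ x in 𝓝 (0 : ℂ × ℂ), G (π 0 + Φ x) = 0 := by
    intro h
    apply h0
    filter_upwards [(hΦ'.tendsto.comp hsub).eventually h, hsub.eventually hinv2] with p h1 h2
    simp only [Function.comp_apply] at h1
    rw [h2, add_sub_cancel] at h1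
    exact h1
  -- smallness
  have hline : Tendsto (fun z : ℂ => ((z, 0) : ℂ × ℂ)) (𝓝 0) (𝓝 0) :=
    (continuous_id.prodMk continuous_const).tendsto' _ _ rfl
  have e1 : ∀ᶠ z in 𝓝 (0 : ℂ), Φ' (Φ (z, 0)) = (z, 0) := hline.eventually hinv1
  have e2 : ∀ᶠ z in 𝓝 (0 : ℂ), AnalyticAt ℂ Φ' (Φ (z, 0)) :=
    (hbi.tendsto.comp hline).eventually hΦ'.an.eventually_analyticAt
  have e3 : ∀ᶠ z in 𝓝 (0 : ℂ), ∀ᶠ q in 𝓝 (Φ (z, 0)), Φ (Φ' q) = q :=
    (hbi.tendsto.comp hline).eventually hinv2.eventually_nhds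
  obtain ⟨r, hr, hr'⟩ := Metric.eventually_nhds_iff.1 (e1.and (e2.and e3))
  obtain ⟨z₁, δ₀, hz₁, hδ₀, hz₁'⟩ := exists_power hgan hgne (lt_min hε hr)
  obtain ⟨f1, f2, f3⟩ := hr' (y := z₁) (by
    rw [dist_zero_right]
    exact lt_of_lt_of_le hz₁ (min_le_right _ _))
  refine ⟨z₁, lt_of_lt_of_le hz₁ (min_le_left _ _), fun ε' hε' => ?_⟩
  have hΦz : Φ (z₁, 0) = π z₁ - π 0 := by
    simp [hΦdef]
  have hcont : Tendsto Φ' (𝓝 (Φ (z₁, 0))) (𝓝 (z₁, 0)) := by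
    have := f2.continuousAt.tendsto
    rwa [f1] at this
  have g1 : ∀ᶠ q in 𝓝 (Φ (z₁, 0)), dist (Φ' q) (z₁, 0) < min δ₀ ε' :=
    hcont.eventually (Metric.ball_mem_nhds _ (lt_min hδ₀ hε'))
  obtain ⟨δ, hδ, hδ'⟩ := Metric.eventually_nhds_iff.1 (g1.and f3)
  refine ⟨δ, hδ, fun p hp hGp => ?_⟩
  obtain ⟨k1, k2⟩ := hδ' (y := p - π 0) (by
    rw [hΦz, dist_eq_norm, sub_sub_sub_cancel_right]
    exact hp)
  rw [Prod.dist_eq] at k1
  have k3 : ‖(Φ' (p - π 0)).1 - z₁‖ < min δ₀ ε' := by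
    have := lt_of_le_of_lt (le_max_left _ _) k1
    rwa [dist_eq_norm] at this
  have k4 : ‖(Φ' (p - π 0)).2‖ < min δ₀ ε' := by
    have := lt_of_le_of_lt (le_max_right _ _) k1
    simpa [dist_eq_norm] using this
  have k5 : (Φ' (p - π 0)).2 = 0 := by
    refine hz₁' (Φ' (p - π 0)).1 (Φ' (p - π 0)).2 (lt_of_lt_of_le k3 (min_le_left _ _))
      (lt_of_lt_of_le k4 (min_le_left _ _)) ?_
    simp only [Prod.mk.eta]
    rw [k2, add_sub_cancel]
    exact hGp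
  refine ⟨(Φ' (p - π 0)).1, lt_of_lt_of_le k3 (min_le_right _ _), ?_⟩
  have k6 : Φ (Φ' (p - π 0)) = π (Φ' (p - π 0)).1 - π 0 := by
    simp only [hΦdef]
    rw [k5, zero_smul, add_zero]
  rw [k6] at k2
  exact (sub_left_injective k2).symm

end Pool.Agent.H62.EF
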