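import Pool.Agent.H62.EF.Tfl

/-!
# EF Loc: local data on the projective space

`exists_loc`: let `χ, υ, s` be as in `exists_adm`.  For a matrix `y` let `y ⬝ x₀` be the vector with the coordinates `∑ j, y (i, j) * x₀ j`; it depends
continuously on `y`, and `(pr x) ⬝ x₀ = (⟨x, x₀⟩ / ‖x‖²) • x`, so `(pr x₀) ⬝ x₀ = x₀`.  `Q y = χ.q (y ⬝ x₀)`: for `y` near `pr x₀` the vector
`y ⬝ x₀` is near `x₀`, so it is in the open set `χ.U`, `Q` is continuous at `y` and `‖Q y‖ < s / 2` (`Q (pr x₀) = 0`).  If `x ∈ X` and `pr x` is near `pr x₀` then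
`⟨x, x₀⟩ ≠ 0`, `(pr x) ⬝ x₀ = c • x`, `c ≠ 0`, so `x ∈ χ.U` and `χ.q x = Q (pr x)`.
`LocData.That_eq`: `x = c • χ.σ (χ.q x)` (`surj`), `TfAt_chart`, `TfAt.smul`, `That_eq`.
`TF_cont`: `aCoef Ω χ` is analytic on `ball 0 2` (`Form.analytic` with `φ = χ.σ`), `fderiv ℂ χ.σ`, `fderiv ℂ υ` and `wd` are continuous,
`grd υ p ≠ 0` and `chart_imm`: the denominator is not `0`.
`TF_eq_zero`: the other factors are positive.
-/

set_option autoImplicit false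

open Topology Filter Metric

namespace Pool.Agent.H62.EF

open Pool.Agent.H36.BP (EN fs wd)
open Pool.Agent.H14.PP (IsCone Chart Form Tan aCoef)

variable {N : ℕ} {X : Set (EN N)} {Λ : AddSubgroup ℂ} {u : EN N → ℂ} {M : ℕ}

/-- a chart near a point `y₀` of the projective space -/
structure LocData (Λ : AddSubgroup ℂ) (u : EN N → ℂ) (χ : Chart X) (υ : ℂ × ℂ → ℂ) (s : ℝ) (y₀ : MN N) (δ : ℝ)
    (Q : MN N → ℂ × ℂ) : Prop where
  adm : Adm Λ u χ υ s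
  pos : 0 < δ
  cont : ContinuousOn Q (closedBall y₀ δ)
  mem : ∀ x ∈ X, dist (pr x) y₀ ≤ δ → x ∈ χ.U ∧ χ.q x = Q (pr x) ∧ χ.q x ∈ closedBall (0 : ℂ × ℂ) (s / 2)

/-- the matrix `y` applied to the vector `x₀` -/
private noncomputable def apm (y : MN N) (x₀ : EN N) : EN N := WithLp.toLp 2 fun i => ∑ j, y (i, j) * x₀ j

private theorem apm_cont (x₀ : EN N) : Continuous fun y : MN N => apm y x₀ := by
  refine (PiLp.continuous_toLp 2 _).comp (continuous_pi fun i => ?_)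
  refine continuous_finsetSum _ fun j _ => ?_
  exact (PiLp.continuous_apply 2 _ (i, j)).mul continuous_const

private theorem apm_pr (x x₀ : EN N) : apm (pr x) x₀ = ((inner ℂ x x₀ : ℂ) / ((‖x‖ ^ 2 : ℝ) : ℂ)) • x := by
  have h1 : (inner ℂ x x₀ : ℂ) = ∑ j, (starRingEnd ℂ) (x j) * x₀ j := by
    rw [PiLp.inner_apply]
    refine Finset.sum_congr rfl fun j _ => ?_
    rw [RCLike.inner_apply]
    ring
  ext i
  simp only [apm, pr, PiLp.smul_apply, smul_eq_mul]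
  rw [h1, Finset.sum_div, Finset.sum_mul]
  refine Finset.sum_congr rfl fun j _ => ?_
  ring

private theorem apm_self {x₀ : EN N} (h : x₀ ≠ 0) : apm (pr x₀) x₀ = x₀ := by
  have h1 : ((‖x₀‖ ^ 2 : ℝ) : ℂ) ≠ 0 := by
    have : ‖x₀‖ ≠ 0 := norm_ne_zero_iff.mpr h
    exact_mod_cast pow_ne_zero 2 this
  rw [apm_pr, inner_self_eq_norm_sq_to_K]
  have h2 : (((‖x₀‖ : ℝ) : ℂ)) ^ 2 = ((‖x₀‖ ^ 2 : ℝ) : ℂ) := by push_cast; rfl
  have h3 : ((RCLike.ofReal ‖x₀‖ : ℂ)) ^ 2 = ((‖x₀‖ ^ 2 : ℝ) : ℂ) := h2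
  rw [h3, div_self h1, one_smul]

theorem exists_loc (hX : IsCone X) (hch : Charts X) (hu : TorusMap X Λ u) (hΛ : Lat Λ) {x₀ w : EN N} (hx : x₀ ∈ X)
    (hw : DU X Λ u x₀ w 1) :
    ∃ (χ : Chart X) (υ : ℂ × ℂ → ℂ) (s δ : ℝ) (Q : MN N → ℂ × ℂ), LocData Λ u χ υ s (pr x₀) δ Q := by
  obtain ⟨χ, υ, s, hxU, hq0, hadm⟩ := exists_adm hX hch hu hΛ hx one_ne_zero hw
  have hx0 : x₀ ≠ 0 := fun h => hX.zero_notMem (h ▸ hx)
  have hs : 0 < s / 2 := half_pos hadm.pos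
  have hc := (apm_cont x₀).continuousAt (x := pr x₀)
  have hself := apm_self hx0
  have e1 : ∀ᶠ y in 𝓝 (pr x₀), apm y x₀ ∈ χ.U := by
    refine hc.eventually_mem ?_
    rw [hself]
    exact χ.isOpen_U.mem_nhds hxU
  have e2 : ∀ᶠ y in 𝓝 (pr x₀), apm y x₀ ≠ 0 := by
    refine hc.eventually_ne ?_
    rw [hself]
    exact hx0
  have e3 : ∀ᶠ y in 𝓝 (pr x₀), χ.q (apm y x₀) ∈ ball (0 : ℂ × ℂ) (s / 2) := by
    have h1 : ContinuousAt χ.q (apm (pr x₀) x₀) := by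
      rw [hself]
      exact (χ.q_an x₀ hxU).continuousAt
    have h2 : ContinuousAt (fun y : MN N => χ.q (apm y x₀)) (pr x₀) := ContinuousAt.comp (f := fun y : MN N => apm y x₀) h1 hc
    refine h2.eventually_mem (isOpen_ball.mem_nhds ?_)
    rw [hself, hq0]
    exact mem_ball_self hs
  obtain ⟨δ, hδ, hball⟩ := Metric.eventually_nhds_iff.mp (e1.and (e2.and e3))
  have hcl : ∀ y : MN N, dist y (pr x₀) ≤ δ / 2 →
      apm y x₀ ∈ χ.U ∧ apm y x₀ ≠ 0 ∧ χ.q (apm y x₀) ∈ ball (0 : ℂ × ℂ) (s / 2) := fun y hy =>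
    hball (by linarith)
  refine ⟨χ, υ, s, δ / 2, fun y => χ.q (apm y x₀), ⟨hadm, half_pos hδ, ?_, ?_⟩⟩
  · intro y hy
    have h1 := (hcl y (mem_closedBall.mp hy)).1
    exact (ContinuousAt.comp (f := fun y : MN N => apm y x₀) (χ.q_an _ h1).continuousAt
      (apm_cont x₀).continuousAt).continuousWithinAt
  · intro x hxX hd
    obtain ⟨h1, h2, h3⟩ := hcl (pr x) hd
    rw [apm_pr] at h1 h2
    have hcne : (inner ℂ x x₀ : ℂ) / ((‖x‖ ^ 2 : ℝ) : ℂ) ≠ 0 := fun h => h2 (by rw [h, zero_smul])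
    have hxU' : x ∈ χ.U := by
      have := χ.smul_U _ h1 _ (inv_ne_zero hcne)
      rwa [smul_smul, inv_mul_cancel₀ hcne, one_smul] at this
    have hq : χ.q x = χ.q (apm (pr x) x₀) := by
      rw [apm_pr]
      exact (χ.q_smul x hxU' _ hcne).symm
    exact ⟨hxU', hq, by rw [hq]; exact ball_subset_closedBall h3⟩

theorem LocData.That_eq (hX : IsCone X) (hch : Charts X) (hu : TorusMap X Λ u) (hΛ : Lat Λ) (Ω : Form X M 1) {χ : Chart X}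
    {υ : ℂ × ℂ → ℂ} {s δ : ℝ} {y₀ : MN N} {Q : MN N → ℂ × ℂ} (h : LocData Λ u χ υ s y₀ δ Q) {x : EN N} (hx : x ∈ X)
    (hxy : dist (pr x) y₀ ≤ δ) : That X Λ u Ω (pr x) = TF χ υ Ω (χ.q x) := by
  obtain ⟨hxU, -, hq⟩ := h.mem x hx hxy
  obtain ⟨-, c, hc, hxc⟩ := χ.surj x hx hxU
  have hp : χ.q x ∈ ball (0 : ℂ × ℂ) s := by
    rw [mem_closedBall_zero_iff] at hq
    rw [mem_ball_zero_iff]
    linarith [h.adm.pos]
  have h1 : TfAt Λ u Ω (χ.σ (χ.q x)) (TF χ υ Ω (χ.q x)) := (TfAt_chart hX hu hΛ Ω h.adm hp _).mpr rfl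
  have h2 := TfAt.smul hX hu h1 hc
  rw [← hxc] at h2
  exact Pool.Agent.H62.EF.That_eq hX hch hu hΛ hx h2

private theorem aCoef_an_aux (Ω : Form X M 1) (χ : Chart X) {p : ℂ × ℂ} (hp : p ∈ ball (0 : ℂ × ℂ) 2) : AnalyticAt ℂ (aCoef Ω χ) p := by
  refine Ω.analytic χ.σ p (χ.σ_an p hp) ?_
  filter_upwards [isOpen_ball.mem_nhds hp] with y hy using (χ.σ_mem y hy).1

private theorem grd_ne {υ : ℂ × ℂ → ℂ} {p : ℂ × ℂ} (h : fderiv ℂ υ p ≠ 0) : grd υ p ≠ 0 := by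
  intro h0
  apply h
  have h1 : fderiv ℂ υ p (0, 1) = 0 := by
    have := congrArg Prod.fst h0
    simpa [grd] using this
  have h2 : fderiv ℂ υ p (1, 0) = 0 := by
    have := congrArg Prod.snd h0
    simpa [grd] using this
  refine ContinuousLinearMap.ext fun e => ?_
  have h3 : e = e.1 • ((1 : ℂ), (0 : ℂ)) + e.2 • ((0 : ℂ), (1 : ℂ)) := by
    ext <;> simp
  rw [h3, map_add, map_smul, map_smul, h1, h2]
  simp

private theorem mem_two {χ : Chart X} {υ : ℂ × ℂ → ℂ} {s : ℝ} (h : Adm Λ u χ υ s) {p : ℂ × ℂ}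
    (hp : p ∈ ball (0 : ℂ × ℂ) s) : p ∈ ball (0 : ℂ × ℂ) 2 :=
  ball_subset_ball h.lt.le hp

private theorem den_pos (hX : IsCone X) {χ : Chart X} {υ : ℂ × ℂ → ℂ} {s : ℝ} (h : Adm Λ u χ υ s) {p : ℂ × ℂ}
    (hp : p ∈ ball (0 : ℂ × ℂ) s) : 0 < wd (χ.σ p) (fderiv ℂ χ.σ p (grd υ p)) :=
  chart_imm hX χ (mem_two h hp) (grd_ne (h.ne p hp))

theorem TF_cont (hX : IsCone X) (Ω : Form X M 1) {χ : Chart X} {υ : ℂ × ℂ → ℂ} {s : ℝ} (h : Adm Λ u χ υ s) :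
    ContinuousOn (TF χ υ Ω) (ball 0 s) := by
  intro p hp
  have hp2 := mem_two h hp
  refine ContinuousAt.continuousWithinAt ?_
  have c1 : ContinuousAt (aCoef Ω χ) p := (aCoef_an_aux Ω χ hp2).continuousAt
  have c2 : ContinuousAt χ.σ p := (χ.σ_an p hp2).continuousAt
  have c3 : ContinuousAt (fderiv ℂ χ.σ) p := (χ.σ_an p hp2).fderiv.continuousAt
  have c4 : ContinuousAt (fderiv ℂ υ) p := (h.an p hp).fderiv.continuousAt
  have c5 : ContinuousAt (grd υ) p := by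
    refine ContinuousAt.prodMk ?_ ?_
    · exact (c4.clm_apply continuousAt_const).neg
    · exact c4.clm_apply continuousAt_const
  have c6 : ContinuousAt (fun p => fderiv ℂ χ.σ p (grd υ p)) p := c3.clm_apply c5
  have c7 : ContinuousAt (fun p => wd (χ.σ p) (fderiv ℂ χ.σ p (grd υ p))) p := by
    unfold wd
    refine Real.continuous_sqrt.continuousAt.comp ?_
    exact ((c2.norm.pow 2).mul (c6.norm.pow 2)).sub ((ContinuousAt.inner (𝕜 := ℂ) c2 c6).norm.pow 2)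
  have c8 := den_pos hX h hp
  unfold TF
  exact (c1.norm.mul (c2.norm.pow _)).div (c7.pow M) (pow_ne_zero _ c8.ne')

theorem TF_eq_zero (hX : IsCone X) (Ω : Form X M 1) {χ : Chart X} {υ : ℂ × ℂ → ℂ} {s : ℝ} (h : Adm Λ u χ υ s) {p : ℂ × ℂ}
    (hp : p ∈ ball (0 : ℂ × ℂ) s) : TF χ υ Ω p = 0 ↔ aCoef Ω χ p = 0 := by
  have h1 : χ.σ p ≠ 0 := fun h0 => hX.zero_notMem (h0 ▸ (χ.σ_mem p (mem_two h hp)).1)
  have h2 : ‖χ.σ p‖ ≠ 0 := norm_ne_zero_iff.mpr h1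
  have h3 := den_pos hX h hp
  unfold TF
  rw [div_eq_zero_iff, mul_eq_zero, norm_eq_zero]
  constructor
  · rintro ((h4 | h4) | h4)
    · exact h4
    · exact absurd h4 (pow_ne_zero _ h2)
    · exact absurd h4 (pow_ne_zero _ h3.ne')
  · exact fun h4 => Or.inl (Or.inl h4)

theorem aCoef_an (Ω : Form X M 1) (χ : Chart X) {p : ℂ × ℂ} (hp : p ∈ ball (0 : ℂ × ℂ) 2) : AnalyticAt ℂ (aCoef Ω χ) p := by
  exact aCoef_an_aux Ω χ hp

end Pool.Agent.H62.EF
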