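import Pool.Agent.H62.EF.PrA

/-!
# EF TorA: the map to the torus is uniformly continuous

`Lat.const`: a continuous function on a preconnected set with values in the discrete group `Λ` is constant (near every point it is
constant because two different elements of `Λ` have distance at least `δ`; `IsPreconnected.constant_of_mapsTo` or a direct argument).
`Lat.mem_of_close`: if `a` has distance `< ε` to `Λ` for every `ε > 0` then `a ∈ Λ` (two such elements for `ε < δ / 2` agree).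
`TorusMap.unif`: otherwise there are `x n, y n ∈ X` with `dist (pr (x n)) (pr (y n)) → 0` and `‖u (x n) - u (y n) - l‖ ≥ ε` for all `l ∈ Λ`.
Multiply `x n` by a constant: `‖x n‖ = 1` (`u` changes by an element of `Λ`); along an ultrafilter `x n → x`, `‖x‖ = 1`, `x ∈ X`
(`IsCone.closed`); `pr (y n) → pr x`, so `y' n = nm x (y n) → x` (`nm_close`), `y' n ∈ X`, `u (y' n) - u (y n) ∈ Λ`.  With the local lift `v`
at `x`: `u (x n) - v (x n) ∈ Λ`, `u (y' n) - v (y' n) ∈ Λ` and `v (x n) - v (y' n) → 0`.  Contradiction.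
-/

set_option autoImplicit false

open Topology Filter Metric

namespace Pool.Agent.H62.EF

open Pool.Agent.H36.BP (EN fs wd)
open Pool.Agent.H14.PP (IsCone)

variable {N : ℕ} {X : Set (EN N)} {Λ : AddSubgroup ℂ} {u : EN N → ℂ}

theorem Lat.const (hΛ : Lat Λ) {U : Set ℂ} (hU : IsPreconnected U) {E : ℂ → ℂ} (hE : ContinuousOn E U) (h : ∀ z ∈ U, E z ∈ Λ) :
    ∀ z ∈ U, ∀ w ∈ U, E z = E w := by
  obtain ⟨δ, hδ, hd⟩ := hΛ.discrete
  have hdisc : DiscreteTopology (Λ : Set ℂ) := by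
    refine DiscreteTopology.of_forall_le_dist hδ ?_
    intro a b hab
    by_contra hlt
    push Not at hlt
    apply hab
    have h1 : ‖(a : ℂ) - b‖ < δ := by rw [← dist_eq_norm]; exact hlt
    have h2 := hd _ (Λ.sub_mem a.2 b.2) h1
    exact Subtype.ext (sub_eq_zero.1 h2)
  intro z hz w hw
  exact hU.constant_of_mapsTo (T := (Λ : Set ℂ)) ⟨hdisc⟩ hE (fun x hx => h x hx) hz hw

theorem Lat.mem_of_close (hΛ : Lat Λ) {a : ℂ} (h : ∀ ε : ℝ, 0 < ε → ∃ l ∈ Λ, ‖a - l‖ < ε) : a ∈ Λ := by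
  obtain ⟨δ, hδ, hd⟩ := hΛ.discrete
  obtain ⟨l₀, hl₀, h0⟩ := h (δ / 2) (by positivity)
  have key : a = l₀ := by
    by_contra hne
    have hpos : 0 < ‖a - l₀‖ := norm_pos_iff.2 (sub_ne_zero.2 hne)
    obtain ⟨l, hl, h1⟩ := h (min ‖a - l₀‖ (δ / 2)) (lt_min hpos (by positivity))
    have h2 : ‖l - l₀‖ < δ := by
      have h3 : l - l₀ = (a - l₀) - (a - l) := by ring
      rw [h3]
      have h4 := norm_sub_le (a - l₀) (a - l)
      have h5 := lt_of_lt_of_le h1 (min_le_right _ _)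
      linarith
    have h6 : l = l₀ := sub_eq_zero.1 (hd _ (Λ.sub_mem hl hl₀) h2)
    subst h6
    exact absurd (lt_of_lt_of_le h1 (min_le_left _ _)) (lt_irrefl _)
  rw [key]
  exact hl₀

theorem TorusMap.unif (hX : IsCone X) (hu : TorusMap X Λ u) {ε : ℝ} (hε : 0 < ε) :
    ∃ δ : ℝ, 0 < δ ∧ ∀ x ∈ X, ∀ y ∈ X, dist (pr x) (pr y) < δ → ∃ l ∈ Λ, ‖u x - u y - l‖ < ε := by
  by_contra hcon
  push Not at hcon
  have hcon' : ∀ n : ℕ, ∃ x ∈ X, ∃ y ∈ X, dist (pr x) (pr y) < 1 / ((n : ℝ) + 1) ∧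
      ∀ l ∈ Λ, ε ≤ ‖u x - u y - l‖ := fun n => hcon _ (by positivity)
  choose x hx y hy hxy hno using hcon'
  have hx0 : ∀ n, x n ≠ 0 := fun n h0 => hX.zero_notMem (h0 ▸ hx n)
  have hy0 : ∀ n, y n ≠ 0 := fun n h0 => hX.zero_notMem (h0 ▸ hy n)
  have hc0 : ∀ n, (((‖x n‖)⁻¹ : ℝ) : ℂ) ≠ 0 := fun n => by
    exact_mod_cast inv_ne_zero (norm_ne_zero_iff.2 (hx0 n))
  set x' : ℕ → EN N := fun n => (((‖x n‖)⁻¹ : ℝ) : ℂ) • x n with hx'
  have hx'X : ∀ n, x' n ∈ X := fun n => hX.smul_mem _ (hx n) _ (hc0 n)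
  have hx'1 : ∀ n, ‖x' n‖ = 1 := fun n => by
    simp only [hx']
    rw [norm_smul, Complex.norm_real, Real.norm_eq_abs, abs_of_nonneg (inv_nonneg.2 (norm_nonneg _))]
    exact inv_mul_cancel₀ (norm_ne_zero_iff.2 (hx0 n))
  have hKc : IsCompact (insert 0 X ∩ sphere (0 : EN N) 1) :=
    (isCompact_sphere (0 : EN N) 1).inter_left hX.closed
  obtain ⟨a, ha, φ, hφ, hlim⟩ := hKc.tendsto_subseq (x := x')
    (fun n => ⟨Set.mem_insert_of_mem _ (hx'X n), by simpa using hx'1 n⟩)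
  have ha1 : ‖a‖ = 1 := by simpa using ha.2
  have ha0 : a ≠ 0 := fun h0 => by simp [h0] at ha1
  have haX : a ∈ X := by
    rcases ha.1 with h0 | h0
    · exact absurd h0 ha0
    · exact h0
  obtain ⟨v, hv, hvu⟩ := hu.loc a haX
  have hvc : ∀ᶠ z in 𝓝 a, ‖v z - v a‖ < ε / 2 := by
    have := Metric.tendsto_nhds.1 hv.continuousAt (ε / 2) (by positivity)
    simpa [dist_eq_norm] using this
  obtain ⟨r, hr, hball⟩ := Metric.eventually_nhds_iff.1 (hvu.and hvc)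
  obtain ⟨δ, hδ, hnm⟩ := nm_close ha0 hr
  have e1 : ∀ᶠ n in atTop, dist (x' (φ n)) a < r := Metric.tendsto_nhds.1 hlim r hr
  have hpr : Tendsto (fun n => pr (x' (φ n))) atTop (𝓝 (pr a)) :=
    (continuousAt_pr ha0).tendsto.comp hlim
  have e2 : ∀ᶠ n in atTop, dist (pr (x' (φ n))) (pr a) < δ / 2 :=
    Metric.tendsto_nhds.1 hpr (δ / 2) (by positivity)
  have hz : Tendsto (fun n : ℕ => 1 / ((φ n : ℝ) + 1)) atTop (𝓝 0) :=
    (tendsto_one_div_add_atTop_nhds_zero_nat (𝕜 := ℝ)).comp hφ.tendsto_atTop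
  have e3 : ∀ᶠ n in atTop, 1 / ((φ n : ℝ) + 1) < δ / 2 := hz.eventually_lt_const (by positivity)
  obtain ⟨n, h1, h2, h3⟩ := (e1.and (e2.and e3)).exists
  have h4 : dist (pr (y (φ n))) (pr a) < δ := by
    have h5 := dist_triangle (pr (y (φ n))) (pr (x (φ n))) (pr a)
    have h6 := hxy (φ n)
    rw [dist_comm] at h6
    have h7 : pr (x' (φ n)) = pr (x (φ n)) := pr_smul _ (hc0 _)
    rw [h7] at h2
    linarith
  obtain ⟨h8, h9⟩ := hnm _ (hy0 (φ n)) h4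
  have hc : (((‖a‖ ^ 2 : ℝ) : ℂ) / inner ℂ a (y (φ n))) ≠ 0 := by
    refine div_ne_zero ?_ h8
    rw [ha1]
    norm_num
  have hyX : nm a (y (φ n)) ∈ X := hX.smul_mem _ (hy _) _ hc
  have hyd : dist (nm a (y (φ n))) a < r := by rw [dist_eq_norm]; exact h9
  obtain ⟨b1, b2⟩ := hball h1
  obtain ⟨b3, b4⟩ := hball hyd
  have m1 := b1 (hx'X _)
  have m2 := b3 hyX
  have m3 : u (x' (φ n)) - u (x (φ n)) ∈ Λ := hu.smul _ (hx _) _ (hc0 _)
  have m4 : u (nm a (y (φ n))) - u (y (φ n)) ∈ Λ := hu.smul _ (hy _) _ hc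
  have hl : -(u (x' (φ n)) - u (x (φ n))) + (u (x' (φ n)) - v (x' (φ n))) -
      (u (nm a (y (φ n))) - v (nm a (y (φ n)))) + (u (nm a (y (φ n))) - u (y (φ n))) ∈ Λ :=
    Λ.add_mem (Λ.sub_mem (Λ.add_mem (Λ.neg_mem m3) m1) m2) m4
  have h10 := hno (φ n) _ hl
  have h11 : u (x (φ n)) - u (y (φ n)) - (-(u (x' (φ n)) - u (x (φ n))) + (u (x' (φ n)) - v (x' (φ n))) -
      (u (nm a (y (φ n))) - v (nm a (y (φ n)))) + (u (nm a (y (φ n))) - u (y (φ n)))) =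
      (v (x' (φ n)) - v a) - (v (nm a (y (φ n))) - v a) := by ring
  rw [h11] at h10
  have h12 := norm_sub_le (v (x' (φ n)) - v a) (v (nm a (y (φ n))) - v a)
  linarith

end Pool.Agent.H62.EF
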