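import Pool.Agent.H62.EF.LimL
import Pool.Agent.H62.EF.TorA

/-!
# EF SecL: the family of the sections

* `sec_trans`: clear.
* `sec_lip`: `pr_lipschitz` with `U = univ`.
* `sec_uniq`: near `z₀` all minors `F_i G_j - F_j G_i` vanish (`pr_eq_iff`), they are entire, so they vanish everywhere; `F z ≠ 0`, `G z ≠ 0`, so
  `F z` and `G z` are proportional and `pr (F z) = pr (G z)`.
* `sec_lim`: `limit_curves` with `ρ n = n` (or any sequence which tends to infinity) gives `G` with `G z ∈ X` and `pr (F n z) → pr (G z)`.  `u (F n z) - z ∈ Λ`; by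
  `TorusMap.unif` `u (G z) - z` has distance `< ε` to `Λ` for every `ε > 0`, so it is in `Λ` (`Lat.mem_of_close`).
* `isCompact_KK`: `KK` is a subset of the compact set `pr '' X`, so it is enough that it is closed (or use ultrafilters: `isCompact_iff_ultrafilter_le_nhds`; or
  sequences `IsSeqCompact`).  Let `y n = pr (F n (z n)) → y`.  Take `l n ∈ Λ` with `‖z n - l n‖ ≤ R`, `F' n z = F n (z + l n)` (`sec_trans`), `w n = z n - l n`;
  `y n = pr (F' n (w n))`.  Along an ultrafilter on `ℕ` (`hyperfilter ℕ`) `w n → w`, `pr (F' n z) → pr (G z)` for all `z` with `G ∈ Sec`, and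
  `dist (pr (F' n (w n))) (pr (F' n w)) ≤ 2 L ‖w n - w‖ → 0`, so `y = pr (G w)`.
* `KK_du`: `F z ∈ X` and `DU (F z) (F' z) 1` (`γ w = F (z + w)`, `D w = z + w`).
-/

set_option autoImplicit false

open Topology Filter Metric

namespace Pool.Agent.H62.EF

open Pool.Agent.H36.BP (EN fs wd)
open Pool.Agent.H14.PP (IsCone)

variable {N : ℕ} {X : Set (EN N)} {Λ : AddSubgroup ℂ} {u : EN N → ℂ}

theorem sec_trans {F : ℂ → EN N} (hF : F ∈ Sec X Λ u) {l : ℂ} (hl : l ∈ Λ) : (fun z => F (z + l)) ∈ Sec X Λ u := by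
  obtain ⟨h1, h2, h3⟩ := hF
  refine ⟨?_, fun z => h2 _, fun z => ?_⟩
  · exact h1.comp ((differentiable_id).add_const l)
  · have h4 : u (F (z + l)) - z = (u (F (z + l)) - (z + l)) + l := by ring
    show u (F (z + l)) - z ∈ Λ
    rw [h4]
    exact Λ.add_mem (h3 _) hl

theorem sec_lip (hX : IsCone X) {L : ℝ} (hL : ∀ F ∈ Sec X Λ u, ∀ z, fs (F z) (deriv F z) ≤ L) {F : ℂ → EN N} (hF : F ∈ Sec X Λ u)
    (z w : ℂ) : dist (pr (F z)) (pr (F w)) ≤ 2 * L * ‖z - w‖ := by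
  have h0 : ∀ z ∈ (Set.univ : Set ℂ), F z ≠ 0 := fun z _ h => hX.zero_notMem (h ▸ hF.2.1 z)
  exact pr_lipschitz isOpen_univ convex_univ hF.1.differentiableOn h0 (fun z _ => hL F hF z) z trivial w trivial

theorem sec_uniq (hX : IsCone X) {F G : ℂ → EN N} (hF : F ∈ Sec X Λ u) (hG : G ∈ Sec X Λ u) {z₀ : ℂ}
    (h : ∀ᶠ z in 𝓝 z₀, pr (F z) = pr (G z)) (z : ℂ) : pr (F z) = pr (G z) := by
  have hF0 : ∀ z, F z ≠ 0 := fun z h' => hX.zero_notMem (h' ▸ hF.2.1 z)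
  have hG0 : ∀ z, G z ≠ 0 := fun z h' => hX.zero_notMem (h' ▸ hG.2.1 z)
  have hcoord : ∀ (H : ℂ → EN N), Differentiable ℂ H → ∀ i, Differentiable ℂ (fun z => H z i) := by
    intro H hH i
    have := (EuclideanSpace.proj (𝕜 := ℂ) i).differentiable.comp hH
    exact this
  have hmin : ∀ i j, ∀ z, F z i * G z j - F z j * G z i = 0 := by
    intro i j
    have hd : Differentiable ℂ (fun z => F z i * G z j - F z j * G z i) :=
      ((hcoord F hF.1 i).mul (hcoord G hG.1 j)).sub ((hcoord F hF.1 j).mul (hcoord G hG.1 i))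
    have ha : AnalyticOnNhd ℂ (fun z => F z i * G z j - F z j * G z i) Set.univ :=
      fun z _ => hd.analyticAt z
    have he : (fun z => F z i * G z j - F z j * G z i) =ᶠ[𝓝 z₀] 0 := by
      filter_upwards [h] with z hz
      obtain ⟨c, _, hc⟩ := (pr_eq_iff (hF0 z) (hG0 z)).1 hz
      have h1 : ∀ k, F z k = c * G z k := by
        intro k
        rw [hc]
        simp
      simp only [Pi.zero_apply]
      rw [h1 i, h1 j]
      ring
    intro z'
    have := ha.eqOn_zero_of_preconnected_of_eventuallyEq_zero isPreconnected_univ (Set.mem_univ z₀) he (Set.mem_univ z')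
    exact this
  obtain ⟨j, hj⟩ : ∃ j, G z j ≠ 0 := by
    by_contra hcon
    push Not at hcon
    apply hG0 z
    ext k
    simpa using hcon k
  have hFc : F z = (F z j / G z j) • G z := by
    ext k
    have h1 := hmin k j z
    simp only [PiLp.smul_apply, smul_eq_mul]
    field_simp
    linear_combination h1
  have hne : F z j / G z j ≠ 0 := by
    intro h'
    rw [h', zero_smul] at hFc
    exact hF0 z hFc
  exact (pr_eq_iff (hF0 z) (hG0 z)).2 ⟨_, hne, hFc⟩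

theorem sec_lim (hX : IsCone X) (hu : TorusMap X Λ u) (hΛ : Lat Λ) {L : ℝ} (hL0 : 0 < L)
    (hL : ∀ F ∈ Sec X Λ u, ∀ z, fs (F z) (deriv F z) ≤ L) (𝒰 : Ultrafilter ℕ) (h𝒰 : (𝒰 : Filter ℕ) ≤ atTop) (F : ℕ → ℂ → EN N)
    (hF : ∀ᶠ n in (𝒰 : Filter ℕ), F n ∈ Sec X Λ u) :
    ∃ G ∈ Sec X Λ u, ∀ z, Tendsto (fun n => pr (F n z)) 𝒰 (𝓝 (pr (G z))) := by
  have hρ : Tendsto (fun n : ℕ => (n : ℝ)) 𝒰 atTop := tendsto_natCast_atTop_atTop.mono_left h𝒰
  obtain ⟨G, hG1, hG2, hG3, _, _⟩ := limit_curves hX hL0 𝒰 F (fun n => (n : ℝ)) hρ (by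
    filter_upwards [hF] with n hn
    exact ⟨hn.1.differentiableOn, fun z _ => ⟨hn.2.1 z, hL _ hn z⟩⟩)
  refine ⟨G, ⟨hG1, hG2, fun z => ?_⟩, hG3⟩
  apply Lat.mem_of_close hΛ
  intro ε hε
  obtain ⟨δ, hδ, hδ2⟩ := TorusMap.unif hX hu hε
  have h1 : ∀ᶠ n in (𝒰 : Filter ℕ), dist (pr (F n z)) (pr (G z)) < δ := by
    have := Metric.tendsto_nhds.1 (hG3 z) δ hδ
    exact this
  obtain ⟨n, hn1, hn2⟩ := (h1.and hF).exists
  obtain ⟨l, hl, hl2⟩ := hδ2 (F n z) (hn2.2.1 z) (G z) (hG2 z) hn1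
  refine ⟨(u (F n z) - z) - l, Λ.sub_mem (hn2.2.2 z) hl, ?_⟩
  have h2 : u (G z) - z - ((u (F n z) - z) - l) = -(u (F n z) - u (G z) - l) := by ring
  rw [h2, norm_neg]
  exact hl2

/-- the points of the projective space on the sections -/
def KK (X : Set (EN N)) (Λ : AddSubgroup ℂ) (u : EN N → ℂ) : Set (MN N) := {y | ∃ F ∈ Sec X Λ u, ∃ z, y = pr (F z)}

theorem isCompact_KK (hX : IsCone X) (hu : TorusMap X Λ u) (hΛ : Lat Λ) {L : ℝ} (hL0 : 0 < L)
    (hL : ∀ F ∈ Sec X Λ u, ∀ z, fs (F z) (deriv F z) ≤ L) : IsCompact (KK X Λ u) := by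
  have hsub : KK X Λ u ⊆ pr '' X := by
    rintro y ⟨F, hF, z, rfl⟩
    exact ⟨F z, hF.2.1 z, rfl⟩
  refine (isCompact_pr hX).of_isClosed_subset ?_ hsub
  apply isClosed_of_closure_subset
  intro y hy
  obtain ⟨ys, hys, hlim⟩ := mem_closure_iff_seq_limit.1 hy
  choose F hF z hz using hys
  obtain ⟨R, _, hR⟩ := hΛ.cocompact
  choose l hl hlR using fun n => hR (z n)
  set F' : ℕ → ℂ → EN N := fun n w => F n (w + l n) with hF'
  set w : ℕ → ℂ := fun n => z n - l n with hw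
  have hF'S : ∀ n, F' n ∈ Sec X Λ u := fun n => sec_trans (hF n) (hl n)
  set 𝒰 : Ultrafilter ℕ := hyperfilter ℕ with h𝒰
  have h𝒰t : (𝒰 : Filter ℕ) ≤ atTop := Nat.hyperfilter_le_atTop
  have hwm : ∀ n, w n ∈ closedBall (0 : ℂ) R := by
    intro n
    rw [mem_closedBall_zero_iff]
    exact hlR n
  obtain ⟨w₀, _, hw₀⟩ := (isCompact_closedBall (0 : ℂ) R).ultrafilter_le_nhds (𝒰.map w) (by
    rw [Filter.le_principal_iff, Ultrafilter.coe_map, Filter.mem_map]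
    exact Filter.univ_mem' hwm)
  have hwt : Tendsto w 𝒰 (𝓝 w₀) := hw₀
  obtain ⟨G, hG, hGt⟩ := sec_lim hX hu hΛ hL0 hL 𝒰 h𝒰t F' (Filter.Eventually.of_forall hF'S)
  have h1 : Tendsto ys 𝒰 (𝓝 y) := hlim.mono_left h𝒰t
  have h2 : Tendsto ys 𝒰 (𝓝 (pr (G w₀))) := by
    rw [tendsto_iff_dist_tendsto_zero]
    have hb : ∀ n, dist (ys n) (pr (G w₀)) ≤ 2 * L * ‖w n - w₀‖ + dist (pr (F' n w₀)) (pr (G w₀)) := by
      intro n
      have h3 : ys n = pr (F' n (w n)) := by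
        rw [hz n]
        simp only [hF', hw, sub_add_cancel]
      rw [h3]
      exact (dist_triangle _ (pr (F' n w₀)) _).trans
        (add_le_add (sec_lip hX hL (hF'S n) (w n) w₀) le_rfl)
    have hlim2 : Tendsto (fun n => 2 * L * ‖w n - w₀‖ + dist (pr (F' n w₀)) (pr (G w₀))) 𝒰 (𝓝 0) := by
      have ha : Tendsto (fun n => ‖w n - w₀‖) 𝒰 (𝓝 0) := by
        have := tendsto_iff_norm_sub_tendsto_zero.1 hwt
        exact this
      have hb' : Tendsto (fun n => dist (pr (F' n w₀)) (pr (G w₀))) 𝒰 (𝓝 0) :=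
        tendsto_iff_dist_tendsto_zero.1 (hGt w₀)
      have := (ha.const_mul (2 * L)).add hb'
      simpa using this
    exact squeeze_zero (fun n => dist_nonneg) hb hlim2
  have h3 : y = pr (G w₀) := tendsto_nhds_unique h1 h2
  exact ⟨G, hG, w₀, h3⟩

end Pool.Agent.H62.EF
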