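import Pool.Agent.H62.EF.IsoA
import Pool.Agent.H62.EF.Loc
import Pool.Agent.H62.EF.SecL

/-!
# EF Iso: sections in the curve `q = 0` are isolated

`LocData` at `F 0` (`exists_loc`, `x₀ = F 0`, `w = F' 0`): `χ, υ, s, δ, Q`.  `π z = χ.q (F z)` is analytic near `0`, `F z = a • χ.σ (π z)` near `0`, `υ (π z) - z ∈ Λ`, so
`υ (π z) - z` is constant near `0` and `dυ (π' 0) = 1`, `π' 0 ≠ 0`.  `g = q ∘ χ.σ` is analytic at `π 0`; it vanishes at `π z` for `z` near `0` (`hhom`), and it does not vanish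
identically near `π 0`: otherwise `q y = 0` for all `y ∈ X` near `F 0` (`y = a • χ.σ (χ.q y)`, `χ.q y → π 0` for `y → F 0`, `hhom`), against `hthin`.
`exists_isolated` (with small `ε`) gives `z₁` (so small that `F z₁` is in the domain of the local data, `dist (pr (F z₁)) (pr (F 0)) ≤ δ / 2`, and all the above
holds near `z₁`).  Let `δΛ` be as in `Lat.discrete` and `ε'` so small that for `‖z - z₁‖ < ε'` everything above holds and `2 ε' < δΛ`.  It gives `δ'`.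
For `z` near `z₁` and `x ∈ X` with `dist (pr x) (pr (F z))` small: `χ.q x = Q (pr x)` is near `Q (pr (F z₁)) = π z₁`, within `δ'` (`Q` is continuous).  If
`q x = 0` then `q (χ.σ (χ.q x)) = 0` (`hhom`), so `χ.q x = π z'` with `‖z' - z₁‖ < ε'`.  So `x` is a multiple of `χ.σ (π z')`, hence of `F z'`, `u x - z' ∈ Λ`;
and `u x - z ∈ Λ`, so `z' - z ∈ Λ`, `‖z' - z‖ < 2 ε'`, so `z' = z` and `pr x = pr (F z)`.
-/

set_option autoImplicit false

open Topology Filter Metric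

namespace Pool.Agent.H62.EF

open Pool.Agent.H36.BP (EN fs wd)
open Pool.Agent.H14.PP (IsCone Chart Form Tan aCoef)

variable {N : ℕ} {X : Set (EN N)} {Λ : AddSubgroup ℂ} {u : EN N → ℂ}

theorem isolated (hX : IsCone X) (hch : Charts X) (hu : TorusMap X Λ u) (hΛ : Lat Λ) {q : EN N → ℂ} {d : ℕ}
    (han : ∀ x, AnalyticAt ℂ q x) (hhom : ∀ (c : ℂ) (x : EN N), q (c • x) = c ^ d * q x)
    (hthin : ∀ x ∈ X, ¬ ∀ᶠ y in 𝓝 x, y ∈ X → q y = 0) {F : ℂ → EN N} (hF : F ∈ Sec X Λ u) (hq : ∀ z, q (F z) = 0) :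
    ∃ (z₀ : ℂ) (r ε : ℝ), 0 < r ∧ 0 < ε ∧ ∀ z ∈ ball z₀ r, ∀ x ∈ X, q x = 0 → u x - z ∈ Λ →
      dist (pr x) (pr (F z)) < ε → pr x = pr (F z) := by
  have hdu := DU.of_sec hF 0
  obtain ⟨hFd, hFX, hFu⟩ := hF
  obtain ⟨χ, υ, s, δ, Q, hloc⟩ := exists_loc hX hch hu hΛ (hFX 0) hdu
  have hadm := hloc.adm
  have hs := hadm.pos
  have hs2 := hadm.lt
  have hδ := hloc.pos
  obtain ⟨δΛ, hδΛ, hdisc⟩ := hΛ.discrete
  have hF0 : ∀ z, F z ≠ 0 := fun z h0 => hX.zero_notMem (h0 ▸ hFX z)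
  have hprc : ∀ z, ContinuousAt (fun z => pr (F z)) z := fun z =>
    (continuousAt_pr (hF0 z)).comp (f := F) hFd.continuous.continuousAt
  obtain ⟨ρ, hρ, hρb⟩ := Metric.continuousAt_iff.1 (hprc 0) (δ / 2) (by positivity)
  have hb2 : ∀ p ∈ ball (0 : ℂ × ℂ) s, p ∈ ball (0 : ℂ × ℂ) 2 := fun p hp => ball_subset_ball hs2.le hp
  have hPW : closedBall (0 : ℂ × ℂ) (s / 2) ⊆ ball (0 : ℂ × ℂ) s := closedBall_subset_ball (by linarith)
  have hσX : ∀ p ∈ ball (0 : ℂ × ℂ) 2, χ.σ p ∈ X := fun p hp => (χ.σ_mem p hp).1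
  set P : ℂ → ℂ × ℂ := fun z => χ.q (F z) with hP
  have hFm : ∀ z ∈ ball (0 : ℂ) ρ, F z ∈ χ.U ∧ P z = Q (pr (F z)) ∧ P z ∈ closedBall (0 : ℂ × ℂ) (s / 2) := by
    intro z hz
    refine hloc.mem _ (hFX z) ?_
    have := hρb (mem_ball.1 hz)
    linarith
  have hPan : ∀ z ∈ ball (0 : ℂ) ρ, AnalyticAt ℂ P z := fun z hz =>
    (χ.q_an _ (hFm z hz).1).comp (hFd.analyticAt z)
  have hsurF : ∀ z ∈ ball (0 : ℂ) ρ, ∃ c : ℂ, c ≠ 0 ∧ F z = c • χ.σ (P z) := fun z hz =>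
    (χ.surj _ (hFX z) (hFm z hz).1).2
  have hυP : ∀ z ∈ ball (0 : ℂ) ρ, υ (P z) - z ∈ Λ := by
    intro z hz
    obtain ⟨c, hc, hcF⟩ := hsurF z hz
    have m1 : u (F z) - u (χ.σ (P z)) ∈ Λ := by
      rw [hcF]
      exact hu.smul _ (hσX _ (hb2 _ (hPW (hFm z hz).2.2))) c hc
    have m2 := hadm.lift _ (hPW (hFm z hz).2.2)
    have m3 := hFu z
    have e : υ (P z) - z = -(u (χ.σ (P z)) - υ (P z)) - (u (F z) - u (χ.σ (P z))) + (u (F z) - z) := by ring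
    rw [e]
    exact Λ.add_mem (Λ.sub_mem (Λ.neg_mem m2) m1) m3
  have h0B : (0 : ℂ) ∈ ball (0 : ℂ) ρ := mem_ball_self hρ
  have hcont : ContinuousOn (fun z => υ (P z) - z) (ball (0 : ℂ) ρ) := fun z hz =>
    (((hadm.an _ (hPW (hFm z hz).2.2)).continuousAt.comp (hPan z hz).continuousAt).sub
      continuousAt_id).continuousWithinAt
  have hconst := hΛ.const (convex_ball (0 : ℂ) ρ).isPreconnected hcont hυP
  have hP' : deriv P 0 ≠ 0 := by
    intro h0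
    have h1 : HasDerivAt (fun w => υ (P w)) (fderiv ℂ υ (P 0) (deriv P 0)) 0 :=
      (hadm.an _ (hPW (hFm 0 h0B).2.2)).differentiableAt.hasFDerivAt.comp_hasDerivAt 0
        (hPan 0 h0B).differentiableAt.hasDerivAt
    have h2 : HasDerivAt (fun w => υ (P w)) 1 0 := by
      have h3 : HasDerivAt (fun w : ℂ => w + (υ (P 0) - 0)) 1 0 := (hasDerivAt_id (0 : ℂ)).add_const _
      refine h3.congr_of_eventuallyEq ?_
      filter_upwards [isOpen_ball.mem_nhds h0B] with w hw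
      have := hconst w hw 0 h0B
      rw [← this]
      ring
    rw [h0, map_zero] at h1
    exact zero_ne_one (h1.unique h2)
  have hG : AnalyticAt ℂ (fun p => q (χ.σ p)) (P 0) :=
    (han _).comp (χ.σ_an _ (hb2 _ (hPW (hFm 0 h0B).2.2)))
  have hq0 : ∀ x ∈ X, x ∈ χ.U → (q x = 0 ↔ q (χ.σ (χ.q x)) = 0) := by
    intro x hx hxU
    obtain ⟨-, c, hc, hcx⟩ := χ.surj x hx hxU
    have h1 : q x = c ^ d * q (χ.σ (χ.q x)) := by
      conv_lhs => rw [hcx]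
      exact hhom _ _
    rw [h1, mul_eq_zero]
    constructor
    · rintro (h2 | h2)
      · exact absurd h2 (pow_ne_zero d hc)
      · exact h2
    · exact fun h2 => Or.inr h2
  have hG0 : ¬ ∀ᶠ p in 𝓝 (P 0), q (χ.σ p) = 0 := by
    intro hev
    apply hthin (F 0) (hFX 0)
    have h1 : ContinuousAt χ.q (F 0) := (χ.q_an _ (hFm 0 h0B).1).continuousAt
    have h2 := h1.eventually hev
    filter_upwards [h2, χ.isOpen_U.mem_nhds (hFm 0 h0B).1] with y hy hyU hyX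
    exact (hq0 y hyX hyU).2 hy
  obtain ⟨z₁, hz₁, hiso⟩ := exists_isolated (hPan 0 h0B) hP' hG hG0 (ε := ρ / 2) (by positivity)
  obtain ⟨δ', hδ', hδ'z⟩ := hiso (min (ρ / 2) (δΛ / 2)) (lt_min (by positivity) (by positivity))
  have hz₁B : z₁ ∈ ball (0 : ℂ) ρ := by
    rw [mem_ball_zero_iff]
    linarith
  have hy₁ : dist (pr (F z₁)) (pr (F 0)) < δ / 2 := hρb (mem_ball.1 hz₁B)
  obtain ⟨η, hη, hηQ⟩ := Metric.continuousOn_iff.1 hloc.cont (pr (F z₁))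
    (by rw [mem_closedBall]; linarith) δ' hδ'
  obtain ⟨r, hr, hrb⟩ := Metric.continuousAt_iff.1 (hprc z₁) (min (η / 2) (δ / 4)) (lt_min (by positivity) (by positivity))
  refine ⟨z₁, min r (min (ρ / 2) (δΛ / 2)), min (η / 2) (δ / 4), by positivity, by positivity, ?_⟩
  intro z hz x hx hqx hux hxd
  rw [mem_ball] at hz
  have hzr : dist (pr (F z)) (pr (F z₁)) < min (η / 2) (δ / 4) := hrb (lt_of_lt_of_le hz (min_le_left _ _))
  have e1 : dist (pr x) (pr (F z₁)) < η := by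
    have h1 := dist_triangle (pr x) (pr (F z)) (pr (F z₁))
    have h2 := lt_of_lt_of_le hzr (min_le_left _ _)
    have h3 := lt_of_lt_of_le hxd (min_le_left _ _)
    linarith
  have e2 : dist (pr x) (pr (F 0)) ≤ δ := by
    have h1 := dist_triangle (pr x) (pr (F z)) (pr (F z₁))
    have h2 := lt_of_lt_of_le hzr (min_le_right _ _)
    have h3 := lt_of_lt_of_le hxd (min_le_right _ _)
    have h4 := dist_triangle (pr x) (pr (F z₁)) (pr (F 0))
    linarith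
  obtain ⟨hxU, hxQ, hxP⟩ := hloc.mem x hx e2
  have e3 : ‖χ.q x - P z₁‖ < δ' := by
    rw [hxQ, (hFm z₁ hz₁B).2.1, ← dist_eq_norm]
    exact hηQ _ (mem_closedBall.2 e2) e1
  obtain ⟨z', hz'1, hz'2⟩ := hδ'z (χ.q x) e3 ((hq0 x hx hxU).1 hqx)
  have hz'B : z' ∈ ball (0 : ℂ) ρ := by
    rw [mem_ball_zero_iff]
    have h1 : ‖z'‖ ≤ ‖z' - z₁‖ + ‖z₁‖ := by
      have := norm_add_le (z' - z₁) z₁
      rwa [sub_add_cancel] at this
    have h2 := lt_of_lt_of_le hz'1 (min_le_left _ _)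
    linarith
  obtain ⟨-, a, ha, hax⟩ := χ.surj x hx hxU
  obtain ⟨b, hb, hbF⟩ := hsurF z' hz'B
  rw [hz'2] at hax
  have hσ' : χ.σ (P z') ∈ X := hσX _ (hb2 _ (hPW (hFm z' hz'B).2.2))
  have m1 : u x - u (χ.σ (P z')) ∈ Λ := by
    rw [hax]
    exact hu.smul _ hσ' a ha
  have m2 : u (F z') - u (χ.σ (P z')) ∈ Λ := by
    rw [hbF]
    exact hu.smul _ hσ' b hb
  have m3 := hFu z'
  have m4 : z' - z ∈ Λ := by
    have e : z' - z = (u x - z) - (u x - u (χ.σ (P z'))) + (u (F z') - u (χ.σ (P z'))) - (u (F z') - z') := by ring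
    rw [e]
    exact Λ.sub_mem (Λ.add_mem (Λ.sub_mem hux m1) m2) m3
  have hzz : z' = z := by
    refine sub_eq_zero.1 (hdisc _ m4 ?_)
    have h1 := lt_of_lt_of_le hz'1 (min_le_right _ _)
    have h2 : ‖z - z₁‖ < δΛ / 2 := by
      rw [← dist_eq_norm]
      exact lt_of_lt_of_le hz ((min_le_right _ _).trans (min_le_right _ _))
    have h3 : z' - z = (z' - z₁) - (z - z₁) := by ring
    rw [h3]
    have h4 := norm_sub_le (z' - z₁) (z - z₁)
    linarith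
  subst hzz
  rw [hax, hbF, pr_smul _ ha, pr_smul _ hb]

end Pool.Agent.H62.EF
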