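import Pool.Agent.H62.EF.ChRho
import Pool.Agent.H62.EF.MaxI
import Pool.Agent.H62.EF.SecL

/-!
# EF LI: the local inequality

(1) For every `y₀ = pr (F z) ∈ KK` take `LocData` (`exists_loc`, `x₀ = F z`, `w = F' z`, `DU.of_sec`).  `KK` is compact (`isCompact_KK`), so it is covered by
finitely many balls `ball (y i) (δ i / 2)` with `LocData Λ u (χ i) (υ i) (s i) (y i) (δ i) (Q i)`.  Let `δ₀ = min δ i` (if the index set is empty then `Sec` is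
empty and the claim is trivial: any numbers will do).
(2) Let `δΛ` be as in `Lat.discrete`.  Choose `r > 0` with `2 L r ≤ δ₀ / 8` and `r ≤ δΛ / 4`; `r₀ = r / 2`, `r₁ = r`.
(3) Gap: `TorusMap.unif` with `ε = r₀` gives `δ₂ > 0`.  For `F ∈ Sec` and `‖z - z₀‖ = r₀`: `dist (pr (F z)) (pr (F z₀)) ≥ δ₂`, because otherwise there is `l ∈ Λ` with
`‖u (F z) - u (F z₀) - l‖ < r₀`, so `‖z - z₀ - l'‖ < r₀` for some `l' ∈ Λ`; `‖l'‖ < 2 r₀ < δΛ`, so `l' = 0` and `‖z - z₀‖ < r₀`: contradiction.  By `norm_inner_sq`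
`‖⟨F z₀, F z⟩‖ ≤ γ ‖F z₀‖ ‖F z‖` with `γ = √(1 - δ₂² / 2)` if `δ₂² ≤ 2` (decrease `δ₂`), `0 < γ < 1`; the same for multiples of `F z₀`, `F z`.
Let `γ = exp (-κ₂)`, `κ₂ > 0`, `κ = κ₂ / (2 r₀²)`, `η = κ₂ / 8`, `θ = exp (κ r₀²) γ exp (2 η) = exp (-κ₂ / 4) < 1`.
(4) `chart_rho` for the finitely many local data, with this `r` and `η`, gives `ε i`; `ε₀ = min (min ε i) (δ₀ / 4)`.
(5) Let `F, G ∈ Sec`, `dist (pr (F z)) (pr (G z)) ≤ ε₀` on `closedBall z₀ r₁`, `c ∈ ℂ`.  `pr (F z₀) ∈ ball (y i) (δ i / 2)` for some `i`; for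
`z ∈ ball z₀ r`: `dist (pr (F z)) (y i) ≤ δ i / 2 + 2 L r ≤ δ i`, and the same for `G` (`+ δ₀ / 4`).  `chart_rho` gives `h`, `Fh`.  `max_ineq` with `r₀ < r`, `γ`, `κ`, `c`
(`Fh z = a • F z`, `a ≠ 0`): there is `z` with `‖z - z₀‖ = r₀` and
`rho z₀ E z₀ ≤ e^η ‖h z₀‖ ‖Fh z₀‖ E z₀ ≤ e^η exp (κ r₀²) γ ‖h z‖ ‖Fh z‖ E z ≤ e^(2η) exp (κ r₀²) γ rho z E z = θ rho z E z` with
`E z = exp (-κ ‖z - c‖²)`.
-/

set_option autoImplicit false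

open Topology Filter Metric

namespace Pool.Agent.H62.EF

open Pool.Agent.H36.BP (EN fs wd)
open Pool.Agent.H14.PP (IsCone Chart Form Tan aCoef)

variable {N : ℕ} {X : Set (EN N)} {Λ : AddSubgroup ℂ} {u : EN N → ℂ} {M : ℕ}

private theorem LI_fin_min {ι : Type} (t : Finset ι) (δ : ι → ℝ) (h : ∀ i, 0 < δ i) : ∃ d : ℝ, 0 < d ∧ ∀ i ∈ t, d ≤ δ i := by
  classical
  induction t using Finset.induction_on with
  | empty => exact ⟨1, one_pos, fun i hi => absurd hi (Finset.notMem_empty i)⟩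
  | insert a s ha ih =>
    obtain ⟨d, hd, h1⟩ := ih
    refine ⟨min d (δ a), lt_min hd (h a), fun i hi => ?_⟩
    rcases Finset.mem_insert.mp hi with rfl | hi
    · exact min_le_right _ _
    · exact le_trans (min_le_left _ _) (h1 i hi)

private theorem LI_ne_zero (hX : IsCone X) {x : EN N} (hx : x ∈ X) : x ≠ 0 := by
  rintro rfl
  exact hX.zero_notMem hx

/-- the gap: the sections are injective on small discs -/
private theorem LI_gap (hX : IsCone X) (hu : TorusMap X Λ u) {δΛ r₀ : ℝ} (hδΛ : ∀ l ∈ Λ, ‖l‖ < δΛ → l = 0) (hr₀ : 0 < r₀)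
    (hr : 2 * r₀ ≤ δΛ) : ∃ δ₂ : ℝ, 0 < δ₂ ∧ δ₂ ≤ 1 ∧ ∀ F ∈ Sec X Λ u, ∀ z₀ z : ℂ, ‖z - z₀‖ = r₀ →
      δ₂ ≤ dist (pr (F z₀)) (pr (F z)) := by
  obtain ⟨δ, hδ, h⟩ := TorusMap.unif hX hu hr₀
  refine ⟨min δ 1, lt_min hδ one_pos, min_le_right _ _, ?_⟩
  intro F hF z₀ z hz
  refine le_trans (min_le_left _ _) ?_
  by_contra hlt
  rw [not_le] at hlt
  obtain ⟨hFd, hFX, hFu⟩ := hF
  obtain ⟨l, hl, h1⟩ := h (F z₀) (hFX z₀) (F z) (hFX z) hlt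
  have h2 : (u (F z) - z) - (u (F z₀) - z₀) + l ∈ Λ := Λ.add_mem (Λ.sub_mem (hFu z) (hFu z₀)) hl
  have h3 : u (F z₀) - u (F z) - l = -((u (F z) - z) - (u (F z₀) - z₀) + l) - (z - z₀) := by ring
  set m : ℂ := (u (F z) - z) - (u (F z₀) - z₀) + l with hm
  rw [h3] at h1
  have h4 : ‖m‖ < δΛ := by
    have h5 : m = -((-m - (z - z₀)) + (z - z₀)) := by ring
    have h6 : ‖m‖ ≤ ‖-m - (z - z₀)‖ + ‖z - z₀‖ := by
      conv_lhs => rw [h5]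
      rw [norm_neg]
      exact norm_add_le _ _
    linarith
  have h5 : m = 0 := hδΛ m h2 h4
  rw [h5, neg_zero, zero_sub, norm_neg, hz] at h1
  exact lt_irrefl _ h1

theorem local_ineq (hX : IsCone X) (hch : Charts X) (hu : TorusMap X Λ u) (hΛ : Lat Λ) (hM : 1 ≤ M) (Ω : Form X M 1) {L : ℝ}
    (hL0 : 0 < L) (hL : ∀ F ∈ Sec X Λ u, ∀ z, fs (F z) (deriv F z) ≤ L) :
    ∃ r₀ r₁ κ θ ε₀ : ℝ, 0 < r₀ ∧ r₀ ≤ r₁ ∧ 0 < κ ∧ 0 ≤ θ ∧ θ < 1 ∧ 0 < ε₀ ∧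
      ∀ F ∈ Sec X Λ u, ∀ G ∈ Sec X Λ u, ∀ z₀, (∀ z ∈ closedBall z₀ r₁, dist (pr (F z)) (pr (G z)) ≤ ε₀) → ∀ c,
        ∃ z ∈ closedBall z₀ r₀,
          rho M (That X Λ u Ω) (fun z => pr (F z)) (fun z => pr (G z)) z₀ * Real.exp (-κ * ‖z₀ - c‖ ^ 2) ≤
            θ * (rho M (That X Λ u Ω) (fun z => pr (F z)) (fun z => pr (G z)) z * Real.exp (-κ * ‖z - c‖ ^ 2)) := by
  classical
  -- the finite cover
  have hloc : ∀ y : KK X Λ u, ∃ (χ : Chart X) (υ : ℂ × ℂ → ℂ) (s δ : ℝ) (Q : MN N → ℂ × ℂ), LocData Λ u χ υ s (y : MN N) δ Q := by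
    rintro ⟨y, F, hF, z, rfl⟩
    exact exists_loc hX hch hu hΛ (hF.2.1 z) (DU.of_sec hF z)
  choose χ υ s δ Q hloc using hloc
  obtain ⟨t, ht⟩ := (isCompact_KK hX hu hΛ hL0 hL).elim_nhds_subcover' (fun y hy => ball y (δ ⟨y, hy⟩ / 2))
    (fun y hy => ball_mem_nhds y (half_pos (hloc ⟨y, hy⟩).pos))
  obtain ⟨δ₀, hδ₀, hδ₀le⟩ := LI_fin_min t δ fun i => (hloc i).pos
  obtain ⟨δΛ, hδΛ0, hδΛ⟩ := hΛ.discrete
  set r : ℝ := min (δ₀ / (16 * L)) (δΛ / 4) with hr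
  have hr0 : 0 < r := by rw [hr]; positivity
  have hrL : 2 * L * r ≤ δ₀ / 8 := by
    calc 2 * L * r ≤ 2 * L * (δ₀ / (16 * L)) := by gcongr; exact min_le_left _ _
      _ = δ₀ / 8 := by field_simp; norm_num
  have hrΛ : r ≤ δΛ / 4 := min_le_right _ _
  have hr₀ : 0 < r / 2 := half_pos hr0
  obtain ⟨δ₂, hδ₂, hδ₂1, hgap⟩ := LI_gap hX hu hδΛ hr₀ (by linarith)
  have hrad : 0 < 1 - δ₂ ^ 2 / 2 := by nlinarith
  set γ : ℝ := Real.sqrt (1 - δ₂ ^ 2 / 2) with hγ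
  have hγ0 : 0 < γ := Real.sqrt_pos.mpr hrad
  have hγsq : γ ^ 2 = 1 - δ₂ ^ 2 / 2 := Real.sq_sqrt hrad.le
  have hγ1 : γ < 1 := by
    rw [hγ, Real.sqrt_lt' one_pos]
    have : 0 < δ₂ ^ 2 := by positivity
    linarith
  set κ₂ : ℝ := -Real.log γ with hκ₂
  have hκ₂0 : 0 < κ₂ := by
    rw [hκ₂, neg_pos]
    exact Real.log_neg hγ0 hγ1
  have hγe : γ = Real.exp (-κ₂) := by rw [hκ₂, neg_neg, Real.exp_log hγ0]
  have hη0 : 0 < κ₂ / 8 := by positivity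
  choose ε hε hrho using fun i : KK X Λ u => chart_rho hX hch hu hΛ hM Ω (hloc i) hr0 hη0
  obtain ⟨ε₁, hε₁, hε₁le⟩ := LI_fin_min t ε hε
  refine ⟨r / 2, r, κ₂ / (2 * (r / 2) ^ 2), Real.exp (-(κ₂ / 4)), min ε₁ (δ₀ / 4), hr₀, by linarith, by positivity,
    (Real.exp_pos _).le, ?_, lt_min hε₁ (by positivity), ?_⟩
  · rw [Real.exp_lt_one_iff]
    linarith
  intro F hF G hG z₀ hclose c
  have hmem : pr (F z₀) ∈ KK X Λ u := ⟨F, hF, z₀, rfl⟩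
  obtain ⟨i, hit, hi⟩ := Set.mem_iUnion₂.mp (ht hmem)
  have hi' : dist (pr (F z₀)) (i : MN N) < δ i / 2 := hi
  have hδi := hδ₀le i hit
  have hεi := hε₁le i hit
  have hdF : ∀ z ∈ ball z₀ r, dist (pr (F z)) (i : MN N) ≤ δ₀ / 8 + δ i / 2 := by
    intro z hz
    have h1 : ‖z - z₀‖ ≤ r := by
      rw [← dist_eq_norm]
      exact (mem_ball.mp hz).le
    have h2 := sec_lip hX hL hF z z₀
    have h3 : 2 * L * ‖z - z₀‖ ≤ 2 * L * r := by gcongr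
    have h4 := dist_triangle (pr (F z)) (pr (F z₀)) (i : MN N)
    linarith
  obtain ⟨h, Fh, hhd, hFhd, hFhc, hest⟩ := hrho i F hF G hG z₀ (by
    intro z hz
    have h1 := hdF z hz
    have h2 := hclose z (ball_subset_closedBall hz)
    have h3 : dist (pr (F z)) (pr (G z)) ≤ ε₁ := le_trans h2 (min_le_left _ _)
    have h4 : dist (pr (F z)) (pr (G z)) ≤ δ₀ / 4 := le_trans h2 (min_le_right _ _)
    have h5 := dist_triangle_left (pr (G z)) (i : MN N) (pr (F z))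
    refine ⟨by linarith, by linarith, by linarith⟩)
  have hFh0 : ∀ z ∈ ball z₀ r, Fh z ≠ 0 := by
    intro z hz
    obtain ⟨a, ha, h1⟩ := hFhc z hz
    rw [h1]
    exact smul_ne_zero ha (LI_ne_zero hX (hF.2.1 z))
  have hFhpr : ∀ z ∈ ball z₀ r, pr (Fh z) = pr (F z) := by
    intro z hz
    obtain ⟨a, ha, h1⟩ := hFhc z hz
    rw [h1, pr_smul _ ha]
  have hz₀ : z₀ ∈ ball z₀ r := mem_ball_self hr0
  have hsub : sphere z₀ (r / 2) ⊆ ball z₀ r := by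
    intro z hz
    rw [mem_ball, mem_sphere.mp hz]
    linarith
  have hγi : ∀ z ∈ sphere z₀ (r / 2), ‖inner ℂ (Fh z₀) (Fh z)‖ ≤ γ * (‖Fh z₀‖ * ‖Fh z‖) := by
    intro z hz
    have hzb := hsub hz
    have h1 : ‖z - z₀‖ = r / 2 := by
      rw [← dist_eq_norm]
      exact mem_sphere.mp hz
    have h2 := hgap F hF z₀ z h1
    have h3 := norm_inner_sq (hFh0 z₀ hz₀) (hFh0 z hzb)
    rw [hFhpr z₀ hz₀, hFhpr z hzb] at h3
    have h4 : δ₂ ^ 2 ≤ dist (pr (F z₀)) (pr (F z)) ^ 2 := pow_le_pow_left₀ hδ₂.le h2 2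
    have h5 : ‖inner ℂ (Fh z₀) (Fh z)‖ ^ 2 ≤ (γ * (‖Fh z₀‖ * ‖Fh z‖)) ^ 2 := by
      rw [mul_pow, mul_pow, hγsq, h3]
      have h6 : 0 ≤ ‖Fh z₀‖ ^ 2 * ‖Fh z‖ ^ 2 := by positivity
      nlinarith
    exact (abs_le_of_sq_le_sq' h5 (by positivity)).2
  obtain ⟨z, hz, hmax⟩ := max_ineq hr₀ (by linarith : r / 2 < r) hhd hFhd (hFh0 z₀ hz₀) hγi (κ₂ / (2 * (r / 2) ^ 2)) c
  have hzc : z ∈ closedBall z₀ (r / 2) := sphere_subset_closedBall hz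
  refine ⟨z, hzc, ?_⟩
  have hA := (hest z₀ (mem_closedBall_self hr₀.le)).2
  have hB := (hest z hzc).1
  set R₀ := rho M (That X Λ u Ω) (fun z => pr (F z)) (fun z => pr (G z)) z₀ with hR₀
  set R₁ := rho M (That X Λ u Ω) (fun z => pr (F z)) (fun z => pr (G z)) z with hR₁
  set E₀ := Real.exp (-(κ₂ / (2 * (r / 2) ^ 2)) * ‖z₀ - c‖ ^ 2) with hE₀
  set E₁ := Real.exp (-(κ₂ / (2 * (r / 2) ^ 2)) * ‖z - c‖ ^ 2) with hE₁
  have hE₀p : 0 < E₀ := Real.exp_pos _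
  have hE₁p : 0 < E₁ := Real.exp_pos _
  have hC : ‖h z‖ * ‖Fh z‖ ≤ Real.exp (κ₂ / 8) * R₁ := by
    have h1 : Real.exp (κ₂ / 8) * (Real.exp (-(κ₂ / 8)) * (‖h z‖ * ‖Fh z‖)) ≤ Real.exp (κ₂ / 8) * R₁ :=
      mul_le_mul_of_nonneg_left hB (Real.exp_pos _).le
    rwa [← mul_assoc, ← Real.exp_add, add_neg_cancel, Real.exp_zero, one_mul] at h1
  have hκr : κ₂ / (2 * (r / 2) ^ 2) * (r / 2) ^ 2 = κ₂ / 2 := by
    have : (r / 2) ^ 2 ≠ 0 := by positivity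
    field_simp
  rw [hκr, hγe] at hmax
  calc R₀ * E₀ ≤ Real.exp (κ₂ / 8) * (‖h z₀‖ * ‖Fh z₀‖) * E₀ := mul_le_mul_of_nonneg_right hA hE₀p.le
    _ = Real.exp (κ₂ / 8) * (‖h z₀‖ * ‖Fh z₀‖ * E₀) := by ring
    _ ≤ Real.exp (κ₂ / 8) * (Real.exp (κ₂ / 2) * Real.exp (-κ₂) * (‖h z‖ * ‖Fh z‖ * E₁)) :=
      mul_le_mul_of_nonneg_left hmax (Real.exp_pos _).le
    _ ≤ Real.exp (κ₂ / 8) * (Real.exp (κ₂ / 2) * Real.exp (-κ₂) * (Real.exp (κ₂ / 8) * R₁ * E₁)) := by gcongr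
    _ = Real.exp (κ₂ / 8 + κ₂ / 2 + -κ₂ + κ₂ / 8) * (R₁ * E₁) := by
      rw [Real.exp_add, Real.exp_add, Real.exp_add]
      ring
    _ = Real.exp (-(κ₂ / 4)) * (R₁ * E₁) := by
      congr 2
      ring

end Pool.Agent.H62.EF
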