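import Pool.Agent.H62.EF.Loc
import Pool.Agent.H62.EF.SecL

/-!
# EF TDense: the length of the form along a section

* `That_nonneg_KK`: `y = pr (F z)`; `TfAt.exists` with `w = F' z` (`DU.of_sec`), `That_eq`.
* `That_cont`: near `y₀ = pr (F z) ∈ KK` take `LocData` (`exists_loc` with `x₀ = F z`, `w = F' z`); for `y = pr x ∈ KK` in `closedBall y₀ δ`
  (`x = G w ∈ X`): `That y = TF χ υ Ω (χ.q x) = TF χ υ Ω (Q y)` (`LocData.That_eq`), `Q y ∈ closedBall 0 (s / 2) ⊆ ball 0 s`; `Q` is continuous on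
  `closedBall y₀ δ`, which is a neighbourhood of `y₀`, and `TF` is continuous on `ball 0 s` (`TF_cont`).
* `That_dense`: for `z₁ ∈ ℂ` take `LocData` at `F z₁`; for `z` near `z₁` (`F` is continuous, `pr` is continuous at `F z₁`) `That (pr (F z)) = TF χ υ Ω (χ.q (F z))`, which
  is `0` iff `aCoef Ω χ (χ.q (F z)) = 0` (`TF_eq_zero`), an analytic function of `z` near `z₁`; so (`AnalyticAt.eventually_eq_zero_or_eventually_ne_zero`)
  either `That (pr (F z)) = 0` for all `z` near `z₁`, or `≠ 0` for all `z ≠ z₁` near `z₁`.  Both sets of points `z₁` are open, disjoint, and their union is `ℂ`.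
* `zero_mem`: otherwise `TfAt.ne_zero`.
-/

set_option autoImplicit false

open Topology Filter Metric

namespace Pool.Agent.H62.EF

open Pool.Agent.H36.BP (EN fs wd)
open Pool.Agent.H14.PP (IsCone Chart Form Tan aCoef)

variable {N : ℕ} {X : Set (EN N)} {Λ : AddSubgroup ℂ} {u : EN N → ℂ} {M : ℕ}

theorem That_nonneg_KK (hX : IsCone X) (hch : Charts X) (hu : TorusMap X Λ u) (hΛ : Lat Λ) (Ω : Form X M 1) {y : MN N}
    (hy : y ∈ KK X Λ u) : 0 ≤ That X Λ u Ω y := by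
  obtain ⟨F, hF, z, rfl⟩ := hy
  obtain ⟨t, ht0, ht⟩ := TfAt.exists hX hch hu hΛ Ω (hF.2.1 z) (DU.of_sec hF z)
  rw [That_eq hX hch hu hΛ (hF.2.1 z) ht]
  exact ht0

private theorem half_sub {s : ℝ} (hs : 0 < s) {p : ℂ × ℂ} (hp : p ∈ closedBall (0 : ℂ × ℂ) (s / 2)) :
    p ∈ ball (0 : ℂ × ℂ) s := by
  rw [mem_closedBall] at hp
  rw [mem_ball]
  linarith

theorem That_cont (hX : IsCone X) (hch : Charts X) (hu : TorusMap X Λ u) (hΛ : Lat Λ) (Ω : Form X M 1) :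
    ContinuousOn (That X Λ u Ω) (KK X Λ u) := by
  rintro y₀ ⟨F, hF, z, rfl⟩
  obtain ⟨χ, υ, s, δ, Q, h⟩ := exists_loc hX hch hu hΛ (hF.2.1 z) (DU.of_sec hF z)
  have hnb : closedBall (pr (F z)) δ ∈ 𝓝 (pr (F z)) := closedBall_mem_nhds _ h.pos
  obtain ⟨-, hq0, hq1⟩ := h.mem (F z) (hF.2.1 z) (by rw [dist_self]; exact h.pos.le)
  have hQ0 : Q (pr (F z)) ∈ ball (0 : ℂ × ℂ) s := by
    rw [← hq0]
    exact half_sub h.adm.pos hq1
  have c1 : ContinuousAt Q (pr (F z)) := h.cont.continuousAt hnb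
  have c2 : ContinuousAt (TF χ υ Ω) (Q (pr (F z))) :=
    (TF_cont hX Ω h.adm).continuousAt (isOpen_ball.mem_nhds hQ0)
  have c3 : ContinuousAt (fun y => TF χ υ Ω (Q y)) (pr (F z)) := ContinuousAt.comp c2 c1
  have key : ∀ y ∈ KK X Λ u, y ∈ closedBall (pr (F z)) δ → That X Λ u Ω y = TF χ υ Ω (Q y) := by
    rintro y ⟨G, hG, w, rfl⟩ hy
    rw [mem_closedBall] at hy
    rw [h.That_eq hX hch hu hΛ Ω (hG.2.1 w) hy, (h.mem (G w) (hG.2.1 w) hy).2.1]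
  refine c3.continuousWithinAt.congr_of_eventuallyEq ?_ ?_
  · filter_upwards [self_mem_nhdsWithin, mem_nhdsWithin_of_mem_nhds hnb] with y hy1 hy2
    exact key y hy1 hy2
  · exact key _ ⟨F, hF, z, rfl⟩ (mem_closedBall_self h.pos.le)

theorem tdense_dich (hX : IsCone X) (hch : Charts X) (hu : TorusMap X Λ u) (hΛ : Lat Λ) (Ω : Form X M 1) {F : ℂ → EN N}
    (hF : F ∈ Sec X Λ u) (z₁ : ℂ) : (∀ᶠ z in 𝓝 z₁, That X Λ u Ω (pr (F z)) = 0) ∨
      ∀ᶠ z in 𝓝[≠] z₁, That X Λ u Ω (pr (F z)) ≠ 0 := by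
  obtain ⟨χ, υ, s, δ, Q, h⟩ := exists_loc hX hch hu hΛ (hF.2.1 z₁) (DU.of_sec hF z₁)
  obtain ⟨hU, -, hq1⟩ := h.mem (F z₁) (hF.2.1 z₁) (by rw [dist_self]; exact h.pos.le)
  have hq2 : χ.q (F z₁) ∈ ball (0 : ℂ × ℂ) 2 := by
    have h1 := half_sub h.adm.pos hq1
    rw [mem_ball] at h1 ⊢
    linarith [h.adm.lt]
  have hFa : AnalyticAt ℂ F z₁ := hF.1.analyticAt z₁
  have hx0 : F z₁ ≠ 0 := fun h0 => hX.zero_notMem (h0 ▸ hF.2.1 z₁)
  have an1 : AnalyticAt ℂ (fun z => χ.q (F z)) z₁ := (χ.q_an (F z₁) hU).comp hFa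
  have an2 : AnalyticAt ℂ (fun z => aCoef Ω χ (χ.q (F z))) z₁ :=
    AnalyticAt.comp (f := fun z => χ.q (F z)) (aCoef_an Ω χ hq2) an1
  have c1 : ContinuousAt (fun z => pr (F z)) z₁ :=
    ContinuousAt.comp (g := pr) (f := F) (continuousAt_pr hx0) hFa.continuousAt
  have c2 : ∀ᶠ z in 𝓝 z₁, dist (pr (F z)) (pr (F z₁)) ≤ δ := by
    have := c1.eventually (closedBall_mem_nhds (pr (F z₁)) h.pos)
    filter_upwards [this] with z hz
    exact hz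
  have key : ∀ᶠ z in 𝓝 z₁, (That X Λ u Ω (pr (F z)) = 0 ↔ aCoef Ω χ (χ.q (F z)) = 0) := by
    filter_upwards [c2] with z hz
    rw [h.That_eq hX hch hu hΛ Ω (hF.2.1 z) hz]
    exact TF_eq_zero hX Ω h.adm (half_sub h.adm.pos (h.mem (F z) (hF.2.1 z) hz).2.2)
  rcases an2.eventually_eq_zero_or_eventually_ne_zero with h1 | h1
  · left
    filter_upwards [key, h1] with z hz1 hz2
    exact hz1.mpr hz2
  · right
    filter_upwards [key.filter_mono nhdsWithin_le_nhds, h1] with z hz1 hz2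
    exact fun h0 => hz2 (hz1.mp h0)

theorem That_dense (hX : IsCone X) (hch : Charts X) (hu : TorusMap X Λ u) (hΛ : Lat Λ) (Ω : Form X M 1) {F : ℂ → EN N}
    (hF : F ∈ Sec X Λ u) : (∀ z, That X Λ u Ω (pr (F z)) = 0) ∨ ∀ z₀, ∃ᶠ z in 𝓝 z₀, That X Λ u Ω (pr (F z)) ≠ 0 := by
  set A : Set ℂ := {z₁ | ∀ᶠ z in 𝓝 z₁, That X Λ u Ω (pr (F z)) = 0} with hA
  have hopen : IsOpen A := isOpen_setOfPred_eventually_nhds
  have hcl : IsClosed A := by
    rw [← isOpen_compl_iff, isOpen_iff_mem_nhds]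
    intro z₁ hz₁
    have h1 : ∀ᶠ z in 𝓝[≠] z₁, That X Λ u Ω (pr (F z)) ≠ 0 :=
      (tdense_dich hX hch hu hΛ Ω hF z₁).resolve_left hz₁
    rw [eventually_nhdsWithin_iff, _root_.eventually_nhds_iff] at h1
    obtain ⟨t, ht, hto, hzt⟩ := h1
    filter_upwards [hto.mem_nhds hzt] with z₂ hz₂ hmem
    by_cases h2 : z₂ = z₁
    · exact hz₁ (h2 ▸ hmem)
    · exact ht z₂ hz₂ h2 hmem.self_of_nhds
  rcases isClopen_iff.mp ⟨hcl, hopen⟩ with h1 | h1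
  · right
    intro z₀
    have h2 : z₀ ∉ A := by rw [h1]; exact Set.notMem_empty z₀
    exact fun h3 => h2 (h3.mono fun z hz => not_not.mp hz)
  · left
    intro z
    have h2 : z ∈ A := by rw [h1]; exact Set.mem_univ z
    exact h2.self_of_nhds

theorem mem_of_That (hX : IsCone X) (hch : Charts X) (hu : TorusMap X Λ u) (hΛ : Lat Λ) {Ω : Form X M 1} {T : Set (EN N)}
    (hΩ : Ω.NoZeroOff T) {F : ℂ → EN N} (hF : F ∈ Sec X Λ u) {z : ℂ} (h : That X Λ u Ω (pr (F z)) = 0) : F z ∈ T := by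
  by_contra hT
  obtain ⟨t, -, ht⟩ := TfAt.exists hX hch hu hΛ Ω (hF.2.1 z) (DU.of_sec hF z)
  rw [That_eq hX hch hu hΛ (hF.2.1 z) ht] at h
  exact TfAt.ne_zero hX hch hu hΛ hΩ (hF.2.1 z) hT ht h

end Pool.Agent.H62.EF
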