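import Pool.Agent.H62.EF.TorA
import Pool.Agent.H62.Log.Hurwitz

/-!
# EF Node: curves near a curve through a node meet the fibre of the node

`IsNode.smul`: take `c • σ` and `y ↦ τ (c⁻¹ • y)`; `u (c • σ p) - u (σ p) ∈ Λ`.

`node_hits`.  By `IsNode.smul` we have coordinates `σ, τ, c` at `x = ψ ζ₀`.  Let `(s, t) = τ ∘ ψ`, analytic near `ζ₀`.  Near `ζ₀`:
`ψ ζ = a • σ (τ (ψ ζ))`, so `u (ψ ζ) - (c + s t) ∈ Λ`; `u (ψ ζ) - u (ψ ζ₀) ∈ Λ` and (at `ζ₀`, where `s = t = 0`) `u (ψ ζ₀) - c ∈ Λ`; so `s t ∈ Λ`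
near `ζ₀`, and `s t → 0`, so `s t = 0` near `ζ₀` (`discrete`).  So `s = 0` near `ζ₀` or `t = 0` near `ζ₀`; not both, otherwise `ψ ζ = a • σ 0`
near `ζ₀`, against `hne`.  Say `t = 0` near `ζ₀`; `s ζ₀ = 0` and `s` is not identically `0` near `ζ₀`.  Choose `s' < ε` small with `s ≠ 0` on the circle
`sphere ζ₀ s'`; `(s_n, t_n) = τ ∘ φ n` converges to `(s, t)` uniformly on `closedBall ζ₀ s'` (`τ` is continuous near `x`, `φ n → ψ` uniformly on the compact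
disc, which is mapped by `ψ` into a small neighbourhood of `x`), and `s_n` is analytic on it for almost all `n`.  Hurwitz' theorem: `s_n` has a zero in
`ball ζ₀ s'` for almost all `n` (otherwise, with `m = min |s|` on the circle, `|s_n| ≥ m / 2` on the circle and the maximum principle for
`1 / s_n` gives `|s_n ζ₀| ≥ m / 2`, but `s_n ζ₀ → s ζ₀ = 0`; compare the proof in `H36/BP/ClP.lean`).  At this zero `ζ`: `u (φ n ζ) - (c + 0) ∈ Λ`.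
-/

set_option autoImplicit false

open Topology Filter Metric

namespace Pool.Agent.H62.EF

open Pool.Agent.H36.BP (EN fs wd)
open Pool.Agent.H14.PP (IsCone)

variable {N : ℕ} {X : Set (EN N)} {Λ : AddSubgroup ℂ} {u : EN N → ℂ}

/-- near a node `u` is `c + s t` modulo `Λ` -/
private theorem Node_loc (hu : TorusMap X Λ u) {x : EN N} {σ : ℂ × ℂ → EN N} {τ : EN N → ℂ × ℂ} {c : ℂ}
    (hτ : AnalyticAt ℂ τ x) (hτ0 : τ x = 0) (h1 : ∀ᶠ y in 𝓝 x, y ∈ X → ∃ a : ℂ, a ≠ 0 ∧ y = a • σ (τ y))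
    (h2 : ∀ᶠ p in 𝓝 (0 : ℂ × ℂ), σ p ∈ X)
    (h3 : ∀ᶠ p in 𝓝 (0 : ℂ × ℂ), u (σ p) - (c + p.1 * p.2) ∈ Λ) :
    ∀ᶠ y in 𝓝 x, y ∈ X → u y - (c + (τ y).1 * (τ y).2) ∈ Λ := by
  have ht : Tendsto τ (𝓝 x) (𝓝 (0 : ℂ × ℂ)) := by
    have := hτ.continuousAt.tendsto
    rwa [hτ0] at this
  filter_upwards [h1, ht.eventually h2, ht.eventually h3] with y hy1 hy2 hy3 hyX
  obtain ⟨a, ha, hya⟩ := hy1 hyX
  have h4 := hu.smul _ hy2 a ha
  rw [← hya] at h4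
  have h5 := Λ.add_mem h4 hy3
  have e : u y - u (σ (τ y)) + (u (σ (τ y)) - (c + (τ y).1 * (τ y).2)) =
      u y - (c + (τ y).1 * (τ y).2) := by ring
  rwa [e] at h5

theorem IsNode.smul (hX : IsCone X) (hu : TorusMap X Λ u) {x : EN N} (h : IsNode X Λ u x) {c : ℂ} (hc : c ≠ 0) :
    IsNode X Λ u (c • x) := by
  obtain ⟨σ, τ, c₀, hσ, hσ0, hτ, hτ0, h1, h2, h3⟩ := h
  have hcx : c⁻¹ • (c • x) = x := by rw [smul_smul, inv_mul_cancel₀ hc, one_smul]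
  have hlin : AnalyticAt ℂ (fun y : EN N => c⁻¹ • y) (c • x) :=
    (c⁻¹ • ContinuousLinearMap.id ℂ (EN N)).analyticAt _
  have hcont : Tendsto (fun y : EN N => c⁻¹ • y) (𝓝 (c • x)) (𝓝 x) := by
    have := hlin.continuousAt.tendsto
    simpa only [hcx] using this
  have hcσ : AnalyticAt ℂ (fun p => c • σ p) 0 :=
    ((c • ContinuousLinearMap.id ℂ (EN N)).analyticAt (σ 0)).comp (f := σ) hσ
  refine ⟨fun p => c • σ p, fun y => τ (c⁻¹ • y), c₀, hcσ, ?_, ?_, ?_, ?_, ?_, ?_⟩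
  · simp only [hσ0]
  · have hτ' : AnalyticAt ℂ τ (c⁻¹ • (c • x)) := by rwa [hcx]
    exact hτ'.comp (f := fun y : EN N => c⁻¹ • y) hlin
  · simp only [hcx, hτ0]
  · filter_upwards [hcont.eventually h1] with y hy hyX
    obtain ⟨a, ha, hya⟩ := hy (hX.smul_mem y hyX _ (inv_ne_zero hc))
    refine ⟨a, ha, ?_⟩
    have h5 : y = c • (c⁻¹ • y) := by rw [smul_smul, mul_inv_cancel₀ hc, one_smul]
    calc y = c • (c⁻¹ • y) := h5
      _ = c • (a • σ (τ (c⁻¹ • y))) := by rw [← hya]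
      _ = a • (c • σ (τ (c⁻¹ • y))) := by rw [smul_comm]
  · exact h2.mono fun p hp => hX.smul_mem _ hp _ hc
  · filter_upwards [h2, h3] with p hp2 hp3
    have h5 := Λ.add_mem (hu.smul _ hp2 c hc) hp3
    have e : u (c • σ p) - u (σ p) + (u (σ p) - (c₀ + p.1 * p.2)) = u (c • σ p) - (c₀ + p.1 * p.2) := by ring
    rwa [e] at h5

private theorem Node_aux (𝒰 : Ultrafilter ℕ) {ζ₀ : ℂ} {r : ℝ} (hr : 0 < r)
    {φ : ℕ → ℂ → EN N} {ψ : ℂ → EN N} (hφ : ∀ᶠ n in (𝒰 : Filter ℕ), DifferentiableOn ℂ (φ n) (ball ζ₀ r) ∧ ∀ z ∈ ball ζ₀ r, φ n z ∈ X)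
    (hψ : DifferentiableOn ℂ ψ (ball ζ₀ r)) (hlim : TendstoLocallyUniformlyOn φ ψ 𝒰 (ball ζ₀ r))
    {τ : EN N → ℂ × ℂ} {c : ℂ} (hτ : AnalyticAt ℂ τ (ψ ζ₀)) (hτ0 : τ (ψ ζ₀) = 0)
    (hloc : ∀ᶠ y in 𝓝 (ψ ζ₀), y ∈ X → u y - (c + (τ y).1 * (τ y).2) ∈ Λ) (hc : u (ψ ζ₀) - c ∈ Λ)
    (π : ℂ × ℂ →L[ℂ] ℂ) (hπ : ∀ p : ℂ × ℂ, π p = 0 → p.1 * p.2 = 0)
    (hne : ¬ ∀ᶠ z in 𝓝 ζ₀, π (τ (ψ z)) = 0) {ε : ℝ} (hε : 0 < ε) :
    ∀ᶠ n in (𝒰 : Filter ℕ), ∃ ζ ∈ ball ζ₀ ε, u (φ n ζ) - u (ψ ζ₀) ∈ Λ := by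
  by_contra hcon
  rw [← Ultrafilter.eventually_not] at hcon
  -- a good ball around `x`
  obtain ⟨ρ, hρ, hball⟩ := Metric.eventually_nhds_iff_ball.1 (hτ.eventually_analyticAt.and hloc)
  -- a good ball around `ζ₀`
  have hψc : ContinuousAt ψ ζ₀ := (hψ.differentiableAt (isOpen_ball.mem_nhds (mem_ball_self hr))).continuousAt
  obtain ⟨s₁, hs₁, hs₁b⟩ := Metric.eventually_nhds_iff_ball.1
    (hψc.eventually (ball_mem_nhds (ψ ζ₀) (half_pos hρ)))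
  obtain ⟨s, hs0, hs1, hsr, hsε⟩ : ∃ s : ℝ, 0 < s ∧ s < s₁ ∧ s < r ∧ s < ε := by
    refine ⟨min s₁ (min r ε) / 2, by positivity, ?_, ?_, ?_⟩
    · have := min_le_left s₁ (min r ε)
      have h : 0 < min s₁ (min r ε) := by positivity
      linarith
    · have := (min_le_right s₁ (min r ε)).trans (min_le_left r ε)
      have h : 0 < min s₁ (min r ε) := by positivity
      linarith
    · have := (min_le_right s₁ (min r ε)).trans (min_le_right r ε)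
      have h : 0 < min s₁ (min r ε) := by positivity
      linarith
  have hsub : closedBall ζ₀ s ⊆ ball ζ₀ r := closedBall_subset_ball hsr
  have hψρ : ∀ z ∈ closedBall ζ₀ s, ψ z ∈ ball (ψ ζ₀) (ρ / 2) :=
    fun z hz => hs₁b z (closedBall_subset_ball hs1 hz)
  have hunif : TendstoUniformlyOn φ ψ 𝒰 (closedBall ζ₀ s) :=
    (tendstoLocallyUniformlyOn_iff_forall_isCompact isOpen_ball).1 hlim _ hsub (isCompact_closedBall ζ₀ s)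
  have hφρ : ∀ᶠ n in (𝒰 : Filter ℕ), ∀ z ∈ closedBall ζ₀ s, φ n z ∈ ball (ψ ζ₀) ρ := by
    filter_upwards [Metric.tendstoUniformlyOn_iff.1 hunif (ρ / 2) (half_pos hρ)] with n hn z hz
    have h1 := hn z hz
    have h2 := hψρ z hz
    rw [mem_ball] at h2 ⊢
    have h3 := dist_triangle (φ n z) (ψ z) (ψ ζ₀)
    rw [dist_comm (φ n z) (ψ z)] at h3
    linarith
  have hτd : ∀ y ∈ ball (ψ ζ₀) ρ, DifferentiableAt ℂ (fun y => π (τ y)) y := fun y hy =>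
    π.differentiableAt.comp y (hball y hy).1.differentiableAt
  have key := Pool.Agent.H62.Log.hurwitz 𝒰 (φ := fun n z => π (τ (φ n z))) (ψ := fun z => π (τ (ψ z)))
    (a := ζ₀) (r := s) ?_ ?_ ?_ ?_
  · rcases key with h0 | h0
    · apply hne
      filter_upwards [ball_mem_nhds ζ₀ hs0] with z hz
      exact h0 z hz
    · apply h0 ζ₀ (mem_ball_self hs0)
      simp only [hτ0, map_zero]
  · filter_upwards [hφ, hφρ] with n hn1 hn2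
    intro z hz
    have h1 : DifferentiableAt ℂ (φ n) z :=
      hn1.1.differentiableAt (isOpen_ball.mem_nhds (hsub (ball_subset_closedBall hz)))
    exact ((hτd _ (hn2 z (ball_subset_closedBall hz))).comp z h1).differentiableWithinAt
  · filter_upwards [hφ, hφρ, hcon] with n hn1 hn2 hn3 z hz h0
    apply hn3
    refine ⟨z, ball_subset_ball hsε.le hz, ?_⟩
    have h1 := (hball _ (hn2 z (ball_subset_closedBall hz))).2 (hn1.2 z (hsub (ball_subset_closedBall hz)))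
    rw [hπ _ h0, add_zero] at h1
    have h2 := Λ.sub_mem h1 hc
    have e : u (φ n z) - c - (u (ψ ζ₀) - c) = u (φ n z) - u (ψ ζ₀) := by ring
    rwa [e] at h2
  · intro z hz
    have h1 : DifferentiableAt ℂ ψ z :=
      hψ.differentiableAt (isOpen_ball.mem_nhds (hsub (ball_subset_closedBall hz)))
    have h2 : ψ z ∈ ball (ψ ζ₀) ρ := ball_subset_ball (by linarith) (hψρ z (ball_subset_closedBall hz))
    exact ((hτd _ h2).comp z h1).differentiableWithinAt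
  · intro w z₀ hz₀ hw
    have hz₀r : z₀ ∈ ball ζ₀ r := hsub (ball_subset_closedBall hz₀)
    have h2 : ψ z₀ ∈ ball (ψ ζ₀) ρ := ball_subset_ball (by linarith) (hψρ z₀ (ball_subset_closedBall hz₀))
    have hw' : Tendsto w (𝒰 : Filter ℕ) (𝓝[ball ζ₀ r] z₀) := by
      rw [isOpen_ball.nhdsWithin_eq hz₀r]
      exact hw
    have h3 : Tendsto (fun n => φ n (w n)) (𝒰 : Filter ℕ) (𝓝 (ψ z₀)) :=
      hlim.tendsto_comp (hψ.continuousOn z₀ hz₀r) hz₀r hw'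
    exact (hτd _ h2).continuousAt.tendsto.comp h3

theorem node_hits (hX : IsCone X) (hu : TorusMap X Λ u) (hΛ : Lat Λ) (𝒰 : Ultrafilter ℕ) {ζ₀ : ℂ} {r : ℝ} (hr : 0 < r)
    {φ : ℕ → ℂ → EN N} {ψ : ℂ → EN N} (hφ : ∀ᶠ n in (𝒰 : Filter ℕ), DifferentiableOn ℂ (φ n) (ball ζ₀ r) ∧ ∀ z ∈ ball ζ₀ r, φ n z ∈ X)
    (hψ : DifferentiableOn ℂ ψ (ball ζ₀ r)) (hψX : ∀ z ∈ ball ζ₀ r, ψ z ∈ X) (hlim : TendstoLocallyUniformlyOn φ ψ 𝒰 (ball ζ₀ r))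
    (hfib : ∀ z ∈ ball ζ₀ r, u (ψ z) - u (ψ ζ₀) ∈ Λ) (hne : ¬ ∀ᶠ z in 𝓝 ζ₀, ∃ c : ℂ, ψ z = c • ψ ζ₀)
    (hnode : IsNode X Λ u (ψ ζ₀)) {ε : ℝ} (hε : 0 < ε) :
    ∀ᶠ n in (𝒰 : Filter ℕ), ∃ ζ ∈ ball ζ₀ ε, u (φ n ζ) - u (ψ ζ₀) ∈ Λ := by
  obtain ⟨σ, τ, c, hσ, hσ0, hτ, hτ0, h1, h2, h3⟩ := hnode
  have hloc := Node_loc hu hτ hτ0 h1 h2 h3
  have hc : u (ψ ζ₀) - c ∈ Λ := by
    have h4 := hloc.self_of_nhds (hψX ζ₀ (mem_ball_self hr))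
    rw [hτ0] at h4
    simpa using h4
  have hψd : DifferentiableAt ℂ ψ ζ₀ := hψ.differentiableAt (isOpen_ball.mem_nhds (mem_ball_self hr))
  have hψc : Tendsto ψ (𝓝 ζ₀) (𝓝 (ψ ζ₀)) := hψd.continuousAt.tendsto
  -- not both vanish
  have hnot : ¬ ((∀ᶠ z in 𝓝 ζ₀, (τ (ψ z)).1 = 0) ∧ ∀ᶠ z in 𝓝 ζ₀, (τ (ψ z)).2 = 0) := by
    rintro ⟨h5, h6⟩
    apply hne
    filter_upwards [h5, h6, hψc.eventually h1, isOpen_ball.mem_nhds (mem_ball_self hr)] with z hz5 hz6 hz1 hz2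
    obtain ⟨a, -, ha⟩ := hz1 (hψX z hz2)
    have h7 : τ (ψ z) = 0 := Prod.ext hz5 hz6
    rw [h7, hσ0] at ha
    exact ⟨a, ha⟩
  by_cases h5 : ∀ᶠ z in 𝓝 ζ₀, (τ (ψ z)).1 = 0
  · have h6 : ¬ ∀ᶠ z in 𝓝 ζ₀, (τ (ψ z)).2 = 0 := fun h6 => hnot ⟨h5, h6⟩
    exact Node_aux 𝒰 hr hφ hψ hlim hτ hτ0 hloc hc (ContinuousLinearMap.snd ℂ ℂ ℂ)
      (fun p hp => by
        have : p.2 = 0 := hp
        rw [this, mul_zero]) h6 hε
  · exact Node_aux 𝒰 hr hφ hψ hlim hτ hτ0 hloc hc (ContinuousLinearMap.fst ℂ ℂ ℂ)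
      (fun p hp => by
        have : p.1 = 0 := hp
        rw [this, zero_mul]) h5 hε

end Pool.Agent.H62.EF
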