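import Pool.Agent.H62.EF.LimL
import Pool.Agent.H62.EF.TorA
import Pool.Agent.H62.EF.ZalA
import Pool.Agent.H62.EF.Node
import Pool.Agent.H36.BP.Brody

/-!
# EF Zal: the curves in `Sec` are uniformly Lipschitz

Suppose not: for every `n` there are `F n ∈ Sec` and `z n` with `fs (F n (z n)) ((F n)' (z n)) > 4 (n + 1)`.  `rescale_fs` for
`z ↦ F n (z + z n)` gives `w n` and `a n > 4 (n + 1)` such that `G n ζ = F n (w n + ζ / a n)` has `fs (G n 0) ((G n)' 0) = 1` and `fs ≤ 2` on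
`ball 0 (n + 1)`; `u (G n ζ) - (w n + ζ / a n) ∈ Λ`.  `limit_curves` (`𝒰 = hyperfilter ℕ`, `L = 2`, `ρ n = n + 1`) gives `G` entire with
`fs (G 0) (G' 0) = 1`, so `G` is not constant in the projective space (`Brody_deriv_line`: otherwise `G' 0 = a • G 0` and `fs = 0`).
For all `ζ, ζ'`: `u (G n ζ) - u (G n ζ') - (ζ - ζ') / a n ∈ Λ` and `pr (G n ζ) → pr (G ζ)`: by `TorusMap.unif` `u (G ζ) - u (G ζ')` has distance
`< ε` to `Λ` for every `ε > 0`, so it is in `Λ` (`Lat.mem_of_close`).  `FibHyp` gives `z ≠ w` with nodes `G z`, `G w`.  Let `φ, ψ` be the local lifts at `z`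
from `limit_curves`; `ψ z = c • G z` is a node (`IsNode.smul`); the hypothesis `hne` of `node_hits`: if `ψ ζ = c • ψ z` near `z` then `G ζ` is
proportional to `G z` near `z` and (identity theorem for the functions `G_i G_j(z) - G_j G_i(z)`) everywhere, so all `G ζ` are multiples of `G z`:
contradiction to non-constancy.  `node_hits` with `ε = ‖z - w‖ / 4` (and `< r`): for almost all `n` there is `ζ ∈ ball z ε` with `u (G n ζ) - u (G z) ∈ Λ`,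
and in the same way `ζ' ∈ ball w ε` with `u (G n ζ') - u (G w) ∈ Λ`.  So `(ζ - ζ') / a n ∈ Λ`, of norm `≤ 2 ‖z - w‖ / a n < δ` for large `n`, so
`ζ = ζ'`: contradiction to `ε = ‖z - w‖ / 4`.
-/

set_option autoImplicit false

open Topology Filter Metric

namespace Pool.Agent.H62.EF

open Pool.Agent.H36.BP (EN fs wd)
open Pool.Agent.H14.PP (IsCone)

variable {N : ℕ} {X : Set (EN N)} {Λ : AddSubgroup ℂ} {u : EN N → ℂ}

/-- an entire curve which is locally constant in the projective space is constant -/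
private theorem zal_ident {G : ℂ → EN N} (hG : Differentiable ℂ G) (h0 : ∀ z, G z ≠ 0) {ζ₀ : ℂ}
    (h : ∀ᶠ z in 𝓝 ζ₀, ∃ c : ℂ, G z = c • G ζ₀) (z w : ℂ) : ∃ c : ℂ, G z = c • G w := by
  have hcoord : ∀ i, Differentiable ℂ (fun z => G z i) := fun i => by
    exact (EuclideanSpace.proj (𝕜 := ℂ) i).differentiable.comp hG
  have hmin : ∀ i j : Fin (N + 1), ∀ z, G z i * G ζ₀ j - G z j * G ζ₀ i = 0 := by
    intro i j
    have hd : Differentiable ℂ (fun z => G z i * G ζ₀ j - G z j * G ζ₀ i) :=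
      ((hcoord i).mul_const _).sub ((hcoord j).mul_const _)
    have han : AnalyticOnNhd ℂ (fun z => G z i * G ζ₀ j - G z j * G ζ₀ i) Set.univ := fun z _ => hd.analyticAt z
    have hev : (fun z => G z i * G ζ₀ j - G z j * G ζ₀ i) =ᶠ[𝓝 ζ₀] 0 := by
      filter_upwards [h] with z hz
      obtain ⟨c, hc⟩ := hz
      rw [hc]
      simp only [PiLp.smul_apply, smul_eq_mul, Pi.zero_apply]
      ring
    have := han.eqOn_zero_of_preconnected_of_eventuallyEq_zero isPreconnected_univ (Set.mem_univ ζ₀) hev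
    intro z
    exact this (Set.mem_univ z)
  obtain ⟨i, hi⟩ : ∃ i, G ζ₀ i ≠ 0 := by
    by_contra hcon
    push Not at hcon
    apply h0 ζ₀
    ext i
    simpa using hcon i
  have hall : ∀ z, G z = (G z i / G ζ₀ i) • G ζ₀ := by
    intro z
    ext j
    have h1 := hmin i j z
    rw [PiLp.smul_apply, smul_eq_mul, div_mul_eq_mul_div, eq_div_iff hi]
    linear_combination -h1
  have hw : G w i / G ζ₀ i ≠ 0 := by
    intro hcon
    apply h0 w
    rw [hall w, hcon, zero_smul]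
  have hwi : G ζ₀ = (G w i / G ζ₀ i)⁻¹ • G w := by
    have h1 := congrArg (fun x => (G w i / G ζ₀ i)⁻¹ • x) (hall w)
    simp only [smul_smul, inv_mul_cancel₀ hw, one_smul] at h1
    exact h1.symm
  refine ⟨(G z i / G ζ₀ i) * (G w i / G ζ₀ i)⁻¹, ?_⟩
  rw [mul_smul, ← hwi]
  exact hall z

theorem uniform_bound (hX : IsCone X) (hu : TorusMap X Λ u) (hΛ : Lat Λ) (hfib : FibHyp X Λ u) :
    ∃ L : ℝ, 0 < L ∧ ∀ F ∈ Sec X Λ u, ∀ z, fs (F z) (deriv F z) ≤ L := by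
  by_contra hcon
  push Not at hcon
  have hbig : ∀ n : ℕ, ∃ F ∈ Sec X Λ u, ∃ z, 4 * ((n : ℝ) + 1) < fs (F z) (deriv F z) :=
    fun n => hcon _ (by positivity)
  choose F hFS zc hzc using hbig
  have hX0 : ∀ x ∈ X, x ≠ 0 := fun x hx h => hX.zero_notMem (h ▸ hx)
  have hresc : ∀ n : ℕ, ∃ (z₀ : ℂ) (a : ℝ), 4 * ((n : ℝ) + 1) < a ∧
      fs (F n (z₀ + zc n)) (deriv (fun ζ => F n (z₀ + ((a⁻¹ : ℝ) : ℂ) * ζ + zc n)) 0) = 1 ∧
      ∀ ζ ∈ ball (0 : ℂ) (n + 1), fs (F n (z₀ + ((a⁻¹ : ℝ) : ℂ) * ζ + zc n))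
        (deriv (fun ζ => F n (z₀ + ((a⁻¹ : ℝ) : ℂ) * ζ + zc n)) ζ) ≤ 2 := by
    intro n
    have hd : Differentiable ℂ (fun z => F n (z + zc n)) := (hFS n).1.comp (differentiable_id.add_const _)
    refine rescale_fs hd (fun z => hX0 _ ((hFS n).2.1 _)) n ?_
    rw [deriv_comp_add_const]
    simpa using hzc n
  choose z₀ a ha h1 h2 using hresc
  have ha0 : ∀ n, 0 < a n := fun n => lt_trans (by positivity) (ha n)
  set G : ℕ → ℂ → EN N := fun n ζ => F n (z₀ n + (((a n)⁻¹ : ℝ) : ℂ) * ζ + zc n) with hGdef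
  have hGd : ∀ n, Differentiable ℂ (G n) := by
    intro n
    exact (hFS n).1.comp (((differentiable_id.const_mul _).const_add _).add_const _)
  have hGX : ∀ n ζ, G n ζ ∈ X := fun n ζ => (hFS n).2.1 _
  have hGu : ∀ n ζ, u (G n ζ) - (z₀ n + (((a n)⁻¹ : ℝ) : ℂ) * ζ + zc n) ∈ Λ := fun n ζ => (hFS n).2.2 _
  have hGu2 : ∀ n ζ ζ', u (G n ζ) - u (G n ζ') - (((a n)⁻¹ : ℝ) : ℂ) * (ζ - ζ') ∈ Λ := by
    intro n ζ ζ'
    have := Λ.sub_mem (hGu n ζ) (hGu n ζ')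
    convert this using 1
    ring
  have hG1 : ∀ n, fs (G n 0) (deriv (G n) 0) = 1 := by
    intro n
    have := h1 n
    rw [hGdef]
    simpa only [mul_zero, add_zero] using this
  set 𝒰 : Ultrafilter ℕ := hyperfilter ℕ with h𝒰
  have hle : (𝒰 : Filter ℕ) ≤ atTop := Nat.hyperfilter_le_atTop
  have hρ : Tendsto (fun n : ℕ => (n : ℝ) + 1) 𝒰 atTop :=
    (tendsto_atTop_add_const_right _ _ tendsto_natCast_atTop_atTop).mono_left hle
  have hainv : Tendsto (fun n => (a n)⁻¹) 𝒰 (𝓝 0) := by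
    have h3 : Tendsto a 𝒰 atTop := by
      refine tendsto_atTop_mono (fun n => ?_) hρ
      have := ha n
      have h4 : (0 : ℝ) ≤ n := Nat.cast_nonneg n
      linarith
    exact tendsto_inv_atTop_zero.comp h3
  obtain ⟨H, hH, hHX, hpr, hfs, hloc⟩ := limit_curves hX (L := 2) two_pos 𝒰 G (fun n : ℕ => (n : ℝ) + 1) hρ
    (Eventually.of_forall fun n => ⟨(hGd n).differentiableOn, fun z hz => ⟨hGX n z, h2 n z hz⟩⟩)
  have hH0 : ∀ z, H z ≠ 0 := fun z => hX0 _ (hHX z)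
  -- the limit is not constant
  have hone : fs (H 0) (deriv H 0) = 1 := by
    have h3 := hfs 0
    simp only [hG1] at h3
    exact tendsto_nhds_unique h3 tendsto_const_nhds |>.symm ▸ rfl
  have hnc : ∃ z w, ∀ c : ℂ, H z ≠ c • H w := by
    by_contra hc
    push Not at hc
    obtain ⟨b, hb⟩ := Pool.Agent.H36.BP.Brody_deriv_line (hH 0) (fun z => hc z 0)
    have h3 : wd (H 0) (deriv H 0) = 0 := (Pool.Agent.H36.BP.wd_eq_zero (hH0 0)).mpr ⟨b, hb⟩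
    unfold fs at hone
    rw [h3, zero_div] at hone
    exact zero_ne_one hone
  -- the limit is in a fibre
  have hnear : ∀ (ζ : ℂ) (ε : ℝ), 0 < ε → ∀ᶠ n in (𝒰 : Filter ℕ), ∃ l ∈ Λ, ‖u (H ζ) - u (G n ζ) - l‖ < ε := by
    intro ζ ε hε
    obtain ⟨δ, hδ, h3⟩ := TorusMap.unif hX hu hε
    have h4 : ∀ᶠ n in (𝒰 : Filter ℕ), dist (pr (G n ζ)) (pr (H ζ)) < δ := (hpr ζ).eventually (ball_mem_nhds _ hδ)
    filter_upwards [h4] with n hn
    rw [dist_comm] at hn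
    exact h3 _ (hHX ζ) _ (hGX n ζ) hn
  have hver : ∀ ζ ζ', u (H ζ) - u (H ζ') ∈ Λ := by
    intro ζ ζ'
    refine hΛ.mem_of_close fun ε hε => ?_
    have h3 := hnear ζ (ε / 3) (by positivity)
    have h4 := hnear ζ' (ε / 3) (by positivity)
    have h5 : ∀ᶠ n in (𝒰 : Filter ℕ), ‖(((a n)⁻¹ : ℝ) : ℂ) * (ζ - ζ')‖ < ε / 3 := by
      have h6 : Tendsto (fun n => ‖(((a n)⁻¹ : ℝ) : ℂ) * (ζ - ζ')‖) 𝒰 (𝓝 ‖((0 : ℝ) : ℂ) * (ζ - ζ')‖) := by
        refine Tendsto.norm (Tendsto.mul_const _ ?_)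
        exact (Complex.continuous_ofReal.tendsto 0).comp hainv
      have h7 : ‖((0 : ℝ) : ℂ) * (ζ - ζ')‖ < ε / 3 := by
        rw [Complex.ofReal_zero, zero_mul, norm_zero]
        positivity
      exact h6.eventually_lt_const h7
    obtain ⟨n, ⟨l, hl, hn1⟩, ⟨l', hl', hn2⟩, hn3⟩ := (h3.and (h4.and h5)).exists
    have h8 := hGu2 n ζ ζ'
    set q := u (G n ζ) - u (G n ζ') - (((a n)⁻¹ : ℝ) : ℂ) * (ζ - ζ') with hq
    refine ⟨l - l' + q, Λ.add_mem (Λ.sub_mem hl hl') h8, ?_⟩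
    have h9 : u (H ζ) - u (H ζ') - (l - l' + q) =
        (u (H ζ) - u (G n ζ) - l) - (u (H ζ') - u (G n ζ') - l') + (((a n)⁻¹ : ℝ) : ℂ) * (ζ - ζ') := by
      rw [hq]
      ring
    rw [h9]
    calc _ ≤ ‖(u (H ζ) - u (G n ζ) - l) - (u (H ζ') - u (G n ζ') - l')‖ + ‖(((a n)⁻¹ : ℝ) : ℂ) * (ζ - ζ')‖ := norm_add_le _ _
      _ ≤ ‖u (H ζ) - u (G n ζ) - l‖ + ‖u (H ζ') - u (G n ζ') - l'‖ + ‖(((a n)⁻¹ : ℝ) : ℂ) * (ζ - ζ')‖ := by
        gcongr
        exact norm_sub_le _ _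
      _ < ε := by linarith
  obtain ⟨z, w, hzw, hnz, hnw⟩ := hfib H hH hHX hver hnc
  -- the curves meet the fibre near the nodes
  have hhit : ∀ ζ₀, IsNode X Λ u (H ζ₀) → ∀ ε : ℝ, 0 < ε →
      ∀ᶠ n in (𝒰 : Filter ℕ), ∃ ζ ∈ ball ζ₀ ε, u (G n ζ) - u (H ζ₀) ∈ Λ := by
    intro ζ₀ hnode ε hε
    obtain ⟨r, φ, ψ, hr, hφ, hψ, hψG, hlim⟩ := hloc ζ₀
    have hζ₀ : ζ₀ ∈ ball ζ₀ r := mem_ball_self hr
    obtain ⟨c₀, hc₀, hψ₀⟩ := hψG ζ₀ hζ₀
    have h3 := node_hits hX hu hΛ 𝒰 hr (φ := φ) (ψ := ψ) (ζ₀ := ζ₀)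
      (by
        filter_upwards [hφ] with n hn
        refine ⟨hn.1, fun z hz => ?_⟩
        obtain ⟨c, hc, hcz⟩ := hn.2 z hz
        rw [hcz]
        exact hX.smul_mem _ (hGX n z) c hc)
      hψ
      (by
        intro z hz
        obtain ⟨c, hc, hcz⟩ := hψG z hz
        rw [hcz]
        exact hX.smul_mem _ (hHX z) c hc)
      hlim
      (by
        intro z hz
        obtain ⟨c, hc, hcz⟩ := hψG z hz
        rw [hcz, hψ₀]
        have h4 := hu.smul _ (hHX z) c hc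
        have h5 := hu.smul _ (hHX ζ₀) c₀ hc₀
        have h6 := Λ.add_mem (Λ.sub_mem h4 h5) (hver z ζ₀)
        convert h6 using 1
        ring)
      (by
        intro h4
        obtain ⟨z', w', hz'⟩ := hnc
        have h5 : ∀ᶠ z in 𝓝 ζ₀, ∃ c : ℂ, H z = c • H ζ₀ := by
          filter_upwards [h4, isOpen_ball.mem_nhds hζ₀] with z hz hzr
          obtain ⟨c, hc⟩ := hz
          obtain ⟨d, hd, hdz⟩ := hψG z hzr
          refine ⟨d⁻¹ * (c * c₀), ?_⟩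
          rw [hdz, hψ₀] at hc
          rw [mul_smul, mul_smul, ← hc, smul_smul, inv_mul_cancel₀ hd, one_smul]
        obtain ⟨c, hc⟩ := zal_ident hH hH0 h5 z' w'
        exact hz' c hc)
      (by
        rw [hψ₀]
        exact IsNode.smul hX hu hnode hc₀)
      (ε := min ε r) (lt_min hε hr)
    filter_upwards [h3, hφ] with n hn hφn
    obtain ⟨ζ, hζ, hζu⟩ := hn
    refine ⟨ζ, ball_subset_ball (min_le_left _ _) hζ, ?_⟩
    obtain ⟨c, hc, hcz⟩ := hφn.2 ζ (ball_subset_ball (min_le_right _ _) hζ)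
    rw [hcz, hψ₀] at hζu
    have h4 := hu.smul _ (hGX n ζ) c hc
    have h5 := hu.smul _ (hHX ζ₀) c₀ hc₀
    have h6 := Λ.add_mem (Λ.sub_mem hζu h4) h5
    convert h6 using 1
    ring
  obtain ⟨δ, hδ, hdisc⟩ := hΛ.discrete
  have hzw0 : 0 < ‖z - w‖ := norm_pos_iff.mpr (sub_ne_zero.mpr hzw)
  have hε : 0 < ‖z - w‖ / 4 := by positivity
  have hsmall : ∀ᶠ n in (𝒰 : Filter ℕ), (a n)⁻¹ < δ / (2 * ‖z - w‖) := hainv.eventually_lt_const (by positivity)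
  obtain ⟨n, ⟨ζ, hζ, hζu⟩, ⟨ζ', hζ', hζu'⟩, hn⟩ := ((hhit z hnz _ hε).and ((hhit w hnw _ hε).and hsmall)).exists
  have hmem : (((a n)⁻¹ : ℝ) : ℂ) * (ζ - ζ') ∈ Λ := by
    have h3 := Λ.sub_mem (Λ.add_mem (Λ.sub_mem hζu hζu') (hver z w)) (hGu2 n ζ ζ')
    convert h3 using 1
    ring
  rw [mem_ball, dist_eq_norm] at hζ hζ'
  have hdist : ‖ζ - ζ'‖ < 2 * ‖z - w‖ := by
    have h3 : ζ - ζ' = (ζ - z) - (ζ' - w) + (z - w) := by ring
    rw [h3]
    calc _ ≤ ‖(ζ - z) - (ζ' - w)‖ + ‖z - w‖ := norm_add_le _ _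
      _ ≤ ‖ζ - z‖ + ‖ζ' - w‖ + ‖z - w‖ := by
        gcongr
        exact norm_sub_le _ _
      _ < 2 * ‖z - w‖ := by linarith
  have hainv0 : 0 < (a n)⁻¹ := inv_pos.mpr (ha0 n)
  have hzero := hdisc _ hmem (by
    rw [norm_mul, Complex.norm_real, Real.norm_of_nonneg hainv0.le]
    have h3 : (a n)⁻¹ * (2 * ‖z - w‖) < δ := by
      rwa [lt_div_iff₀ (by positivity)] at hn
    have h4 : (a n)⁻¹ * ‖ζ - ζ'‖ < (a n)⁻¹ * (2 * ‖z - w‖) := mul_lt_mul_of_pos_left hdist hainv0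
    linarith)
  have hne : (((a n)⁻¹ : ℝ) : ℂ) ≠ 0 := by exact_mod_cast hainv0.ne'
  have heq : ζ - ζ' = 0 := (mul_eq_zero.mp hzero).resolve_left hne
  have h3 : z - w = (ζ' - w) - (ζ - z) + (ζ - ζ') := by ring
  have h4 : ‖z - w‖ ≤ ‖ζ' - w‖ + ‖ζ - z‖ := by
    rw [h3, heq, add_zero]
    exact norm_sub_le _ _
  linarith

end Pool.Agent.H62.EF
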