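import Pool.Agent.H62.EF.DynF
import Pool.Agent.H62.EF.Zal
import Pool.Agent.H62.EF.TDense
import Pool.Agent.H62.EF.LI
import Pool.Agent.H62.EF.Iso

/-!
# EF Core: there are only finitely many sections
-/

set_option autoImplicit false

open Topology Filter Metric

namespace Pool.Agent.H62.EF

open Pool.Agent.H36.BP (EN fs wd)
open Pool.Agent.H14.PP (IsCone Chart Form Tan aCoef)

variable {N : ℕ} {X : Set (EN N)} {Λ : AddSubgroup ℂ} {u : EN N → ℂ} {M : ℕ}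

/-- the sections, as maps to the space of matrices -/
def SS (X : Set (EN N)) (Λ : AddSubgroup ℂ) (u : EN N → ℂ) : Set (ℂ → MN N) := {f | ∃ F ∈ Sec X Λ u, f = fun z => pr (F z)}

theorem flow (hX : IsCone X) (hch : Charts X) (hu : TorusMap X Λ u) (hΛ : Lat Λ) (hfib : FibHyp X Λ u) (hM : 1 ≤ M)
    (Ω : Form X M 1) {q : EN N → ℂ} {d : ℕ} (han : ∀ x, AnalyticAt ℂ q x) (hhom : ∀ (c : ℂ) (x : EN N), q (c • x) = c ^ d * q x)
    (hthin : ∀ x ∈ X, ¬ ∀ᶠ y in 𝓝 x, y ∈ X → q y = 0) (hΩ : Ω.NoZeroOff {x | x ∈ X ∧ q x = 0}) :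
    Flow (KK X Λ u) Λ (SS X Λ u) (That X Λ u Ω) := by
  obtain ⟨L, hL0, hL⟩ := uniform_bound hX hu hΛ hfib
  refine ⟨isCompact_KK hX hu hΛ hL0 hL, hΛ, ?_, ⟨2 * L, by positivity, ?_⟩, ?_, ?_, ?_, ?_, That_cont hX hch hu hΛ Ω, ?_, ?_, ?_⟩
  · rintro _ ⟨F, hF, rfl⟩ z
    exact ⟨F, hF, z, rfl⟩
  · rintro _ ⟨F, hF, rfl⟩ z w
    exact sec_lip hX hL hF z w
  · rintro _ ⟨F, hF, rfl⟩ l hl
    exact ⟨_, sec_trans hF hl, rfl⟩
  · intro 𝒰 f g hf hg
    rcases 𝒰.le_cofinite_or_eq_pure with h | ⟨k, hk⟩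
    · choose! F hF using fun n (hn : f n ∈ SS X Λ u) => hn
      have h𝒰 : (𝒰 : Filter ℕ) ≤ atTop := by
        rw [← Nat.cofinite_eq_atTop]
        exact h
      obtain ⟨G, hG, hlim⟩ := sec_lim hX hu hΛ hL0 hL 𝒰 h𝒰 F (hf.mono fun n hn => (hF n hn).1)
      refine ⟨G, hG, ?_⟩
      funext z
      refine tendsto_nhds_unique (hg z) ((hlim z).congr' ?_)
      filter_upwards [hf] with n hn
      rw [(hF n hn).2]
    · have h1 : f k ∈ SS X Λ u := by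
        rw [hk] at hf
        simpa using hf
      have h2 : g = f k := by
        funext z
        have h3 := hg z
        rw [hk] at h3
        exact tendsto_nhds_unique h3 (by
          rw [Ultrafilter.coe_pure]
          exact tendsto_pure_nhds _ _)
      rw [h2]
      exact h1
  · rintro _ ⟨F, hF, rfl⟩ _ ⟨G, hG, rfl⟩ z₀ h
    funext z
    exact sec_uniq hX hF hG h z
  · exact fun y hy => That_nonneg_KK hX hch hu hΛ Ω hy
  · rintro _ ⟨F, hF, rfl⟩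
    exact That_dense hX hch hu hΛ Ω hF
  · obtain ⟨r₀, r₁, κ, θ, ε₀, h1, h2, h3, h4, h5, h6, h7⟩ := local_ineq hX hch hu hΛ hM Ω hL0 hL
    refine ⟨M, r₀, r₁, κ, θ, ε₀, hM, h1, h2, h3, h4, h5, h6, ?_⟩
    rintro _ ⟨F, hF, rfl⟩ _ ⟨G, hG, rfl⟩ z₀ h c
    exact h7 F hF G hG z₀ h c
  · rintro _ ⟨F, hF, rfl⟩ hF0
    have hq : ∀ G ∈ Sec X Λ u, (∀ z, That X Λ u Ω (pr (G z)) = 0) → ∀ z, q (G z) = 0 := fun G hG h z =>
      (mem_of_That hX hch hu hΛ hΩ hG (h z)).2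
    obtain ⟨z₀, r, ε, h1, h2, h3⟩ := isolated hX hch hu hΛ han hhom hthin hF (hq F hF hF0)
    refine ⟨z₀, r, ε, h1, h2, ?_⟩
    rintro _ ⟨G, hG, rfl⟩ hG0 z hz hd
    exact h3 z hz (G z) (hG.2.1 z) (hq G hG hG0 z) (hG.2.2 z) hd

theorem SS_finite (hX : IsCone X) (hch : Charts X) (hu : TorusMap X Λ u) (hΛ : Lat Λ) (hfib : FibHyp X Λ u) (hM : 1 ≤ M)
    (Ω : Form X M 1) {q : EN N → ℂ} {d : ℕ} (han : ∀ x, AnalyticAt ℂ q x) (hhom : ∀ (c : ℂ) (x : EN N), q (c • x) = c ^ d * q x)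
    (hthin : ∀ x ∈ X, ¬ ∀ᶠ y in 𝓝 x, y ∈ X → q y = 0) (hΩ : Ω.NoZeroOff {x | x ∈ X ∧ q x = 0}) : (SS X Λ u).Finite :=
  (flow hX hch hu hΛ hfib hM Ω han hhom hthin hΩ).finite

/-- all sections are doubly periodic -/
theorem periodic (hfin : (SS X Λ u).Finite) : ∃ m : ℕ, 1 ≤ m ∧ ∀ F ∈ Sec X Λ u, ∀ l ∈ Λ, ∀ z, pr (F (z + (m : ℂ) * l)) = pr (F z) := by
  classical
  obtain ⟨s, hs⟩ := hfin.exists_finset_coe
  refine ⟨(s.card).factorial, Nat.factorial_pos _, fun F hF l hl z => ?_⟩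
  -- translations by the multiples of `l`
  have hmem : ∀ k : ℕ, (fun z => pr (F (z + (k : ℂ) * l))) ∈ s := by
    intro k
    rw [← Finset.mem_coe, hs]
    refine ⟨_, sec_trans hF (l := (k : ℂ) * l) ?_, rfl⟩
    have : (k : ℂ) * l = k • l := by simp
    rw [this]
    exact Λ.nsmul_mem hl k
  obtain ⟨i, hi, j, hj, hij, he⟩ : ∃ i ∈ Finset.range (s.card + 1), ∃ j ∈ Finset.range (s.card + 1), i ≠ j ∧
      (fun z => pr (F (z + (i : ℂ) * l))) = fun z => pr (F (z + (j : ℂ) * l)) :=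
    Finset.exists_ne_map_eq_of_card_lt_of_maps_to (by simp) fun k _ => hmem k
  -- so there is a period `k * l` with `1 ≤ k ≤ card s`
  obtain ⟨k, hk1, hk2, hk⟩ : ∃ k : ℕ, 1 ≤ k ∧ k ≤ s.card ∧ ∀ z, pr (F (z + (k : ℂ) * l)) = pr (F z) := by
    have hmain : ∀ i j : ℕ, i < j → j ≤ s.card → (fun z => pr (F (z + (i : ℂ) * l))) = (fun z => pr (F (z + (j : ℂ) * l))) →
        ∃ k : ℕ, 1 ≤ k ∧ k ≤ s.card ∧ ∀ z, pr (F (z + (k : ℂ) * l)) = pr (F z) := by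
      intro i j hij hj he
      refine ⟨j - i, by omega, by omega, fun z => ?_⟩
      have h1 : pr (F (z - (i : ℂ) * l + (i : ℂ) * l)) = pr (F (z - (i : ℂ) * l + (j : ℂ) * l)) := congrFun he (z - (i : ℂ) * l)
      rw [show z - (i : ℂ) * l + (i : ℂ) * l = z by ring] at h1
      rw [h1]
      congr 2
      push_cast [Nat.cast_sub hij.le]
      ring
    rw [Finset.mem_range] at hi hj
    rcases lt_or_gt_of_ne hij with h | h
    · exact hmain i j h (by omega) he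
    · exact hmain j i h (by omega) he.symm
  obtain ⟨t, ht⟩ := Nat.dvd_factorial hk1 hk2
  have hall : ∀ (n : ℕ) z, pr (F (z + (n : ℂ) * ((k : ℂ) * l))) = pr (F z) := by
    intro n
    induction n with
    | zero => intro z; simp
    | succ n ih =>
      intro z
      have : z + ((n + 1 : ℕ) : ℂ) * ((k : ℂ) * l) = (z + (n : ℂ) * ((k : ℂ) * l)) + (k : ℂ) * l := by push_cast; ring
      rw [this, hk, ih]
  rw [ht]
  have : z + ((k * t : ℕ) : ℂ) * l = z + (t : ℂ) * ((k : ℂ) * l) := by push_cast; ring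
  rw [this]
  exact hall t z

end Pool.Agent.H62.EF
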