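import Pool.Agent.H62.EF.PrA

/-!
# EF PrLip: curves with bounded Fubini-Study derivative are Lipschitz

Let `F` be holomorphic on the open convex set `U`, without zeros, `fs (F z) (F' z) ≤ L`.  The map `z ↦ pr (F z)` is real differentiable
on `U`, with derivative of norm at most `√2 L`; conclude with the mean value inequality (`Convex.norm_image_sub_le_of_norm_hasFDerivWithin_le`).
The derivative at `z` in the direction `h ∈ ℂ`: by `pr_smul`, `pr (F w) = pr (G w)` with `G w = F w / a(w)` for any holomorphic `a`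
without zero; take the constant `a = ‖F z‖`-normalisation and subtract: with `x = F z`, `v = F' z h`, `v' = v - (⟨x, v⟩ / ‖x‖²) x`
(orthogonal to `x`): the derivative of `pr` at `x` in the direction `v` is `(v' x^* + x v'^*) / ‖x‖²`, of norm
`√2 ‖v'‖ ‖x‖ / ‖x‖² = √2 wd x v / ‖x‖² = √2 fs x v`.
Another way, without computing the derivative: by `dist_pr`, `dist (pr (F z)) (pr (F w)) = √2 wd (F z) (F w) / (‖F z‖ ‖F w‖)` and
`wd (F z) (F w) = wd (F z) (F w - F z)`, so `limsup_{w → z} dist (pr (F z)) (pr (F w)) / ‖w - z‖ ≤ √2 wd (F z) (F' z) / ‖F z‖² ≤ √2 L`;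
a map on a segment with this property is Lipschitz with every constant `> √2 L`
(`image_le_of_liminf_slope_right_lt_deriv_boundary` and variants for the real function `t ↦ dist (f z) (f (z + t (w - z)))`, or
`image_norm_le_of_liminf_right_slope_norm_lt_deriv_boundary`).
-/

set_option autoImplicit false

open Topology Filter Metric

namespace Pool.Agent.H62.EF

open Pool.Agent.H36.BP (EN fs wd wd_cont wd_inv wd_smul_right fs_nonneg)

variable {N : ℕ}

/-- `wd x y = (t - s) wd x (slope)` -/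
private theorem wd_slope {G : ℝ → EN N} {s t : ℝ} (h : s < t) :
    wd (G s) (G t) = (t - s) * wd (G s) (slope G s t) := by
  have h1 : G t = (((t - s : ℝ)) : ℂ) • slope G s t + (1 : ℂ) • G s := by
    have hne : t - s ≠ 0 := by linarith
    rw [slope_def_module, one_smul, Complex.coe_smul, smul_smul, mul_inv_cancel₀ hne, one_smul, sub_add_cancel]
  have h2 : wd (G s) (G t) = wd (G s) ((((t - s : ℝ)) : ℂ) • slope G s t) := by
    have h3 := wd_inv (G s) ((((t - s : ℝ)) : ℂ) • slope G s t) 1 1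
    have h4 : (1 : ℂ) • ((((t - s : ℝ)) : ℂ) • slope G s t) + (1 : ℂ) • G s = G t := by
      rw [one_smul ℂ ((((t - s : ℝ)) : ℂ) • slope G s t), ← h1]
    rw [h4, one_smul, norm_one, one_pow, one_mul] at h3
    exact h3
  rw [h2, wd_smul_right, Complex.norm_real, Real.norm_of_nonneg (by linarith)]

private theorem lim_aux {l : Filter ℝ} {S : ℝ → EN N} {x v : EN N} (h : Tendsto S l (𝓝 v)) :
    Tendsto (fun t => wd x (S t)) l (𝓝 (wd x v)) := by
  have h1 : Tendsto (fun t => (inner ℂ x (S t) : ℂ)) l (𝓝 (inner ℂ x v)) := tendsto_const_nhds.inner h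
  have h2 : Tendsto (fun t => ‖x‖ ^ 2 * ‖S t‖ ^ 2 - ‖(inner ℂ x (S t) : ℂ)‖ ^ 2) l
      (𝓝 (‖x‖ ^ 2 * ‖v‖ ^ 2 - ‖(inner ℂ x v : ℂ)‖ ^ 2)) :=
    ((h.norm.pow 2).const_mul _).sub (h1.norm.pow 2)
  exact h2.sqrt

private theorem lim_aux2 {l : Filter ℝ} {S G : ℝ → EN N} {x v : EN N} (h : Tendsto S l (𝓝 v)) (hG : Tendsto G l (𝓝 x))
    (hx : ‖x‖ ≠ 0) :
    Tendsto (fun t => Real.sqrt 2 * (wd x (S t) / (‖x‖ * ‖G t‖))) l (𝓝 (Real.sqrt 2 * (wd x v / (‖x‖ * ‖x‖)))) := by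
  have h1 := lim_aux (x := x) h
  have h2 : Tendsto (fun t => ‖x‖ * ‖G t‖) l (𝓝 (‖x‖ * ‖x‖)) := hG.norm.const_mul _
  exact (h1.div h2 (mul_ne_zero hx hx)).const_mul _

theorem pr_lipschitz {F : ℂ → EN N} {U : Set ℂ} (hU : IsOpen U) (hUc : Convex ℝ U) (hF : DifferentiableOn ℂ F U)
    (h0 : ∀ z ∈ U, F z ≠ 0) {L : ℝ} (hL : ∀ z ∈ U, fs (F z) (deriv F z) ≤ L) :
    ∀ z ∈ U, ∀ w ∈ U, dist (pr (F z)) (pr (F w)) ≤ 2 * L * ‖z - w‖ := by
  intro z hz w hw
  have hL0 : 0 ≤ L := le_trans (fs_nonneg _ _) (hL z hz)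
  obtain ⟨γ, hγ⟩ : ∃ γ : ℝ → ℂ, γ = fun t : ℝ => z + (t : ℂ) * (w - z) := ⟨_, rfl⟩
  have hγU : ∀ t ∈ Set.Icc (0 : ℝ) 1, γ t ∈ U := by
    intro t ht
    have h1 := hUc hz hw (show 0 ≤ 1 - t by linarith [ht.2]) ht.1 (by ring)
    have h2 : γ t = (1 - t) • z + t • w := by
      rw [hγ]
      simp only [Complex.real_smul]
      push_cast
      ring
    rw [h2]
    exact h1
  have hγ0 : γ 0 = z := by rw [hγ]; simp
  have hγ1 : γ 1 = w := by rw [hγ]; simp
  have hγd : ∀ t, HasDerivAt γ (w - z) t := by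
    intro t
    have h1 : HasDerivAt (fun s : ℝ => (s : ℂ)) 1 t := Complex.ofRealCLM.hasDerivAt
    have h2 := (h1.mul_const (w - z)).const_add z
    rw [one_mul] at h2
    rw [hγ]
    exact h2
  obtain ⟨G, hG⟩ : ∃ G : ℝ → EN N, G = fun t => F (γ t) := ⟨_, rfl⟩
  have hGd : ∀ t ∈ Set.Icc (0 : ℝ) 1, HasDerivAt G ((w - z) • deriv F (γ t)) t := by
    intro t ht
    have h1 : HasDerivAt F (deriv F (γ t)) (γ t) :=
      (hF.differentiableAt (hU.mem_nhds (hγU t ht))).hasDerivAt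
    rw [hG]
    exact h1.scomp t (hγd t)
  have hG0 : ∀ t ∈ Set.Icc (0 : ℝ) 1, G t ≠ 0 := by
    intro t ht
    rw [hG]
    exact h0 _ (hγU t ht)
  have hcont : ContinuousOn (fun t => pr (G t) - pr (G 0)) (Set.Icc 0 1) := by
    intro t ht
    have h1 : ContinuousAt (fun t => pr (G t)) t :=
      ContinuousAt.comp (f := G) (g := pr) (continuousAt_pr (hG0 t ht)) (hGd t ht).continuousAt
    exact (h1.sub continuousAt_const).continuousWithinAt
  have hslope : ∀ x ∈ Set.Ico (0 : ℝ) 1, ∀ r : ℝ, Real.sqrt 2 * (L * ‖w - z‖) < r →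
      ∃ᶠ t in 𝓝[>] x, slope (norm ∘ fun t => pr (G t) - pr (G 0)) x t < r := by
    intro x hx r hr
    have hx1 : x ∈ Set.Icc (0 : ℝ) 1 := ⟨hx.1, hx.2.le⟩
    have hd := hGd x hx1
    have hs : Tendsto (slope G x) (𝓝[>] x) (𝓝 ((w - z) • deriv F (γ x))) :=
      (hasDerivAt_iff_tendsto_slope.1 hd).mono_left (nhdsWithin_mono _ fun t ht => ne_of_gt ht)
    have hc : Tendsto G (𝓝[>] x) (𝓝 (G x)) := hd.continuousAt.tendsto.mono_left nhdsWithin_le_nhds
    have hxn : ‖G x‖ ≠ 0 := norm_ne_zero_iff.2 (hG0 x hx1)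
    have hlim : Tendsto (fun t => Real.sqrt 2 * (wd (G x) (slope G x t) / (‖G x‖ * ‖G t‖))) (𝓝[>] x)
        (𝓝 (Real.sqrt 2 * (wd (G x) ((w - z) • deriv F (γ x)) / (‖G x‖ * ‖G x‖)))) := by
      exact lim_aux2 hs hc hxn
    have hval : Real.sqrt 2 * (wd (G x) ((w - z) • deriv F (γ x)) / (‖G x‖ * ‖G x‖)) ≤
        Real.sqrt 2 * (L * ‖w - z‖) := by
      refine mul_le_mul_of_nonneg_left ?_ (Real.sqrt_nonneg _)
      have h1 := hL (γ x) (hγU x hx1)
      have h2 : G x = F (γ x) := by rw [hG]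
      unfold fs at h1
      rw [wd_smul_right, h2, mul_div_assoc, ← pow_two, mul_comm L]
      exact mul_le_mul_of_nonneg_left h1 (norm_nonneg _)
    have hev : ∀ᶠ t in 𝓝[>] x, Real.sqrt 2 * (wd (G x) (slope G x t) / (‖G x‖ * ‖G t‖)) < r :=
      hlim.eventually (gt_mem_nhds (lt_of_le_of_lt hval hr))
    have hmem : ∀ᶠ t in 𝓝[>] x, t ∈ Set.Ioc x 1 := Ioc_mem_nhdsGT hx.2
    refine Eventually.frequently ?_
    filter_upwards [hev, hmem] with t ht htm
    have hxt : x < t := htm.1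
    have ht1 : t ∈ Set.Icc (0 : ℝ) 1 := ⟨le_trans hx.1 hxt.le, htm.2⟩
    refine lt_of_le_of_lt ?_ ht
    have h1 : ‖pr (G t) - pr (G 0)‖ - ‖pr (G x) - pr (G 0)‖ ≤ dist (pr (G x)) (pr (G t)) := by
      have h2 := norm_sub_norm_le (pr (G t) - pr (G 0)) (pr (G x) - pr (G 0))
      rw [sub_sub_sub_cancel_right, norm_sub_rev (pr (G t)) (pr (G x)), ← dist_eq_norm (pr (G x)) (pr (G t))] at h2
      exact h2
    rw [dist_pr (hG0 x hx1) (hG0 t ht1), wd_slope hxt] at h1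
    rw [slope_def_field]
    show (‖pr (G t) - pr (G 0)‖ - ‖pr (G x) - pr (G 0)‖) / (t - x) ≤ _
    rw [div_le_iff₀ (by linarith)]
    calc ‖pr (G t) - pr (G 0)‖ - ‖pr (G x) - pr (G 0)‖
        ≤ Real.sqrt 2 * ((t - x) * wd (G x) (slope G x t) / (‖G x‖ * ‖G t‖)) := h1
      _ = Real.sqrt 2 * (wd (G x) (slope G x t) / (‖G x‖ * ‖G t‖)) * (t - x) := by ring
  have key : ∀ ε : ℝ, 0 < ε → ‖pr (G 1) - pr (G 0)‖ ≤ Real.sqrt 2 * (L * ‖w - z‖) + ε := by
    intro ε hε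
    have h1 := image_norm_le_of_liminf_right_slope_norm_lt_deriv_boundary (a := 0) (b := 1)
      (f := fun t => pr (G t) - pr (G 0)) (f' := fun _ => Real.sqrt 2 * (L * ‖w - z‖)) hcont hslope
      (B := fun t => (Real.sqrt 2 * (L * ‖w - z‖) + ε) * t) (B' := fun _ => Real.sqrt 2 * (L * ‖w - z‖) + ε)
      (by simp) (by fun_prop)
      (fun x _ => by
        have h2 := (hasDerivAt_id x).const_mul (Real.sqrt 2 * (L * ‖w - z‖) + ε)
        rw [mul_one] at h2
        exact h2.hasDerivWithinAt)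
      (fun x _ _ => by linarith) (x := 1) ⟨zero_le_one, le_refl 1⟩
    rw [mul_one] at h1
    exact h1
  have hfin : ‖pr (G 1) - pr (G 0)‖ ≤ Real.sqrt 2 * (L * ‖w - z‖) := le_of_forall_pos_le_add key
  have hG1 : G 1 = F w := by rw [hG]; show F (γ 1) = F w; rw [hγ1]
  have hG0' : G 0 = F z := by rw [hG]; show F (γ 0) = F z; rw [hγ0]
  rw [hG1, hG0', ← dist_eq_norm, dist_comm] at hfin
  refine hfin.trans ?_
  have hs2 : Real.sqrt 2 ≤ 2 := by
    rw [Real.sqrt_le_left (by norm_num)]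
    norm_num
  rw [norm_sub_rev z w, mul_assoc]
  exact mul_le_mul_of_nonneg_right hs2 (mul_nonneg hL0 (norm_nonneg _))

end Pool.Agent.H62.EF
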