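import Pool.Agent.H14.PP.Defs

/-!
# EF Defs: surfaces with a holomorphic map to an elliptic curve

`X` is the cone (without `0`) of a smooth projective surface, in `EN N = ℂ^(N+1)` with the Euclidean norm.  The map to `ℂ / Λ` is
given by a function `u : EN N → ℂ` which is holomorphic modulo `Λ`.  `pr x` is the orthogonal projection to the line of `x`, a
matrix: in this way the projective space is a compact subset of a Euclidean space.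
-/

set_option autoImplicit false

open Topology Filter Metric

namespace Pool.Agent.H62.EF

open Pool.Agent.H36.BP (EN fs wd)
open Pool.Agent.H14.PP (IsCone Chart Form Tan aCoef)

variable {N : ℕ}

/-- matrices with the Frobenius norm -/
abbrev MN (N : ℕ) : Type := EuclideanSpace ℂ (Fin (N + 1) × Fin (N + 1))

/-- the orthogonal projection to the line of `x` -/
noncomputable def pr (x : EN N) : MN N :=
  WithLp.toLp 2 fun i => x i.1 * (starRingEnd ℂ) (x i.2) / ((‖x‖ ^ 2 : ℝ) : ℂ)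

/-- `Λ` is a lattice in `ℂ` -/
structure Lat (Λ : AddSubgroup ℂ) : Prop where
  discrete : ∃ δ : ℝ, 0 < δ ∧ ∀ l ∈ Λ, ‖l‖ < δ → l = 0
  cocompact : ∃ R : ℝ, 0 < R ∧ ∀ z : ℂ, ∃ l ∈ Λ, ‖z - l‖ ≤ R

/-- `u` is a holomorphic map from the surface to `ℂ / Λ` -/
structure TorusMap (X : Set (EN N)) (Λ : AddSubgroup ℂ) (u : EN N → ℂ) : Prop where
  smul : ∀ x ∈ X, ∀ c : ℂ, c ≠ 0 → u (c • x) - u x ∈ Λ
  loc : ∀ x ∈ X, ∃ v : EN N → ℂ, AnalyticAt ℂ v x ∧ ∀ᶠ y in 𝓝 x, y ∈ X → u y - v y ∈ Λ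

/-- the entire curves (lifts to the cone) with `u (F z) = z` modulo `Λ` -/
def Sec (X : Set (EN N)) (Λ : AddSubgroup ℂ) (u : EN N → ℂ) : Set (ℂ → EN N) :=
  {F | Differentiable ℂ F ∧ (∀ z, F z ∈ X) ∧ ∀ z, u (F z) - z ∈ Λ}

/-- `x` is a node of its fibre: there are local coordinates `s`, `t` at `x` with `u = c + s t` -/
def IsNode (X : Set (EN N)) (Λ : AddSubgroup ℂ) (u : EN N → ℂ) (x : EN N) : Prop :=
  ∃ (σ : ℂ × ℂ → EN N) (τ : EN N → ℂ × ℂ) (c : ℂ), AnalyticAt ℂ σ 0 ∧ σ 0 = x ∧ AnalyticAt ℂ τ x ∧ τ x = 0 ∧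
    (∀ᶠ y in 𝓝 x, y ∈ X → ∃ a : ℂ, a ≠ 0 ∧ y = a • σ (τ y)) ∧ (∀ᶠ p in 𝓝 (0 : ℂ × ℂ), σ p ∈ X) ∧
    ∀ᶠ p in 𝓝 (0 : ℂ × ℂ), u (σ p) - (c + p.1 * p.2) ∈ Λ

/-- the entire curves in the fibres of `u` are constant or pass at least twice through nodes of the fibres -/
def FibHyp (X : Set (EN N)) (Λ : AddSubgroup ℂ) (u : EN N → ℂ) : Prop :=
  ∀ F : ℂ → EN N, Differentiable ℂ F → (∀ z, F z ∈ X) → (∀ z w, u (F z) - u (F w) ∈ Λ) → (∃ z w, ∀ c : ℂ, F z ≠ c • F w) →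
    ∃ z w, z ≠ w ∧ IsNode X Λ u (F z) ∧ IsNode X Λ u (F w)

/-- `X` is smooth: there are charts -/
def Charts (X : Set (EN N)) : Prop := ∀ x ∈ X, ∃ χ : Chart X, x ∈ χ.U ∧ χ.q x = 0

/-- the determinant -/
def det2 (a b : ℂ × ℂ) : ℂ := a.1 * b.2 - a.2 * b.1

/-- a vector in the kernel of the derivative of `υ` at `p` -/
noncomputable def grd (υ : ℂ × ℂ → ℂ) (p : ℂ × ℂ) : ℂ × ℂ := (-(fderiv ℂ υ p (0, 1)), fderiv ℂ υ p (1, 0))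

/-- `v` is a tangent vector of the cone `X` at `x` with `du (v) = c` -/
def DU (X : Set (EN N)) (Λ : AddSubgroup ℂ) (u : EN N → ℂ) (x v : EN N) (c : ℂ) : Prop :=
  ∃ (γ : ℂ → EN N) (D : ℂ → ℂ), AnalyticAt ℂ γ 0 ∧ (∀ᶠ z in 𝓝 (0 : ℂ), γ z ∈ X) ∧ γ 0 = x ∧ deriv γ 0 = v ∧ AnalyticAt ℂ D 0 ∧
    (∀ᶠ z in 𝓝 (0 : ℂ), u (γ z) - D z ∈ Λ) ∧ deriv D 0 = c

/-- `t` is the length at `x` of the form `Ω` (a section of `M K - H`), evaluated on vertical vectors -/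
def TfAt {X : Set (EN N)} {M : ℕ} (Λ : AddSubgroup ℂ) (u : EN N → ℂ) (Ω : Form X M 1) (x : EN N) (t : ℝ) : Prop :=
  ∃ v w : EN N, DU X Λ u x v 0 ∧ DU X Λ u x w 1 ∧ 0 < wd x v ∧ t = ‖Ω.toFun x v w‖ * ‖x‖ ^ (1 + 2 * M) / wd x v ^ M

/-- a local lift of `u` in the chart `χ`, without critical points, on the ball of radius `s` -/
structure Adm {X : Set (EN N)} (Λ : AddSubgroup ℂ) (u : EN N → ℂ) (χ : Chart X) (υ : ℂ × ℂ → ℂ) (s : ℝ) : Prop where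
  pos : 0 < s
  lt : s < 2
  an : ∀ p ∈ ball (0 : ℂ × ℂ) s, AnalyticAt ℂ υ p
  lift : ∀ p ∈ ball (0 : ℂ × ℂ) s, u (χ.σ p) - υ p ∈ Λ
  ne : ∀ p ∈ ball (0 : ℂ × ℂ) s, fderiv ℂ υ p ≠ 0

/-- the function which is compared with holomorphic functions -/
noncomputable def rho {Y : Type} [MetricSpace Y] (M : ℕ) (T : Y → ℝ) (f g : ℂ → Y) (z : ℂ) : ℝ := dist (f z) (g z) ^ M * T (f z)

/-- the abstract situation: a compact, `Λ`-invariant family of maps `ℂ → Y` with the local inequality -/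
structure Flow {Y : Type} [MetricSpace Y] (K : Set Y) (Λ : AddSubgroup ℂ) (S : Set (ℂ → Y)) (T : Y → ℝ) : Prop where
  compact : IsCompact K
  lat : Lat Λ
  mem : ∀ f ∈ S, ∀ z, f z ∈ K
  lip : ∃ L : ℝ, 0 < L ∧ ∀ f ∈ S, ∀ z w, dist (f z) (f w) ≤ L * ‖z - w‖
  trans : ∀ f ∈ S, ∀ l ∈ Λ, (fun z => f (z + l)) ∈ S
  lim : ∀ (𝒰 : Ultrafilter ℕ) (F : ℕ → ℂ → Y) (f : ℂ → Y), (∀ᶠ n in (𝒰 : Filter ℕ), F n ∈ S) →
    (∀ z, Tendsto (fun n => F n z) 𝒰 (𝓝 (f z))) → f ∈ S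
  uniq : ∀ f ∈ S, ∀ g ∈ S, ∀ z₀, (∀ᶠ z in 𝓝 z₀, f z = g z) → f = g
  T_nonneg : ∀ y ∈ K, 0 ≤ T y
  T_cont : ContinuousOn T K
  T_dense : ∀ f ∈ S, (∀ z, T (f z) = 0) ∨ ∀ z₀, ∃ᶠ z in 𝓝 z₀, T (f z) ≠ 0
  loc : ∃ (M : ℕ) (r₀ r₁ κ θ ε₀ : ℝ), 1 ≤ M ∧ 0 < r₀ ∧ r₀ ≤ r₁ ∧ 0 < κ ∧ 0 ≤ θ ∧ θ < 1 ∧ 0 < ε₀ ∧
    ∀ f ∈ S, ∀ g ∈ S, ∀ z₀, (∀ z ∈ closedBall z₀ r₁, dist (f z) (g z) ≤ ε₀) → ∀ c, ∃ z ∈ closedBall z₀ r₀,
      rho M T f g z₀ * Real.exp (-κ * ‖z₀ - c‖ ^ 2) ≤ θ * (rho M T f g z * Real.exp (-κ * ‖z - c‖ ^ 2))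
  iso : ∀ f ∈ S, (∀ z, T (f z) = 0) → ∃ (z₀ : ℂ) (r ε : ℝ), 0 < r ∧ 0 < ε ∧ ∀ g ∈ S, (∀ z, T (g z) = 0) →
    ∀ z ∈ ball z₀ r, dist (g z) (f z) < ε → g z = f z

end Pool.Agent.H62.EF
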