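import Mathlib

/-!
# EF AffB: entire functions with quadratic mean growth are polynomials of degree at most one

For `k ≥ 2` the `k`-th Taylor coefficient at `0` satisfies (Cauchy's formula) `|a_k| r^k ≤ mean ‖D‖ ≤ (mean ‖D‖²)^(1/2) ≤ (A (1 + r²))^(1/2)`
over the circle of radius `r`; `r → ∞` gives `a_k = 0`.  (Or: `‖deriv (deriv D) z‖ ≤ 2 / r² ⬝ (mean of ‖D‖ over a circle)`, or first show `‖D z‖ ≤ C (1 + ‖z‖)`
by Poisson / the sub-mean value property: for `‖z‖ ≤ R`, `D z = (2πi)⁻¹ ∮_{‖w‖ = 2R} D w / (w - z) dw`, so `‖D z‖ ≤ 2 mean_{2R} ‖D‖ ≤ C (1 + R)`, and then Liouville for the second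
derivative.)
-/

set_option autoImplicit false

open Topology Filter Metric

namespace Pool.Agent.H62.EF

theorem affine_of_mean {D : ℂ → ℂ} (hD : Differentiable ℂ D) {A : ℝ}
    (hA : ∀ r : ℝ, 0 < r → Real.circleAverage (fun z => ‖D z‖ ^ 2) 0 r ≤ A * (1 + r ^ 2)) : ∃ α β : ℂ, ∀ z, D z = α * z + β := by
  have hp : HasFPowerSeriesOnBall D (cauchyPowerSeries D 0 ((1 : NNReal) : ℝ)) 0 ⊤ :=
    hD.hasFPowerSeriesOnBall (R := 1) 0 one_pos
  set p := cauchyPowerSeries D 0 ((1 : NNReal) : ℝ) with hpdef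
  have hcont : Continuous D := hD.continuous
  -- the mean of the norm
  have hmean : ∀ R : ℝ, 1 ≤ R →
      (2 * Real.pi)⁻¹ * ∫ θ : ℝ in (0:ℝ)..2 * Real.pi, ‖D (circleMap 0 R θ)‖ ≤ (|A| + 1) * R := by
    intro R hR
    have h1 := hA R (by linarith)
    rw [Real.circleAverage_def, smul_eq_mul] at h1
    have hpi : (0:ℝ) < (2 * Real.pi)⁻¹ := by positivity
    have hint1 : IntervalIntegrable (fun θ : ℝ => ‖D (circleMap 0 R θ)‖) MeasureTheory.volume 0 (2 * Real.pi) :=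
      (hcont.comp (continuous_circleMap 0 R)).norm.intervalIntegrable _ _
    have hint2 : IntervalIntegrable (fun θ : ℝ => (‖D (circleMap 0 R θ)‖ ^ 2) * (2 * R)⁻¹ + R / 2)
        MeasureTheory.volume 0 (2 * Real.pi) :=
      ((((hcont.comp (continuous_circleMap 0 R)).norm.pow 2).mul continuous_const).add continuous_const).intervalIntegrable _ _
    have hint3 : IntervalIntegrable (fun θ : ℝ => (‖D (circleMap 0 R θ)‖ ^ 2) * (2 * R)⁻¹)
        MeasureTheory.volume 0 (2 * Real.pi) :=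
      (((hcont.comp (continuous_circleMap 0 R)).norm.pow 2).mul continuous_const).intervalIntegrable _ _
    have h2 : ∫ θ : ℝ in (0:ℝ)..2 * Real.pi, ‖D (circleMap 0 R θ)‖ ≤
        ∫ θ : ℝ in (0:ℝ)..2 * Real.pi, ((‖D (circleMap 0 R θ)‖ ^ 2) * (2 * R)⁻¹ + R / 2) := by
      apply intervalIntegral.integral_mono_on (by positivity) hint1 hint2
      intro θ _
      have hR0 : (0:ℝ) < R := by linarith
      have h3 : (‖D (circleMap 0 R θ)‖ ^ 2) * (2 * R)⁻¹ + R / 2 - ‖D (circleMap 0 R θ)‖ =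
          (‖D (circleMap 0 R θ)‖ - R) ^ 2 * (2 * R)⁻¹ := by
        field_simp
        ring
      have h4 : 0 ≤ (‖D (circleMap 0 R θ)‖ - R) ^ 2 * (2 * R)⁻¹ := by positivity
      linarith
    rw [intervalIntegral.integral_add hint3 intervalIntegrable_const, intervalIntegral.integral_mul_const,
      intervalIntegral.integral_const, smul_eq_mul, sub_zero] at h2
    have h5 : (2 * Real.pi)⁻¹ * ∫ θ : ℝ in (0:ℝ)..2 * Real.pi, ‖D (circleMap 0 R θ)‖ ≤
        ((2 * Real.pi)⁻¹ * ∫ θ : ℝ in (0:ℝ)..2 * Real.pi, ‖D (circleMap 0 R θ)‖ ^ 2) * (2 * R)⁻¹ + R / 2 := by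
      calc (2 * Real.pi)⁻¹ * ∫ θ : ℝ in (0:ℝ)..2 * Real.pi, ‖D (circleMap 0 R θ)‖
          ≤ (2 * Real.pi)⁻¹ * ((∫ θ : ℝ in (0:ℝ)..2 * Real.pi, ‖D (circleMap 0 R θ)‖ ^ 2) * (2 * R)⁻¹ +
            2 * Real.pi * (R / 2)) := mul_le_mul_of_nonneg_left h2 hpi.le
        _ = _ := by
          have : Real.pi ≠ 0 := Real.pi_ne_zero
          field_simp
    have hR0 : (0:ℝ) < R := by linarith
    have h6 : ((2 * Real.pi)⁻¹ * ∫ θ : ℝ in (0:ℝ)..2 * Real.pi, ‖D (circleMap 0 R θ)‖ ^ 2) * (2 * R)⁻¹ ≤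
        |A| * R := by
      have h7 : ((2 * Real.pi)⁻¹ * ∫ θ : ℝ in (0:ℝ)..2 * Real.pi, ‖D (circleMap 0 R θ)‖ ^ 2) * (2 * R)⁻¹ ≤
          (A * (1 + R ^ 2)) * (2 * R)⁻¹ := mul_le_mul_of_nonneg_right h1 (by positivity)
      have h8 : (A * (1 + R ^ 2)) * (2 * R)⁻¹ ≤ (|A| * (2 * R ^ 2)) * (2 * R)⁻¹ := by
        apply mul_le_mul_of_nonneg_right _ (by positivity)
        have h9 : (1:ℝ) + R ^ 2 ≤ 2 * R ^ 2 := by nlinarith
        calc A * (1 + R ^ 2) ≤ |A| * (1 + R ^ 2) := mul_le_mul_of_nonneg_right (le_abs_self A) (by positivity)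
          _ ≤ |A| * (2 * R ^ 2) := mul_le_mul_of_nonneg_left h9 (abs_nonneg A)
      have h10 : (|A| * (2 * R ^ 2)) * (2 * R)⁻¹ = |A| * R := by
        field_simp
      linarith
    nlinarith
  have hzero : ∀ k : ℕ, 2 ≤ k → p k = 0 := by
    intro k hk
    have hbd : ∀ R : ℝ, 1 ≤ R → ‖p k‖ ≤ (|A| + 1) / R := by
      intro R hR
      have hR0 : (0:ℝ) < R := by linarith
      have hq : HasFPowerSeriesOnBall D (cauchyPowerSeries D 0 ((⟨R, hR0.le⟩ : NNReal) : ℝ)) 0 ⊤ :=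
        hD.hasFPowerSeriesOnBall (R := ⟨R, hR0.le⟩) 0 hR0
      have heq : p = cauchyPowerSeries D 0 R :=
        hp.hasFPowerSeriesAt.eq_formalMultilinearSeries hq.hasFPowerSeriesAt
      rw [heq]
      refine (norm_cauchyPowerSeries_le D 0 R k).trans ?_
      have h1 := hmean R hR
      have h2 : |R|⁻¹ ^ k ≤ (R⁻¹) ^ 2 := by
        rw [abs_of_pos hR0]
        exact pow_le_pow_of_le_one (by positivity) (inv_le_one_of_one_le₀ hR) hk
      have h3 : (0:ℝ) ≤ (|A| + 1) * R := by positivity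
      calc _ ≤ ((|A| + 1) * R) * (R⁻¹) ^ 2 := by
            apply mul_le_mul h1 h2 (by positivity) h3
        _ = (|A| + 1) / R := by field_simp
    have h0 : ‖p k‖ ≤ 0 := by
      have ht : Tendsto (fun R : ℝ => (|A| + 1) / R) atTop (𝓝 0) := tendsto_const_nhds.div_atTop tendsto_id
      exact ge_of_tendsto ht ((eventually_ge_atTop 1).mono fun R hR => hbd R hR)
    exact norm_le_zero_iff.mp h0
  refine ⟨p 1 (fun _ => 1), p 0 (fun _ => 0), fun z => ?_⟩
  have hs := hp.hasSum (y := z) (by simp)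
  rw [zero_add] at hs
  have hs2 : HasSum (fun n : ℕ => p n fun _ => z) (∑ n ∈ Finset.range 2, p n fun _ => z) := by
    apply hasSum_sum_of_ne_finset_zero
    intro n hn
    have : 2 ≤ n := by
      rw [Finset.mem_range, not_lt] at hn
      exact hn
    rw [hzero n this]
    rfl
  rw [hs.unique hs2, Finset.sum_range_succ, Finset.sum_range_one]
  have h1 : (p 1 fun _ => z) = p 1 (fun _ => 1) * z := by
    have := (p 1).map_smul_univ (fun _ => z) (fun _ => (1:ℂ))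
    simp only [smul_eq_mul, mul_one, Finset.prod_const, Finset.card_univ, Fintype.card_fin, pow_one] at this
    rw [this]; ring
  have h0 : (p 0 fun _ => z) = p 0 (fun _ => 0) := by
    congr 1
    ext i
    exact i.elim0
  rw [h1, h0]
  ring

end Pool.Agent.H62.EF
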