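import Pool.Agent.H62.EF.TorA
import Mathlib.Analysis.Complex.HasPrimitives

/-!
# EF TorB: lifting `u ∘ F` to a holomorphic function

Local: for `z₁` in the domain let `v` be the local lift of `u` at `F z₁`; `E = v ∘ F` is analytic at `z₁`, `u (F z) - E z ∈ Λ` near `z₁`.  Two such
local lifts differ near `z₁` by a continuous function with values in `Λ`, so by a constant; so the function
`d z₁ = deriv (E_{z₁}) z₁` is `deriv E_{z₁}` near `z₁`, and `d` is holomorphic.  On the ball it has a primitive `D`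
(`DifferentiableOn.isExactOn_ball` in `Mathlib/Analysis/Complex/HasPrimitives.lean`); normalise `D z₀ = u (F z₀)`.  Near every `z₁` the function `D - E_{z₁}` is
constant.  The set of the `z₁` in the ball with `u (F z₁) - D z₁ ∈ Λ` contains `z₀`, it is open and its complement is open (near `z₁`
`u (F z) - D z = (E_{z₁} - D) + (element of Λ)`), so it is the ball.
`lift`: for every `n` take the lift `D_n` on `ball 0 (n + 1)`, normalised by `D_n 0 = u (F 0)`; `D_m = D_n` on the smaller ball (`Lat.const`);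
`D z = D_n z` for `n > ‖z‖`.
`lift_sub`: the difference of two lifts is constant.
-/

set_option autoImplicit false

open Topology Filter Metric

namespace Pool.Agent.H62.EF

open Pool.Agent.H36.BP (EN fs wd)
open Pool.Agent.H14.PP (IsCone)

variable {N : ℕ} {X : Set (EN N)} {Λ : AddSubgroup ℂ} {u : EN N → ℂ}

/-- local lifts -/
private theorem torB_local (hu : TorusMap X Λ u) {F : ℂ → EN N} {z₁ : ℂ} (hF : AnalyticAt ℂ F z₁)
    (hX₁ : F z₁ ∈ X) (hFX : ∀ᶠ z in 𝓝 z₁, F z ∈ X) :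
    ∃ E : ℂ → ℂ, AnalyticAt ℂ E z₁ ∧ ∀ᶠ z in 𝓝 z₁, u (F z) - E z ∈ Λ := by
  obtain ⟨v, hv, hv2⟩ := hu.loc (F z₁) hX₁
  refine ⟨v ∘ F, hv.comp hF, ?_⟩
  filter_upwards [hF.continuousAt.eventually hv2, hFX] with z h1 h2
  exact h1 h2

/-- two local lifts differ by a constant -/
private theorem torB_const (hΛ : Lat Λ) {w : ℂ → ℂ} {E E' : ℂ → ℂ} {z₁ : ℂ} (hE : AnalyticAt ℂ E z₁)
    (hE' : AnalyticAt ℂ E' z₁) (h : ∀ᶠ z in 𝓝 z₁, w z - E z ∈ Λ)
    (h' : ∀ᶠ z in 𝓝 z₁, w z - E' z ∈ Λ) : ∃ c : ℂ, ∀ᶠ z in 𝓝 z₁, E z = E' z + c := by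
  obtain ⟨ε, hε, hb⟩ := Metric.eventually_nhds_iff_ball.mp
    (hE.eventually_analyticAt.and (hE'.eventually_analyticAt.and (h.and h')))
  have hc : ContinuousOn (fun z => E z - E' z) (ball z₁ ε) := fun z hz =>
    ((hb z hz).1.continuousAt.sub (hb z hz).2.1.continuousAt).continuousWithinAt
  have hm : ∀ z ∈ ball z₁ ε, E z - E' z ∈ Λ := by
    intro z hz
    have := Λ.sub_mem (hb z hz).2.2.2 (hb z hz).2.2.1
    simpa using this
  have hk := hΛ.const (convex_ball z₁ ε).isPreconnected hc hm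
  refine ⟨E z₁ - E' z₁, ?_⟩
  filter_upwards [ball_mem_nhds z₁ hε] with z hz
  have h5 : E z - E' z = E z₁ - E' z₁ := hk z hz z₁ (mem_ball_self hε)
  rw [← h5]
  ring

/-- the lift on a domain where holomorphic functions have primitives -/
private theorem torB_gen (hu : TorusMap X Λ u) (hΛ : Lat Λ) {F : ℂ → EN N} {U : Set ℂ} (hU : IsOpen U)
    (hUc : IsPreconnected U) (hex : ∀ d : ℂ → ℂ, DifferentiableOn ℂ d U → Complex.IsExactOn d U)
    {z₀ : ℂ} (hz₀ : z₀ ∈ U) (hF : DifferentiableOn ℂ F U) (hFX : ∀ z ∈ U, F z ∈ X) :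
    ∃ D : ℂ → ℂ, DifferentiableOn ℂ D U ∧ D z₀ = u (F z₀) ∧ ∀ z ∈ U, u (F z) - D z ∈ Λ := by
  have h1 : ∀ z₁ : ℂ, ∃ E : ℂ → ℂ, z₁ ∈ U →
      AnalyticAt ℂ E z₁ ∧ ∀ᶠ z in 𝓝 z₁, u (F z) - E z ∈ Λ := by
    intro z₁
    by_cases hz : z₁ ∈ U
    · obtain ⟨E, hE⟩ := torB_local hu (hF.analyticAt (hU.mem_nhds hz)) (hFX _ hz)
        (by filter_upwards [hU.mem_nhds hz] with z h using hFX z h)
      exact ⟨E, fun _ => hE⟩
    · exact ⟨0, fun h => absurd h hz⟩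
  choose E hE using h1
  set d : ℂ → ℂ := fun z => deriv (E z) z with hd
  have h2 : ∀ z₁ ∈ U, d =ᶠ[𝓝 z₁] deriv (E z₁) := by
    intro z₁ hz₁
    obtain ⟨hA, hL⟩ := hE z₁ hz₁
    filter_upwards [hA.eventually_analyticAt, hL.eventually_nhds, hU.mem_nhds hz₁] with z hz1 hz2 hz3
    obtain ⟨hA', hL'⟩ := hE z hz3
    obtain ⟨c, hc⟩ := torB_const hΛ hA' hz1 hL' hz2
    have h5 : deriv (E z) z = deriv (fun w => E z₁ w + c) z := Filter.EventuallyEq.deriv_eq hc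
    show deriv (E z) z = deriv (E z₁) z
    rw [h5, deriv_add_const]
  have h3 : DifferentiableOn ℂ d U := by
    intro z₁ hz₁
    have h5 := (hE z₁ hz₁).1.deriv
    exact (h5.differentiableAt.congr_of_eventuallyEq (h2 z₁ hz₁)).differentiableWithinAt
  obtain ⟨D, hD0, hD⟩ := (hex d h3).with_val_at z₀ (u (F z₀))
  refine ⟨D, fun z hz => (hD z hz).differentiableAt.differentiableWithinAt, hD0, ?_⟩
  have h4 : ∀ z₁ ∈ U, ∃ c : ℂ, ∀ᶠ z in 𝓝 z₁, D z = E z₁ z + c := by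
    intro z₁ hz₁
    obtain ⟨hA, _⟩ := hE z₁ hz₁
    obtain ⟨ε, hε, hb⟩ := Metric.eventually_nhds_iff_ball.mp
      (hA.eventually_analyticAt.and ((h2 z₁ hz₁).and (hU.mem_nhds hz₁)))
    obtain ⟨c, hc⟩ := isOpen_ball.exists_eq_add_of_deriv_eq (convex_ball z₁ ε).isPreconnected
      (f := D) (g := E z₁)
      (fun z hz => (hD z (hb z hz).2.2).differentiableAt.differentiableWithinAt)
      (fun z hz => (hb z hz).1.differentiableAt.differentiableWithinAt)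
      (fun z hz => by rw [(hD z (hb z hz).2.2).deriv]; exact (hb z hz).2.1)
    refine ⟨c, ?_⟩
    filter_upwards [ball_mem_nhds z₁ hε] with z hz
    exact hc hz
  have h5 : ∀ z₁ ∈ U, ∀ᶠ z in 𝓝 z₁, (u (F z₁) - D z₁ ∈ Λ ↔ u (F z) - D z ∈ Λ) := by
    intro z₁ hz₁
    obtain ⟨c, hc⟩ := h4 z₁ hz₁
    obtain ⟨_, hL⟩ := hE z₁ hz₁
    have h6 : ∀ z, D z = E z₁ z + c → u (F z) - E z₁ z ∈ Λ → (u (F z) - D z ∈ Λ ↔ c ∈ Λ) := by
      intro z ha hb
      have h7 : u (F z) - D z = (u (F z) - E z₁ z) - c := by rw [ha]; ring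
      rw [h7]
      constructor
      · intro h8
        have := Λ.sub_mem hb h8
        simpa using this
      · intro h8
        exact Λ.sub_mem hb h8
    have h7 := h6 z₁ hc.self_of_nhds hL.self_of_nhds
    filter_upwards [hc, hL] with z ha hb
    rw [h7, h6 z ha hb]
  intro z hz
  have h6 := hUc.induction₂ (fun a b => (u (F a) - D a ∈ Λ ↔ u (F b) - D b ∈ Λ))
    (fun x hx => (h5 x hx).filter_mono nhdsWithin_le_nhds)
    (fun x y w _ _ _ h h' => h.trans h') (fun x y _ _ h => h.symm) hz₀ hz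
  apply h6.mp
  rw [hD0, sub_self]
  exact Λ.zero_mem

theorem TorusMap.lift_ball (hu : TorusMap X Λ u) (hΛ : Lat Λ) {F : ℂ → EN N} {z₀ : ℂ} {r : ℝ} (hr : 0 < r)
    (hF : DifferentiableOn ℂ F (ball z₀ r)) (hFX : ∀ z ∈ ball z₀ r, F z ∈ X) :
    ∃ D : ℂ → ℂ, DifferentiableOn ℂ D (ball z₀ r) ∧ D z₀ = u (F z₀) ∧ ∀ z ∈ ball z₀ r, u (F z) - D z ∈ Λ :=
  torB_gen hu hΛ isOpen_ball (convex_ball z₀ r).isPreconnected (fun _ hd => hd.isExactOn_ball)
    (mem_ball_self hr) hF hFX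

theorem TorusMap.lift (hu : TorusMap X Λ u) (hΛ : Lat Λ) {F : ℂ → EN N} (hF : Differentiable ℂ F) (hFX : ∀ z, F z ∈ X) :
    ∃ D : ℂ → ℂ, Differentiable ℂ D ∧ ∀ z, u (F z) - D z ∈ Λ := by
  obtain ⟨D, hD, _, hL⟩ := torB_gen hu hΛ isOpen_univ isPreconnected_univ
    (fun d hd => (differentiableOn_univ.mp hd).isExactOn_univ) (Set.mem_univ (0 : ℂ))
    hF.differentiableOn (fun z _ => hFX z)
  exact ⟨D, differentiableOn_univ.mp hD, fun z => hL z (Set.mem_univ z)⟩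

end Pool.Agent.H62.EF
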