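import Pool.Agent.H62.EF.TorA

/-!
# EF TorC: the derivative of `u` is bounded with respect to the Fubini-Study metric

Local bound: let `x ∈ X`, `v` the local lift of `u` at `x`, analytic near `x`.  For `y ∈ X` near `x`: `v (c • y) - v y ∈ Λ` for `c` near `1`
(`u (c • y) - u y ∈ Λ`), it tends to `0` for `c → 1`, so it is `0` for `c` near `1` and `fderiv ℂ v y y = 0`.  Let `F` be analytic at `z` with `F z = y`,
values in `X` near `z`, `D` analytic at `z`, `u (F w) - D w ∈ Λ` near `z`.  `D - v ∘ F` is continuous with values in `Λ` near `z`, so constant: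
`D' z = fderiv ℂ v y (F' z) = fderiv ℂ v y (F' z - a • y)` for every `a`; with `a = ⟨y, F' z⟩ / ‖y‖²`: `‖F' z - a y‖ = wd y (F' z) / ‖y‖`
(`wd_sq`), so `‖D' z‖ ≤ ‖fderiv ℂ v y‖ * ‖y‖ * fs y (F' z)`, and `‖fderiv ℂ v y‖ ‖y‖` is bounded for `y` near `x`.
Global: `X ∩ sphere 0 1` is compact; finitely many neighbourhoods as above cover it.  For general `F`, `z` replace `F` by
`c • F` with the constant `c = 1 / ‖F z‖`: `fs` does not change (`fs (c x) (c v) = fs x v`), and `u (c • F w) - u (F w) ∈ Λ`.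
-/

set_option autoImplicit false

open Topology Filter Metric

namespace Pool.Agent.H62.EF

open Pool.Agent.H36.BP (EN fs wd)
open Pool.Agent.H14.PP (IsCone)

variable {N : ℕ} {X : Set (EN N)} {Λ : AddSubgroup ℂ} {u : EN N → ℂ}

/-- the bound at the points over `y` -/
private def Bd (X : Set (EN N)) (Λ : AddSubgroup ℂ) (u : EN N → ℂ) (C : ℝ) (y : EN N) : Prop :=
  ∀ (F : ℂ → EN N) (D : ℂ → ℂ) (z : ℂ), AnalyticAt ℂ F z → (∀ᶠ w in 𝓝 z, F w ∈ X) → F z = y → AnalyticAt ℂ D z →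
      (∀ᶠ w in 𝓝 z, u (F w) - D w ∈ Λ) → ‖deriv D z‖ ≤ C * fs (F z) (deriv F z)

private theorem euler (hX : IsCone X) (hu : TorusMap X Λ u) (hΛ : Lat Λ) {v : EN N → ℂ} {y : EN N} (hy : y ∈ X)
    (hv : AnalyticAt ℂ v y) (hvu : ∀ᶠ w in 𝓝 y, w ∈ X → u w - v w ∈ Λ) : fderiv ℂ v y y = 0 := by
  obtain ⟨δ, hδ, hd⟩ := hΛ.discrete
  have h1 : HasDerivAt (fun c : ℂ => c • y) y 1 := by
    simpa using (hasDerivAt_id (1 : ℂ)).smul_const y
  have h2 : HasFDerivAt v (fderiv ℂ v y) ((1 : ℂ) • y) := by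
    rw [one_smul]; exact hv.differentiableAt.hasFDerivAt
  have h3 : HasDerivAt (fun c : ℂ => v (c • y)) (fderiv ℂ v y y) 1 := h2.comp_hasDerivAt (1 : ℂ) h1
  have hct : Tendsto (fun c : ℂ => c • y) (𝓝 1) (𝓝 y) := by
    simpa using h1.continuousAt.tendsto
  have hsm : ∀ᶠ c in 𝓝 (1 : ℂ), ‖v (c • y) - v y‖ < δ := by
    have h4 : Tendsto (fun c : ℂ => ‖v (c • y) - v y‖) (𝓝 1) (𝓝 0) := by
      have := (hv.continuousAt.tendsto.comp hct).sub_const (v y)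
      simpa using this.norm
    exact h4.eventually (gt_mem_nhds hδ)
  have hne : ∀ᶠ c in 𝓝 (1 : ℂ), c ≠ 0 := isOpen_ne.mem_nhds one_ne_zero
  have h0 : u y - v y ∈ Λ := hvu.self_of_nhds hy
  have hz : ∀ᶠ c in 𝓝 (1 : ℂ), v (c • y) = v y := by
    filter_upwards [hsm, hne, hct.eventually hvu] with c h5 h6 h7
    have h8 : u (c • y) - v (c • y) ∈ Λ := h7 (hX.smul_mem y hy c h6)
    have h9 : u (c • y) - u y ∈ Λ := hu.smul y hy c h6
    have h10 : v (c • y) - v y ∈ Λ := by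
      have := Λ.add_mem (Λ.sub_mem h9 h8) h0
      have e : u (c • y) - u y - (u (c • y) - v (c • y)) + (u y - v y) = v (c • y) - v y := by ring
      rwa [e] at this
    exact sub_eq_zero.mp (hd _ h10 h5)
  have h11 : HasDerivAt (fun c : ℂ => v (c • y)) 0 1 :=
    (hasDerivAt_const (1 : ℂ) (v y)).congr_of_eventuallyEq hz
  exact h3.unique h11

private theorem chain (hΛ : Lat Λ) {v : EN N → ℂ} {F : ℂ → EN N} {D : ℂ → ℂ} {z : ℂ}
    (hv : AnalyticAt ℂ v (F z)) (hvu : ∀ᶠ w in 𝓝 (F z), w ∈ X → u w - v w ∈ Λ) (hF : AnalyticAt ℂ F z)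
    (hFX : ∀ᶠ w in 𝓝 z, F w ∈ X) (hD : AnalyticAt ℂ D z) (hDu : ∀ᶠ w in 𝓝 z, u (F w) - D w ∈ Λ) :
    deriv D z = fderiv ℂ v (F z) (deriv F z) := by
  obtain ⟨δ, hδ, hd⟩ := hΛ.discrete
  have h1 : HasDerivAt (fun w => v (F w)) (fderiv ℂ v (F z) (deriv F z)) z :=
    hv.differentiableAt.hasFDerivAt.comp_hasDerivAt z hF.differentiableAt.hasDerivAt
  have h2 : HasDerivAt D (deriv D z) z := hD.differentiableAt.hasDerivAt
  have h3 : HasDerivAt (fun w => D w - v (F w)) (deriv D z - fderiv ℂ v (F z) (deriv F z)) z := h2.sub h1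
  have hmem : ∀ᶠ w in 𝓝 z, D w - v (F w) ∈ Λ := by
    filter_upwards [hFX, hDu, hF.continuousAt.tendsto.eventually hvu] with w h4 h5 h6
    have := Λ.sub_mem (h6 h4) h5
    have e : u (F w) - v (F w) - (u (F w) - D w) = D w - v (F w) := by ring
    rwa [e] at this
  have hm0 := hmem.self_of_nhds
  have hsm : ∀ᶠ w in 𝓝 z, ‖(D w - v (F w)) - (D z - v (F z))‖ < δ := by
    have h4 : Tendsto (fun w => ‖(D w - v (F w)) - (D z - v (F z))‖) (𝓝 z) (𝓝 0) := by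
      have := h3.continuousAt.tendsto.sub_const (D z - v (F z))
      simpa using this.norm
    exact h4.eventually (gt_mem_nhds hδ)
  have hz : (fun w => D w - v (F w)) =ᶠ[𝓝 z] fun _ => D z - v (F z) := by
    filter_upwards [hmem, hsm] with w h5 h6
    exact sub_eq_zero.mp (hd _ (Λ.sub_mem h5 hm0) h6)
  have h11 : HasDerivAt (fun w => D w - v (F w)) 0 z :=
    (hasDerivAt_const z (D z - v (F z))).congr_of_eventuallyEq hz
  exact sub_eq_zero.mp (h3.unique h11)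

private theorem perp (y w : EN N) (hy : y ≠ 0) : ∃ a : ℂ, ‖w - a • y‖ = ‖y‖ * fs y w := by
  have hyn : (‖y‖ : ℝ) ≠ 0 := norm_ne_zero_iff.mpr hy
  have hyc : ((‖y‖ : ℝ) : ℂ) ≠ 0 := by exact_mod_cast hyn
  refine ⟨inner ℂ y w / ((‖y‖ : ℝ) : ℂ) ^ 2, ?_⟩
  set a : ℂ := inner ℂ y w / ((‖y‖ : ℝ) : ℂ) ^ 2 with ha
  have h1 : inner ℂ y (w - a • y) = 0 := by
    rw [inner_sub_right, inner_smul_right, inner_self_eq_norm_sq_to_K]
    simp only [Complex.coe_algebraMap]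
    rw [ha]
    field_simp
    ring
  have h2 : wd y (w - a • y) = wd y w := by
    have := Pool.Agent.H36.BP.wd_inv y w 1 (-a)
    simp only [one_smul, norm_one, one_pow, one_mul] at this
    rw [← this]
    congr 1
    rw [neg_smul, sub_eq_add_neg]
  have h3 : wd y w ^ 2 = (‖y‖ * ‖w - a • y‖) ^ 2 := by
    rw [← h2, Pool.Agent.H36.BP.wd_sq, h1]
    simp
    ring
  have h4 : wd y w = ‖y‖ * ‖w - a • y‖ :=
    (sq_eq_sq₀ (Pool.Agent.H36.BP.wd_nonneg y w) (by positivity)).mp h3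
  unfold fs
  rw [h4]
  field_simp

private theorem du_local (hX : IsCone X) (hu : TorusMap X Λ u) (hΛ : Lat Λ) (x : EN N) (hx : x ∈ X) :
    ∃ C : ℝ, 0 < C ∧ ∀ᶠ y in 𝓝 x, y ∈ X → Bd X Λ u C y := by
  obtain ⟨v, hv, hvu⟩ := hu.loc x hx
  have hcont : ContinuousAt (fun y => ‖fderiv ℂ v y‖ * ‖y‖) x :=
    hv.fderiv.continuousAt.norm.mul continuous_norm.continuousAt
  refine ⟨‖fderiv ℂ v x‖ * ‖x‖ + 1, by positivity, ?_⟩
  have hb : ∀ᶠ y in 𝓝 x, ‖fderiv ℂ v y‖ * ‖y‖ < ‖fderiv ℂ v x‖ * ‖x‖ + 1 :=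
    hcont.tendsto.eventually (gt_mem_nhds (lt_add_one _))
  filter_upwards [hb, hv.eventually_analyticAt, hvu.eventually_nhds] with y h1 h2 h3 hy
  intro F D z hF hFX hFz hD hDu
  subst hFz
  have hyne : F z ≠ 0 := fun h => hX.zero_notMem (h ▸ hy)
  have h4 := euler hX hu hΛ hy h2 h3
  have h5 := chain hΛ h2 h3 hF hFX hD hDu
  obtain ⟨a, ha⟩ := perp (F z) (deriv F z) hyne
  have h6 : deriv D z = fderiv ℂ v (F z) (deriv F z - a • F z) := by
    rw [map_sub, map_smul, h4, smul_zero, sub_zero, h5]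
  have hfs := Pool.Agent.H36.BP.fs_nonneg (F z) (deriv F z)
  calc ‖deriv D z‖ = ‖fderiv ℂ v (F z) (deriv F z - a • F z)‖ := by rw [h6]
    _ ≤ ‖fderiv ℂ v (F z)‖ * ‖deriv F z - a • F z‖ := ContinuousLinearMap.le_opNorm _ _
    _ = (‖fderiv ℂ v (F z)‖ * ‖F z‖) * fs (F z) (deriv F z) := by rw [ha]; ring
    _ ≤ (‖fderiv ℂ v x‖ * ‖x‖ + 1) * fs (F z) (deriv F z) := mul_le_mul_of_nonneg_right h1.le hfs

private theorem Bd.mono {C C' : ℝ} {y : EN N} (h : Bd X Λ u C y) (hC : C ≤ C') : Bd X Λ u C' y := by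
  intro F D z h1 h2 h3 h4 h5
  exact (h F D z h1 h2 h3 h4 h5).trans
    (mul_le_mul_of_nonneg_right hC (Pool.Agent.H36.BP.fs_nonneg _ _))

private theorem du_sphere (hX : IsCone X) (hu : TorusMap X Λ u) (hΛ : Lat Λ) :
    ∃ C : ℝ, 0 < C ∧ ∀ y ∈ X ∩ sphere (0 : EN N) 1, Bd X Λ u C y := by
  have hc : IsCompact (X ∩ sphere (0 : EN N) 1) := by
    have h1 : X ∩ sphere (0 : EN N) 1 = sphere (0 : EN N) 1 ∩ insert 0 X := by
      ext y
      constructor
      · rintro ⟨h2, h3⟩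
        exact ⟨h3, Or.inr h2⟩
      · rintro ⟨h2, h3⟩
        rcases h3 with h3 | h3
        · exfalso
          rw [h3] at h2
          simp at h2
        · exact ⟨h3, h2⟩
    rw [h1]
    exact (isCompact_sphere (0 : EN N) 1).inter_right hX.closed
  refine hc.induction_on (p := fun s => ∃ C : ℝ, 0 < C ∧ ∀ y ∈ s, Bd X Λ u C y)
    ⟨1, one_pos, fun y hy => absurd hy (Set.notMem_empty y)⟩ ?_ ?_ ?_
  · rintro s t hst ⟨C, hC, h⟩
    exact ⟨C, hC, fun y hy => h y (hst hy)⟩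
  · rintro s t ⟨C, hC, h⟩ ⟨C', hC', h'⟩
    refine ⟨max C C', lt_max_of_lt_left hC, ?_⟩
    rintro y (hy | hy)
    · exact (h y hy).mono (le_max_left _ _)
    · exact (h' y hy).mono (le_max_right _ _)
  · intro x hx
    obtain ⟨C, hC, h⟩ := du_local hX hu hΛ x hx.1
    refine ⟨(X ∩ sphere (0 : EN N) 1) ∩ {y | y ∈ X → Bd X Λ u C y}, ?_, C, hC, fun y hy => hy.2 hy.1.1⟩
    exact inter_mem self_mem_nhdsWithin (mem_nhdsWithin_of_mem_nhds h)

private theorem fs_scale (x w : EN N) (c : ℂ) (hc : c ≠ 0) : fs (c • x) (c • w) = fs x w := by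
  have h1 : wd (c • x) (c • w) = ‖c‖ ^ 2 * wd x w := by
    have := Pool.Agent.H36.BP.wd_inv x w c 0
    rwa [zero_smul, add_zero] at this
  have h2 : ‖c‖ ≠ 0 := norm_ne_zero_iff.mpr hc
  unfold fs
  rw [h1, norm_smul, mul_pow]
  exact mul_div_mul_left _ _ (pow_ne_zero 2 h2)

theorem TorusMap.du_bound (hX : IsCone X) (hu : TorusMap X Λ u) (hΛ : Lat Λ) : ∃ C : ℝ, 0 < C ∧
    ∀ (F : ℂ → EN N) (D : ℂ → ℂ) (z : ℂ), AnalyticAt ℂ F z → (∀ᶠ w in 𝓝 z, F w ∈ X) → AnalyticAt ℂ D z →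
      (∀ᶠ w in 𝓝 z, u (F w) - D w ∈ Λ) → ‖deriv D z‖ ≤ C * fs (F z) (deriv F z) := by
  obtain ⟨C, hC, h⟩ := du_sphere hX hu hΛ
  refine ⟨C, hC, ?_⟩
  intro F D z hF hFX hD hDu
  have hz : F z ∈ X := hFX.self_of_nhds
  have hne : F z ≠ 0 := fun h0 => hX.zero_notMem (h0 ▸ hz)
  have hn : ‖F z‖ ≠ 0 := norm_ne_zero_iff.mpr hne
  set c : ℂ := ((‖F z‖⁻¹ : ℝ) : ℂ) with hcdef
  have hc : c ≠ 0 := by
    rw [hcdef]; exact_mod_cast inv_ne_zero hn
  have hcn : ‖c‖ = ‖F z‖⁻¹ := by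
    rw [hcdef, Complex.norm_real, Real.norm_eq_abs, abs_of_nonneg (by positivity)]
  have hmem : c • F z ∈ X ∩ sphere (0 : EN N) 1 := by
    refine ⟨hX.smul_mem _ hz c hc, ?_⟩
    rw [mem_sphere_zero_iff_norm, norm_smul, hcn]
    exact inv_mul_cancel₀ hn
  have hG : AnalyticAt ℂ (fun w => c • F w) z := by
    exact (analyticAt_const : AnalyticAt ℂ (fun _ : ℂ => c) z).smul hF
  have h1 := h (c • F z) hmem (fun w => c • F w) D z hG
    (hFX.mono fun w hw => hX.smul_mem _ hw c hc) rfl hD (by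
      filter_upwards [hFX, hDu] with w h2 h3
      have := Λ.add_mem (hu.smul (F w) h2 c hc) h3
      have e : u (c • F w) - u (F w) + (u (F w) - D w) = u (c • F w) - D w := by ring
      rwa [e] at this)
  have h2 : deriv (fun w => c • F w) z = c • deriv F z := by
    exact (hF.differentiableAt.hasDerivAt.const_smul c).deriv
  simp only [h2] at h1
  rwa [fs_scale _ _ c hc] at h1

end Pool.Agent.H62.EF
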