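import Pool.Agent.H62.EF.AffA
import Pool.Agent.H62.EF.AffB
import Pool.Agent.H62.EF.TorB
import Pool.Agent.H62.EF.TorC

/-!
# EF Aff: entire curves of order two are sections up to an affine change of the variable
-/

set_option autoImplicit false

open Topology Filter Metric

namespace Pool.Agent.H62.EF

open Pool.Agent.H36.BP (EN fs wd)
open Pool.Agent.H14.PP (IsCone)

variable {N : ℕ} {X : Set (EN N)} {Λ : AddSubgroup ℂ} {u : EN N → ℂ}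

theorem affine_lift (hX : IsCone X) (hu : TorusMap X Λ u) (hΛ : Lat Λ) {F : ℂ → EN N} (hF : Differentiable ℂ F) (hFX : ∀ z, F z ∈ X)
    {A : ℝ} (hA : ∀ r : ℝ, 0 < r → Real.circleAverage (fun z => Real.log ‖F z‖) 0 r ≤ A * (1 + r ^ 2)) :
    ∃ α β : ℂ, ∀ z, u (F z) - (α * z + β) ∈ Λ := by
  obtain ⟨D, hD, hDu⟩ := hu.lift hΛ hF hFX
  obtain ⟨C, hC, hCb⟩ := hu.du_bound hX hΛ
  have h0 : ∀ z, F z ≠ 0 := fun z h => hX.zero_notMem (h ▸ hFX z)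
  obtain ⟨c, hc, hcC⟩ : ∃ c : ℝ, 0 < c ∧ c * C ^ 2 = 1 / 2 := ⟨1 / (2 * C ^ 2), by positivity, by field_simp⟩
  have hfs : ∀ z, c * ‖deriv D z‖ ^ 2 ≤ fs (F z) (deriv F z) ^ 2 / 2 := by
    intro z
    have h1 := hCb F D z (hF.analyticAt z) (Filter.Eventually.of_forall hFX) (hD.analyticAt z) (Filter.Eventually.of_forall hDu)
    have h2 : ‖deriv D z‖ ^ 2 ≤ (C * fs (F z) (deriv F z)) ^ 2 := pow_le_pow_left₀ (norm_nonneg _) h1 2
    calc c * ‖deriv D z‖ ^ 2 ≤ c * (C * fs (F z) (deriv F z)) ^ 2 := mul_le_mul_of_nonneg_left h2 hc.le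
      _ = (c * C ^ 2) * fs (F z) (deriv F z) ^ 2 := by ring
      _ = fs (F z) (deriv F z) ^ 2 / 2 := by rw [hcC]; ring
  obtain ⟨α, β, hαβ⟩ := affine_of_mean hD (A := (4 + |A| + |Real.log ‖F 0‖| + c * ‖D 0‖ ^ 2) / c) (by
    intro r hr
    have h1 := mean_ineq hF h0 hD hc hfs hr
    have h2 := hA r hr
    have h3 : (0 : ℝ) ≤ r ^ 2 := sq_nonneg r
    rw [div_mul_eq_mul_div, le_div_iff₀ hc, mul_comm]
    have h4 : A * (1 + r ^ 2) ≤ |A| * (1 + r ^ 2) := mul_le_mul_of_nonneg_right (le_abs_self A) (by linarith)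
    have h5 := neg_abs_le (Real.log ‖F 0‖)
    have h6 : (0 : ℝ) ≤ c * ‖D 0‖ ^ 2 := by positivity
    have h7 := abs_nonneg (Real.log ‖F 0‖)
    have h8 : (4 + |Real.log ‖F 0‖| + c * ‖D 0‖ ^ 2) * 1 ≤ (4 + |Real.log ‖F 0‖| + c * ‖D 0‖ ^ 2) * (1 + r ^ 2) :=
      mul_le_mul_of_nonneg_left (by linarith) (by linarith)
    nlinarith)
  exact ⟨α, β, fun z => by rw [← hαβ]; exact hDu z⟩

end Pool.Agent.H62.EF
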