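import Pool.Agent.H62.EF.TorA
import Pool.Agent.H36.BP.WdA

/-!
# EF DUl: the derivative of `u`

* `chart_imm`: let `x = χ.σ p`, `v = dσ_p e`, `wd x v = 0`, so `v = a • x` (`x ≠ 0` because `0 ∉ X`).  `χ.q (χ.σ p') = p'` near `p` gives
  `dq_x (dσ_p e) = e`; `χ.q (c • x) = χ.q x` for `c ≠ 0` gives `dq_x x = 0`.  So `e = dq_x v = a dq_x x = 0`.
* `key`: let `v` be a local lift of `u` at `x` (`TorusMap.loc`), `γ`, `D` as in `DU`: `D - v ∘ γ` is continuous near `0` with values in `Λ`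
  (`u (γ z) - v (γ z) ∈ Λ`), so constant near `0`, `D' 0 = dv_x (γ' 0)`.  `DU.unique` follows.
* `DU.of_chart`: `γ z = χ.σ (p + z e)`, `D z = υ (p + z e)`.
* `DU.chart`: near `0`, `γ z ∈ X ∩ χ.U`, `π z = χ.q (γ z)` is analytic with `π 0 = p`, and `γ z = a z • χ.σ (π z)` with
  `a z ≠ 0` (`surj`); `a` is analytic (e.g. `a z = ⟨χ.σ p, γ z⟩ / ⟨χ.σ p, χ.σ (π z)⟩`, near `0`), `a 0 = 1` (`γ 0 = χ.σ p ≠ 0`); so
  `v = γ' 0 = dσ_p (π' 0) + a' 0 • χ.σ p`, and `u (γ z) - υ (π z) ∈ Λ` near `0` (`smul`, `lift`), so `D - υ ∘ π` is constant near `0` and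
  `c = dυ_p (π' 0)`.
* `DU.smul`: `c • γ`.
* `DU.of_sec`: `γ z = F (z₀ + z)`, `D z = z₀ + z`.
* `exists_adm`: take the chart `χ` at `x` (`χ.q x = 0`, `x = a • χ.σ 0` with `a ≠ 0`), `v` a local lift of `u` at `χ.σ 0 ∈ X`, `υ = v ∘ χ.σ`, analytic at `0`, and
  `u (χ.σ p) - υ p ∈ Λ` near `0`.  `DU (χ.σ 0) (a⁻¹ • w) c` (`DU.smul`); as in `DU.chart` `c = dυ_0 (π' 0)`, so `dυ_0 ≠ 0` and
  `dυ_p ≠ 0` near `0`.  Choose `s < 2` small.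
-/

set_option autoImplicit false

open Topology Filter Metric

namespace Pool.Agent.H62.EF

open Pool.Agent.H36.BP (EN fs wd)
open Pool.Agent.H14.PP (IsCone Chart Form Tan aCoef)

variable {N : ℕ} {X : Set (EN N)} {Λ : AddSubgroup ℂ} {u : EN N → ℂ}

private lemma near_const (hΛ : Lat Λ) {E : ℂ → ℂ} (hE : ContinuousAt E 0) (h : ∀ᶠ z in 𝓝 (0 : ℂ), E z ∈ Λ) :
    ∀ᶠ z in 𝓝 (0 : ℂ), E z = E 0 := by
  obtain ⟨δ, hδ, hd⟩ := hΛ.discrete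
  have h0 : E 0 ∈ Λ := h.self_of_nhds
  have h1 : ∀ᶠ z in 𝓝 (0 : ℂ), ‖E z - E 0‖ < δ := by
    have h2 : Tendsto (fun z => ‖E z - E 0‖) (𝓝 (0 : ℂ)) (𝓝 ‖E 0 - E 0‖) :=
      ((hE.sub continuousAt_const).norm).tendsto
    rw [sub_self, norm_zero] at h2
    exact h2.eventually_lt_const hδ
  filter_upwards [h, h1] with z hz hz1
  exact sub_eq_zero.1 (hd _ (Λ.sub_mem hz h0) hz1)

private lemma near_deriv (hΛ : Lat Λ) {D B : ℂ → ℂ} (hD : AnalyticAt ℂ D 0) (hB : AnalyticAt ℂ B 0)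
    (h : ∀ᶠ z in 𝓝 (0 : ℂ), D z - B z ∈ Λ) : deriv D 0 = deriv B 0 := by
  have h1 := near_const hΛ (E := fun z => D z - B z) (hD.continuousAt.sub hB.continuousAt) h
  have h2 : deriv (fun z => D z - B z) 0 = 0 := by
    have h3 : (fun z => D z - B z) =ᶠ[𝓝 (0 : ℂ)] fun _ => D 0 - B 0 := h1
    rw [h3.deriv_eq, deriv_const]
  have h4 : deriv (fun z => D z - B z) 0 = deriv D 0 - deriv B 0 :=
    deriv_fun_sub hD.differentiableAt hB.differentiableAt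
  rw [h4] at h2
  exact sub_eq_zero.1 h2

private lemma key (hΛ : Lat Λ) {γ : ℂ → EN N} {D : ℂ → ℂ} {x : EN N} {w : EN N → ℂ}
    (hw : AnalyticAt ℂ w x) (hwl : ∀ᶠ y in 𝓝 x, y ∈ X → u y - w y ∈ Λ) (h1 : AnalyticAt ℂ γ 0)
    (h2 : ∀ᶠ z in 𝓝 (0 : ℂ), γ z ∈ X) (h3 : γ 0 = x) (h4 : AnalyticAt ℂ D 0)
    (h5 : ∀ᶠ z in 𝓝 (0 : ℂ), u (γ z) - D z ∈ Λ) : deriv D 0 = fderiv ℂ w x (deriv γ 0) := by
  subst h3
  have hc : Tendsto γ (𝓝 (0 : ℂ)) (𝓝 (γ 0)) := h1.continuousAt.tendsto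
  have hB : AnalyticAt ℂ (fun z => w (γ z)) 0 := AnalyticAt.fun_comp hw h1
  have h6 : ∀ᶠ z in 𝓝 (0 : ℂ), D z - w (γ z) ∈ Λ := by
    filter_upwards [h2, h5, hc.eventually hwl] with z hz hz1 hz2
    have h7 := Λ.sub_mem (hz2 hz) hz1
    have h8 : u (γ z) - w (γ z) - (u (γ z) - D z) = D z - w (γ z) := by ring
    rwa [h8] at h7
  rw [near_deriv hΛ h4 hB h6]
  exact (hw.differentiableAt.hasFDerivAt.comp_hasDerivAt 0 h1.differentiableAt.hasDerivAt).deriv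

private lemma q_kill (χ : Chart X) {x : EN N} (hx : x ∈ χ.U) : fderiv ℂ χ.q x x = 0 := by
  have h1 : HasDerivAt (fun c : ℂ => c • x) x 1 := by
    have h2 := (hasDerivAt_id (1 : ℂ)).smul_const x
    simpa using h2
  have hd : HasFDerivAt χ.q (fderiv ℂ χ.q x) ((1 : ℂ) • x) := by
    rw [one_smul]
    exact (χ.q_an x hx).differentiableAt.hasFDerivAt
  have h3 : HasDerivAt (fun c : ℂ => χ.q (c • x)) (fderiv ℂ χ.q x x) 1 := hd.comp_hasDerivAt (1 : ℂ) h1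
  have h4 : (fun c : ℂ => χ.q (c • x)) =ᶠ[𝓝 (1 : ℂ)] fun _ => χ.q x := by
    filter_upwards [eventually_ne_nhds (one_ne_zero : (1 : ℂ) ≠ 0)] with c hc
    exact χ.q_smul x hx c hc
  rw [← h3.deriv, h4.deriv_eq, deriv_const]

private lemma q_inv (χ : Chart X) {p : ℂ × ℂ} (hp : p ∈ ball (0 : ℂ × ℂ) 2) (e : ℂ × ℂ) :
    fderiv ℂ χ.q (χ.σ p) (fderiv ℂ χ.σ p e) = e := by
  have h1 : HasFDerivAt χ.σ (fderiv ℂ χ.σ p) p := (χ.σ_an p hp).differentiableAt.hasFDerivAt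
  have h2 : HasFDerivAt χ.q (fderiv ℂ χ.q (χ.σ p)) (χ.σ p) :=
    (χ.q_an _ (χ.σ_mem p hp).2.1).differentiableAt.hasFDerivAt
  have h3 := h2.comp p h1
  have h4 : (fun p' => χ.q (χ.σ p')) =ᶠ[𝓝 p] fun p' => p' := by
    filter_upwards [isOpen_ball.mem_nhds hp] with p' hp'
    exact (χ.σ_mem p' hp').2.2
  have h5 : HasFDerivAt (fun p' => χ.q (χ.σ p')) (ContinuousLinearMap.id ℂ (ℂ × ℂ)) p :=
    (hasFDerivAt_id p).congr_of_eventuallyEq h4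
  have h6 := h3.unique h5
  have h7 := congrArg (fun L : (ℂ × ℂ) →L[ℂ] (ℂ × ℂ) => L e) h6
  simpa using h7


theorem chart_imm (hX : IsCone X) (χ : Chart X) {p : ℂ × ℂ} (hp : p ∈ ball (0 : ℂ × ℂ) 2) {e : ℂ × ℂ} (he : e ≠ 0) :
    0 < wd (χ.σ p) (fderiv ℂ χ.σ p e) := by
  have hm := χ.σ_mem p hp
  have hx0 : χ.σ p ≠ 0 := fun h => hX.zero_notMem (h ▸ hm.1)
  refine lt_of_le_of_ne (Pool.Agent.H36.BP.wd_nonneg _ _) fun h0 => he ?_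
  obtain ⟨a, ha⟩ := (Pool.Agent.H36.BP.wd_eq_zero hx0).1 h0.symm
  have h1 := q_inv χ hp e
  rw [ha, map_smul, q_kill χ hm.2.1, smul_zero] at h1
  exact h1.symm

theorem DU.tan {x v : EN N} {c : ℂ} (h : DU X Λ u x v c) : Tan X x v := by
  obtain ⟨γ, D, h1, h2, h3, h4, -⟩ := h
  exact ⟨γ, ⟨h1, h2⟩, h3, h4⟩

theorem DU.unique (hu : TorusMap X Λ u) (hΛ : Lat Λ) {x v : EN N} {c c' : ℂ} (h : DU X Λ u x v c) (h' : DU X Λ u x v c') : c = c' := by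
  obtain ⟨γ, D, h1, h2, h3, h4, h5, h6, h7⟩ := h
  obtain ⟨γ', D', h1', h2', h3', h4', h5', h6', h7'⟩ := h'
  have hx : x ∈ X := by
    rw [← h3]
    exact h2.self_of_nhds
  obtain ⟨w, hw, hwl⟩ := hu.loc x hx
  rw [← h7, ← h7', key hΛ hw hwl h1 h2 h3 h5 h6, key hΛ hw hwl h1' h2' h3' h5' h6', h4, h4']

theorem DU.of_chart {χ : Chart X} {υ : ℂ × ℂ → ℂ} {s : ℝ} (h : Adm Λ u χ υ s) {p : ℂ × ℂ} (hp : p ∈ ball (0 : ℂ × ℂ) s)
    (e : ℂ × ℂ) : DU X Λ u (χ.σ p) (fderiv ℂ χ.σ p e) (fderiv ℂ υ p e) := by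
  have hp2 : p ∈ ball (0 : ℂ × ℂ) 2 := ball_subset_ball h.lt.le hp
  have hl : HasDerivAt (fun z : ℂ => p + z • e) e 0 := by
    have h2 := ((hasDerivAt_id (0 : ℂ)).smul_const e).const_add p
    simpa using h2
  have hla : AnalyticAt ℂ (fun z : ℂ => p + z • e) 0 :=
    analyticAt_const.add (analyticAt_id.smul analyticAt_const)
  have h0 : p + (0 : ℂ) • e = p := by rw [zero_smul, add_zero]
  have hev : ∀ᶠ z in 𝓝 (0 : ℂ), p + z • e ∈ ball (0 : ℂ × ℂ) s := by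
    have h3 : Tendsto (fun z : ℂ => p + z • e) (𝓝 (0 : ℂ)) (𝓝 p) := by
      have h4 := hla.continuousAt.tendsto
      rwa [h0] at h4
    exact h3.eventually (isOpen_ball.mem_nhds hp)
  have hσ : AnalyticAt ℂ χ.σ (p + (0 : ℂ) • e) := by
    rw [h0]
    exact χ.σ_an p hp2
  have hυ : AnalyticAt ℂ υ (p + (0 : ℂ) • e) := by
    rw [h0]
    exact h.an p hp
  refine ⟨fun z => χ.σ (p + z • e), fun z => υ (p + z • e), AnalyticAt.fun_comp hσ hla, ?_, by simp, ?_,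
    AnalyticAt.fun_comp hυ hla, ?_, ?_⟩
  · filter_upwards [hev] with z hz
    exact (χ.σ_mem _ (ball_subset_ball h.lt.le hz)).1
  · have h5 := hσ.differentiableAt.hasFDerivAt.comp_hasDerivAt (0 : ℂ) hl
    rw [h0] at h5
    exact h5.deriv
  · filter_upwards [hev] with z hz
    exact h.lift _ hz
  · have h5 := hυ.differentiableAt.hasFDerivAt.comp_hasDerivAt (0 : ℂ) hl
    rw [h0] at h5
    exact h5.deriv

private lemma chart_gen (hX : IsCone X) (hu : TorusMap X Λ u) (hΛ : Lat Λ) {χ : Chart X} {υ : ℂ × ℂ → ℂ}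
    {p : ℂ × ℂ} (hp : p ∈ ball (0 : ℂ × ℂ) 2) (hυ : AnalyticAt ℂ υ p)
    (hl : ∀ᶠ p' in 𝓝 p, u (χ.σ p') - υ p' ∈ Λ) {v : EN N} {c : ℂ} (hv : DU X Λ u (χ.σ p) v c) :
    ∃ (e : ℂ × ℂ) (a : ℂ), v = fderiv ℂ χ.σ p e + a • χ.σ p ∧ fderiv ℂ υ p e = c := by
  obtain ⟨γ, D, h1, h2, h3, h4, h5, h6, h7⟩ := hv
  have hm := χ.σ_mem p hp
  have hx0 : χ.σ p ≠ 0 := fun h => hX.zero_notMem (h ▸ hm.1)
  have hγc : Tendsto γ (𝓝 (0 : ℂ)) (𝓝 (χ.σ p)) := by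
    have h8 := h1.continuousAt.tendsto
    rwa [h3] at h8
  have hU : ∀ᶠ z in 𝓝 (0 : ℂ), γ z ∈ χ.U := hγc.eventually (χ.isOpen_U.mem_nhds hm.2.1)
  have hqa : AnalyticAt ℂ χ.q (γ 0) := by
    rw [h3]
    exact χ.q_an _ hm.2.1
  obtain ⟨π, hπ⟩ : ∃ π : ℂ → ℂ × ℂ, π = fun z => χ.q (γ z) := ⟨_, rfl⟩
  have hπa : AnalyticAt ℂ π 0 := by
    rw [hπ]
    exact AnalyticAt.fun_comp hqa h1
  have hπ0 : π 0 = p := by
    rw [hπ]
    change χ.q (γ 0) = p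
    rw [h3]
    exact hm.2.2
  have hσa : AnalyticAt ℂ χ.σ (π 0) := by
    rw [hπ0]
    exact χ.σ_an p hp
  have hσπ : AnalyticAt ℂ (fun z => χ.σ (π z)) 0 := AnalyticAt.fun_comp hσa hπa
  have hπc : Tendsto π (𝓝 (0 : ℂ)) (𝓝 p) := by
    have h8 := hπa.continuousAt.tendsto
    rwa [hπ0] at h8
  have hsj : ∀ᶠ z in 𝓝 (0 : ℂ), ∃ a : ℂ, a ≠ 0 ∧ γ z = a • χ.σ (π z) := by
    filter_upwards [h2, hU] with z hz hz1
    rw [hπ]
    exact (χ.surj _ hz hz1).2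
  -- the factor
  obtain ⟨L, hL⟩ : ∃ L : EN N →L[ℂ] ℂ, L = innerSL ℂ (χ.σ p) := ⟨_, rfl⟩
  have hL0 : L (χ.σ p) ≠ 0 := by
    rw [hL, innerSL_apply_apply]
    exact inner_self_ne_zero.2 hx0
  have hnum : AnalyticAt ℂ (fun z => L (γ z)) 0 := AnalyticAt.fun_comp (L.analyticAt (γ 0)) h1
  have hden : AnalyticAt ℂ (fun z => L (χ.σ (π z))) 0 := AnalyticAt.fun_comp (g := L) (f := fun z => χ.σ (π z)) (L.analyticAt (χ.σ (π 0))) hσπ
  have hden0 : L (χ.σ (π 0)) ≠ 0 := by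
    rw [hπ0]
    exact hL0
  obtain ⟨A, hA⟩ : ∃ A : ℂ → ℂ, A = fun z => L (γ z) / L (χ.σ (π z)) := ⟨_, rfl⟩
  have hAa : AnalyticAt ℂ A 0 := by
    rw [hA]
    exact hnum.fun_div hden hden0
  have hA0 : A 0 = 1 := by
    rw [hA]
    change L (γ 0) / L (χ.σ (π 0)) = 1
    rw [h3, hπ0]
    exact div_self hL0
  have hdne : ∀ᶠ z in 𝓝 (0 : ℂ), L (χ.σ (π z)) ≠ 0 := hden.continuousAt.eventually_ne hden0
  have hAe : γ =ᶠ[𝓝 (0 : ℂ)] fun z => A z • χ.σ (π z) := by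
    filter_upwards [hsj, hdne] with z hz hz1
    obtain ⟨a, ha, hza⟩ := hz
    have h8 : A z = a := by
      rw [hA]
      change L (γ z) / L (χ.σ (π z)) = a
      rw [hza, map_smul, smul_eq_mul, mul_div_assoc, div_self hz1, mul_one]
    rw [h8]
    exact hza
  have hσd : HasDerivAt (fun z => χ.σ (π z)) (fderiv ℂ χ.σ p (deriv π 0)) 0 := by
    have h8 := hσa.differentiableAt.hasFDerivAt.comp_hasDerivAt (0 : ℂ) hπa.differentiableAt.hasDerivAt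
    rw [hπ0] at h8
    exact h8
  have hder : deriv γ 0 = A 0 • fderiv ℂ χ.σ p (deriv π 0) + deriv A 0 • χ.σ (π 0) := by
    rw [hAe.deriv_eq]
    exact (hAa.differentiableAt.hasDerivAt.fun_smul hσd).deriv
  refine ⟨deriv π 0, deriv A 0, ?_, ?_⟩
  · rw [← h4, hder, hA0, one_smul, hπ0]
  · have hυ' : AnalyticAt ℂ υ (π 0) := by
      rw [hπ0]
      exact hυ
    have hB : AnalyticAt ℂ (fun z => υ (π z)) 0 := AnalyticAt.fun_comp hυ' hπa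
    have hmem : ∀ᶠ z in 𝓝 (0 : ℂ), D z - υ (π z) ∈ Λ := by
      filter_upwards [hsj, h6, hπc.eventually hl, hπc.eventually (isOpen_ball.mem_nhds hp)] with z hz hz1 hz2 hz3
      obtain ⟨a, ha, hza⟩ := hz
      have h8 := hu.smul _ (χ.σ_mem _ hz3).1 a ha
      rw [← hza] at h8
      have h9 := Λ.add_mem (Λ.sub_mem h8 hz1) hz2
      have h10 : u (γ z) - u (χ.σ (π z)) - (u (γ z) - D z) + (u (χ.σ (π z)) - υ (π z)) = D z - υ (π z) := by ring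
      rwa [h10] at h9
    rw [← h7, near_deriv hΛ h5 hB hmem]
    have h8 := hυ'.differentiableAt.hasFDerivAt.comp_hasDerivAt (0 : ℂ) hπa.differentiableAt.hasDerivAt
    rw [hπ0] at h8
    exact h8.deriv.symm

theorem DU.chart (hX : IsCone X) (hu : TorusMap X Λ u) (hΛ : Lat Λ) {χ : Chart X} {υ : ℂ × ℂ → ℂ} {s : ℝ} (h : Adm Λ u χ υ s)
    {p : ℂ × ℂ} (hp : p ∈ ball (0 : ℂ × ℂ) s) {v : EN N} {c : ℂ} (hv : DU X Λ u (χ.σ p) v c) :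
    ∃ (e : ℂ × ℂ) (a : ℂ), v = fderiv ℂ χ.σ p e + a • χ.σ p ∧ fderiv ℂ υ p e = c := by
  refine chart_gen hX hu hΛ (ball_subset_ball h.lt.le hp) (h.an p hp) ?_ hv
  filter_upwards [isOpen_ball.mem_nhds hp] with p' hp'
  exact h.lift p' hp'

theorem DU.smul (hX : IsCone X) (hu : TorusMap X Λ u) {x v : EN N} {d : ℂ} (h : DU X Λ u x v d) {c : ℂ} (hc : c ≠ 0) :
    DU X Λ u (c • x) (c • v) d := by
  obtain ⟨γ, D, h1, h2, h3, h4, h5, h6, h7⟩ := h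
  refine ⟨fun z => c • γ z, D, analyticAt_const.fun_smul h1, ?_, ?_, ?_, h5, ?_, h7⟩
  · filter_upwards [h2] with z hz
    exact hX.smul_mem _ hz c hc
  · change c • γ 0 = c • x
    rw [h3]
  · rw [← h4]
    exact (h1.differentiableAt.hasDerivAt.const_smul c).deriv
  · filter_upwards [h2, h6] with z hz hz1
    have h8 := Λ.add_mem (hu.smul _ hz c hc) hz1
    have h9 : u (c • γ z) - u (γ z) + (u (γ z) - D z) = u (c • γ z) - D z := by ring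
    rwa [h9] at h8

theorem DU.of_sec {F : ℂ → EN N} (hF : F ∈ Sec X Λ u) (z : ℂ) : DU X Λ u (F z) (deriv F z) 1 := by
  obtain ⟨h1, h2, h3⟩ := hF
  have hla : AnalyticAt ℂ (fun w : ℂ => z + w) 0 := analyticAt_const.add analyticAt_id
  have hFa : AnalyticAt ℂ F (z + 0) := h1.analyticAt _
  have hl : HasDerivAt (fun w : ℂ => z + w) 1 0 := (hasDerivAt_id (0 : ℂ)).const_add z
  refine ⟨fun w => F (z + w), fun w => z + w, AnalyticAt.fun_comp hFa hla, Eventually.of_forall fun w => h2 _, by simp, ?_,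
    hla, Eventually.of_forall fun w => h3 _, hl.deriv⟩
  rw [deriv_comp_const_add, add_zero]

theorem exists_adm (hX : IsCone X) (hch : Charts X) (hu : TorusMap X Λ u) (hΛ : Lat Λ) {x w : EN N} (hx : x ∈ X) {c : ℂ}
    (hc : c ≠ 0) (hw : DU X Λ u x w c) :
    ∃ (χ : Chart X) (υ : ℂ × ℂ → ℂ) (s : ℝ), x ∈ χ.U ∧ χ.q x = 0 ∧ Adm Λ u χ υ s := by
  obtain ⟨χ, hxU, hq⟩ := hch x hx
  obtain ⟨-, a, ha, hxa⟩ := χ.surj x hx hxU
  rw [hq] at hxa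
  have h02 : (0 : ℂ × ℂ) ∈ ball (0 : ℂ × ℂ) 2 := mem_ball_self two_pos
  have hm := χ.σ_mem 0 h02
  have hDU : DU X Λ u (χ.σ 0) (a⁻¹ • w) c := by
    have h1 := DU.smul hX hu hw (inv_ne_zero ha)
    have h2 : a⁻¹ • x = χ.σ 0 := by
      rw [hxa, smul_smul, inv_mul_cancel₀ ha, one_smul]
    rwa [h2] at h1
  obtain ⟨v, hv, hvl⟩ := hu.loc (χ.σ 0) hm.1
  have hσa : AnalyticAt ℂ χ.σ 0 := χ.σ_an 0 h02
  have hυ : AnalyticAt ℂ (fun p => v (χ.σ p)) 0 := AnalyticAt.fun_comp hv hσa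
  have hb2 : ∀ᶠ p in 𝓝 (0 : ℂ × ℂ), p ∈ ball (0 : ℂ × ℂ) 2 := isOpen_ball.mem_nhds h02
  have hl : ∀ᶠ p in 𝓝 (0 : ℂ × ℂ), u (χ.σ p) - v (χ.σ p) ∈ Λ := by
    filter_upwards [hσa.continuousAt.tendsto.eventually hvl, hb2] with p hp hp2
    exact hp (χ.σ_mem p hp2).1
  obtain ⟨e, b, -, hec⟩ := chart_gen hX hu hΛ h02 hυ hl hDU
  have hd0 : fderiv ℂ (fun p => v (χ.σ p)) 0 ≠ 0 := by
    intro h0
    rw [h0] at hec
    exact hc hec.symm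
  have hdn : ∀ᶠ p in 𝓝 (0 : ℂ × ℂ), fderiv ℂ (fun p => v (χ.σ p)) p ≠ 0 :=
    hυ.fderiv.continuousAt.eventually_ne hd0
  obtain ⟨r, hr, hrb⟩ := Metric.eventually_nhds_iff_ball.1 ((hυ.eventually_analyticAt.and hl).and hdn)
  refine ⟨χ, fun p => v (χ.σ p), min r 1, hxU, hq, lt_min hr one_pos, (min_le_right _ _).trans_lt one_lt_two, ?_, ?_, ?_⟩
  · intro p hp
    exact (hrb p (ball_subset_ball (min_le_left _ _) hp)).1.1
  · intro p hp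
    exact (hrb p (ball_subset_ball (min_le_left _ _) hp)).1.2
  · intro p hp
    exact (hrb p (ball_subset_ball (min_le_left _ _) hp)).2

end Pool.Agent.H62.EF
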