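import Pool.Agent.H36.BP.SubC
import Pool.Agent.H36.BP.SubB
import Pool.Agent.H36.BP.MaxP
import Pool.Agent.H36.BP.CirA
import Mathlib.MeasureTheory.Integral.CircleAverage

/-!
# EF AffA: the mean value inequality for `log ‖F‖ - c ‖D‖²`

Let `r > 0`.  By `circle_approx` (`H36/BP/CirA.lean`) there are entire functions `g₁`, `g₂` with `|Re g₁ - log ‖F‖| ≤ 1` and
`|Re g₂ - c ‖D‖²| ≤ 1` on the circle `‖z‖ = r`.  For `ε > 0` the function
`w z = ‖F z‖ * ‖exp (- g₁ z)‖ * ‖exp (g₂ z)‖ * exp (- c ‖D z‖²) * exp (ε ‖z‖²)` is continuous and positive, with `Sub` exponent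
`fs² / 2 - c ‖D'‖² + ε ≥ ε > 0` at every point (`Sub.norm_rpow` with `a = 1`, `Sub.of_holo`, `exp_sq` twice, `Sub.mul`, `Sub.mono`);
`w ≤ e² exp (ε r²)` on the circle, so (`max_principle`) `w 0 ≤ e² exp (ε r²)`; let `ε → 0`:
`log ‖F 0‖ - Re g₁ 0 + Re g₂ 0 - c ‖D 0‖² ≤ 2`.
`Re g₁ 0` is the mean value of `Re g₁` (`circleAverage` of a harmonic/holomorphic function: e.g. the real part of `circleAverage g₁ 0 r = g₁ 0`), so
`Re g₁ 0 ≤ mean log ‖F‖ + 1` and `Re g₂ 0 ≥ c mean ‖D‖² - 1`.
-/

set_option autoImplicit false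

open Topology Filter Metric

namespace Pool.Agent.H62.EF

open Pool.Agent.H36.BP (EN fs wd)

variable {N : ℕ}

private theorem AffA_avg_re {g : ℂ → ℂ} (hg : Differentiable ℂ g) (r : ℝ) :
    Real.circleAverage (fun z => (g z).re) 0 r = (g 0).re := by
  have h1 : CircleIntegrable g 0 r := hg.continuous.continuousOn.circleIntegrable'
  have h2 := Complex.reCLM.circleAverage_comp_comm h1
  have h3 : Real.circleAverage g 0 r = g 0 := hg.diffContOnCl.circleAverage
  rw [h3] at h2
  exact h2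

theorem mean_ineq {F : ℂ → EN N} (hF : Differentiable ℂ F) (h0 : ∀ z, F z ≠ 0) {D : ℂ → ℂ} (hD : Differentiable ℂ D) {c : ℝ} (hc : 0 < c)
    (hfs : ∀ z, c * ‖deriv D z‖ ^ 2 ≤ fs (F z) (deriv F z) ^ 2 / 2) {r : ℝ} (hr : 0 < r) :
    c * Real.circleAverage (fun z => ‖D z‖ ^ 2) 0 r ≤
      4 + Real.circleAverage (fun z => Real.log ‖F z‖) 0 r - Real.log ‖F 0‖ + c * ‖D 0‖ ^ 2 := by
  have hFc : Continuous F := hF.continuous
  have hlogc : Continuous fun z => Real.log ‖F z‖ :=
    (hFc.norm).log fun z => norm_ne_zero_iff.mpr (h0 z)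
  have hDc : Continuous fun z => c * ‖D z‖ ^ 2 := continuous_const.mul (hD.continuous.norm.pow 2)
  obtain ⟨g₁, hg₁, hb₁⟩ := Pool.Agent.H36.BP.circle_approx hr (fun z => Real.log ‖F z‖) hlogc.continuousOn one_pos
  obtain ⟨g₂, hg₂, hb₂⟩ := Pool.Agent.H36.BP.circle_approx hr (fun z => c * ‖D z‖ ^ 2) hDc.continuousOn one_pos
  have hself : Real.log ‖F 0‖ - (g₁ 0).re + (g₂ 0).re - c * ‖D 0‖ ^ 2 ≤ 2 := by
    refine le_of_forall_pos_le_add fun δ hδ => ?_
    obtain ⟨ε, hε, hεδ⟩ : ∃ ε : ℝ, 0 < ε ∧ ε * r ^ 2 = δ := by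
      refine ⟨δ / r ^ 2, by positivity, ?_⟩
      field_simp
    let w : ℂ → ℝ := fun z => ‖F z‖ ^ (1 : ℝ) * ‖Complex.exp (-g₁ z)‖ * ‖Complex.exp (g₂ z)‖ *
      Real.exp (-c * ‖D z‖ ^ 2) * Real.exp (ε * ‖z‖ ^ 2)
    have hwl : ∀ z, w z = Real.exp (Real.log ‖F z‖ - (g₁ z).re + (g₂ z).re - c * ‖D z‖ ^ 2 + ε * ‖z‖ ^ 2) := by
      intro z
      have hn : 0 < ‖F z‖ := norm_pos_iff.mpr (h0 z)
      simp only [w]
      rw [Real.rpow_one, Complex.norm_exp, Complex.norm_exp, Real.exp_add, Real.exp_sub, Real.exp_add, Real.exp_sub,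
        Real.exp_log hn, Complex.neg_re, Real.exp_neg, neg_mul, Real.exp_neg]
      field_simp
    have hwc : Continuous w := by
      have : w = fun z => Real.exp (Real.log ‖F z‖ - (g₁ z).re + (g₂ z).re - c * ‖D z‖ ^ 2 + ε * ‖z‖ ^ 2) := funext hwl
      rw [this]
      refine Real.continuous_exp.comp ?_
      refine Continuous.add (Continuous.sub (Continuous.add (Continuous.sub hlogc ?_) ?_) hDc) ?_
      · exact Complex.continuous_re.comp hg₁.continuous
      · exact Complex.continuous_re.comp hg₂.continuous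
      · exact continuous_const.mul (continuous_norm.pow 2)
    have hsub : ∀ z, Pool.Agent.H36.BP.Sub w z
        (1 * fs (F z) (deriv F z) ^ 2 / 2 + 0 + 0 + -c * ‖deriv D z‖ ^ 2 + ε) := by
      intro z
      have s1 := Pool.Agent.H36.BP.Sub.norm_rpow (hF.analyticAt z) (h0 z) 1
      have s2 := Pool.Agent.H36.BP.Sub.of_holo (h := fun z => Complex.exp (-g₁ z)) (z₀ := z)
        (hg₁.neg.analyticAt z).cexp (Complex.exp_ne_zero _)
      have s3 := Pool.Agent.H36.BP.Sub.of_holo (h := fun z => Complex.exp (g₂ z)) (z₀ := z)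
        (hg₂.analyticAt z).cexp (Complex.exp_ne_zero _)
      have s4 := Pool.Agent.H36.BP.Sub.exp_sq (hD.analyticAt z) (-c)
      have s5 := Pool.Agent.H36.BP.Sub.exp_sq (t := fun z : ℂ => z) (z₀ := z) analyticAt_id ε
      have hd : deriv (fun z : ℂ => z) z = 1 := deriv_id z
      rw [hd, norm_one, one_pow, mul_one] at s5
      exact (((s1.mul s2).mul s3).mul s4).mul s5
    have hmax := Pool.Agent.H36.BP.max_principle (S := closedBall (0 : ℂ) r) (U := ball (0 : ℂ) r)
      (isCompact_closedBall 0 r) isOpen_ball ball_subset_closedBall (u := w) hwc.continuousOn.upperSemicontinuousOn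
      (fun z _ _ => ⟨_, by
        have := hfs z
        have h2 : 0 < 1 * fs (F z) (deriv F z) ^ 2 / 2 + 0 + 0 + -c * ‖deriv D z‖ ^ 2 + ε := by linarith
        exact h2, hsub z⟩) (A := Real.exp (2 + ε * r ^ 2)) (Real.exp_pos _).le
      (fun z hz => by
        have hzr : ‖z‖ = r := by
          rcases hz with ⟨h1, h2⟩
          rw [mem_closedBall_zero_iff] at h1
          rw [mem_ball_zero_iff, not_lt] at h2
          exact le_antisymm h1 h2
        have hzs : z ∈ sphere (0 : ℂ) r := mem_sphere_zero_iff_norm.mpr hzr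
        have h1 := abs_le.mp (hb₁ z hzs)
        have h2 := abs_le.mp (hb₂ z hzs)
        rw [hwl z, Real.exp_le_exp, hzr]
        linarith [h1.1, h2.2])
    have h1 := hmax 0 (mem_closedBall_self hr.le)
    rw [hwl 0, Real.exp_le_exp, norm_zero, hεδ] at h1
    have h2 : ε * (0 : ℝ) ^ 2 = 0 := by ring
    linarith
  have hi₁ : CircleIntegrable (fun z => (g₁ z).re) 0 r :=
    (Complex.continuous_re.comp hg₁.continuous).continuousOn.circleIntegrable'
  have hi₂ : CircleIntegrable (fun z => (g₂ z).re) 0 r :=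
    (Complex.continuous_re.comp hg₂.continuous).continuousOn.circleIntegrable'
  have hj₁ : CircleIntegrable (fun z => Real.log ‖F z‖ + 1) 0 r :=
    (hlogc.add continuous_const).continuousOn.circleIntegrable'
  have hj₂ : CircleIntegrable (fun z => c * ‖D z‖ ^ 2) 0 r := hDc.continuousOn.circleIntegrable'
  have hj₁' : CircleIntegrable (fun z => Real.log ‖F z‖) 0 r := hlogc.continuousOn.circleIntegrable'
  have hi₂' : CircleIntegrable (fun z => (g₂ z).re + 1) 0 r :=
    ((Complex.continuous_re.comp hg₂.continuous).add continuous_const).continuousOn.circleIntegrable'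
  have hconst : ∀ (a : ℝ), Real.circleAverage (fun _ : ℂ => a) 0 r = a := fun a => Real.circleAverage_const a 0 r
  have e₁ : (g₁ 0).re ≤ Real.circleAverage (fun z => Real.log ‖F z‖) 0 r + 1 := by
    rw [← AffA_avg_re hg₁ r]
    calc Real.circleAverage (fun z => (g₁ z).re) 0 r ≤ Real.circleAverage (fun z => Real.log ‖F z‖ + 1) 0 r := by
          refine Real.circleAverage_mono hi₁ hj₁ fun z hz => ?_
          rw [abs_of_pos hr] at hz
          have := (abs_le.mp (hb₁ z hz)).2
          linarith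
      _ = Real.circleAverage (fun z => Real.log ‖F z‖) 0 r + 1 := by
          rw [Real.circleAverage_fun_add hj₁' (circleIntegrable_const _ _ _), hconst]
  have e₂ : c * Real.circleAverage (fun z => ‖D z‖ ^ 2) 0 r ≤ (g₂ 0).re + 1 := by
    rw [← AffA_avg_re hg₂ r]
    calc c * Real.circleAverage (fun z => ‖D z‖ ^ 2) 0 r = Real.circleAverage (fun z => c * ‖D z‖ ^ 2) 0 r := by
          have := Real.circleAverage_fun_smul (a := c) (f := fun z => ‖D z‖ ^ 2) (c := 0) (R := r)
          simp only [smul_eq_mul] at this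
          exact this.symm
      _ ≤ Real.circleAverage (fun z => (g₂ z).re + 1) 0 r := by
          refine Real.circleAverage_mono hj₂ hi₂' fun z hz => ?_
          rw [abs_of_pos hr] at hz
          have := (abs_le.mp (hb₂ z hz)).1
          linarith
      _ = Real.circleAverage (fun z => (g₂ z).re) 0 r + 1 := by
          rw [Real.circleAverage_fun_add hi₂ (circleIntegrable_const _ _ _), hconst]
  linarith

end Pool.Agent.H62.EF
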