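import Pool.Agent.H62.EF.Loc
import Pool.Agent.H62.EF.Comp

/-!
# EF ChRho: `rho` is close to the norm of a holomorphic function times the norm of a lift

Let `δΛ` be as in `Lat.discrete`, `P₀ = closedBall 0 (s / 2)`, `W = ball 0 s`, `L' = s / r`; `comp` with `σ = χ.σ`, `υ`, `L'` and `η / M` gives
`ε₁` (`chart_imm`, `adm`).  `υ` is uniformly continuous on the compact set `P₀`: there is `ε₂` with `‖υ q - υ p‖ < δΛ` for `p, q ∈ P₀`, `‖q - p‖ < ε₂`.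
`Q` is uniformly continuous on the compact set `closedBall y₀ δ`: there is `ε > 0` with `‖Q y - Q y'‖ < min ε₁ ε₂` for `dist y y' ≤ ε`.

Let `F, G, z₀` be as in the statement.  On `B = ball z₀ r`: `p z = χ.q (F z)`, `q z = χ.q (G z)` are holomorphic (`F z, G z ∈ χ.U`), with values in `P₀`,
`p z = Q (pr (F z))`, so `‖q z - p z‖ < min ε₁ ε₂`.  `F z = a • χ.σ (p z)` (`surj`), so `u (F z) - υ (p z) ∈ Λ`, `υ (p z) - z ∈ Λ`; in the same way
`υ (q z) - z ∈ Λ`.  `υ (q z) - υ (p z) ∈ Λ` has norm `< δΛ`, so `υ (q z) = υ (p z)`.  `υ (p z) - z` is constant on `B` (`Lat.const`), so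
`dυ_{p z} (p' z) = 1`; for `z ∈ closedBall z₀ (r / 2)` Cauchy's estimate on `ball z (r / 2)` (`p` has values in `P₀`) gives `‖p' z‖ ≤ s / r = L'`.
Let `Fh z = χ.σ (p z)`, `h z = (√2)^M * aCoef Ω χ (p z) * (det2 (q z - p z) (p' z))^M`: holomorphic on `B` (`aCoef_an`; `p' = deriv p` is holomorphic).
By `dist_pr`, `pr_smul`: `dist (pr (F z)) (pr (G z)) = √2 wd (σ p) (σ q) / (‖σ p‖ ‖σ q‖)`, and `That X Λ u Ω (pr (F z)) = TF χ υ Ω (p z)` (`LocData.That_eq`), so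
`rho = (√2)^M ‖aCoef Ω χ p‖ ‖σ p‖ B^M` with `B = wd (σ p) (σ q) / (‖σ p‖ ‖σ q‖) * ‖σ p‖² / wd (σ p) (dσ_p (grd υ p))`, and
`‖h z‖ ‖Fh z‖ = (√2)^M ‖aCoef Ω χ p‖ ‖σ p‖ A^M` with `A = ‖det2 (q - p) p'‖`; `exp (-η / M) A ≤ B ≤ exp (η / M) A` by `comp` if `q z ≠ p z`; if
`q z = p z` then `A = B = 0`.
-/

set_option autoImplicit false

open Topology Filter Metric

namespace Pool.Agent.H62.EF

open Pool.Agent.H36.BP (EN fs wd)
open Pool.Agent.H14.PP (IsCone Chart Form Tan aCoef)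

variable {N : ℕ} {X : Set (EN N)} {Λ : AddSubgroup ℂ} {u : EN N → ℂ} {M : ℕ}

private theorem ChRho_det_zero (x : ℂ × ℂ) : det2 0 x = 0 := by
  simp [det2]

private theorem ChRho_wd_self (x : EN N) : wd x x = 0 := by
  have h := Pool.Agent.H36.BP.wd_sq x x
  have h1 : ‖(inner ℂ x x : ℂ)‖ = ‖x‖ ^ 2 := by
    rw [inner_self_eq_norm_sq_to_K]
    simp
  rw [h1] at h
  have h2 : wd x x ^ 2 = 0 := by rw [h]; ring
  exact pow_eq_zero_iff (two_ne_zero) |>.1 h2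

private theorem ChRho_alg {M : ℕ} (hM : 1 ≤ M) {η a S A B : ℝ} (ha : 0 ≤ a) (hS : 0 ≤ S) (hA : 0 ≤ A) (hB : 0 ≤ B)
    (h1 : Real.exp (-(η / M)) * A ≤ B) (h2 : B ≤ Real.exp (η / M) * A) :
    Real.exp (-η) * (Real.sqrt 2 ^ M * a * A ^ M * S) ≤ Real.sqrt 2 ^ M * a * S * B ^ M ∧
      Real.sqrt 2 ^ M * a * S * B ^ M ≤ Real.exp η * (Real.sqrt 2 ^ M * a * A ^ M * S) := by
  have hM0 : (M : ℝ) ≠ 0 := by
    have : 0 < M := hM
    positivity
  have e1 : Real.exp (-(η / M)) ^ M = Real.exp (-η) := by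
    rw [← Real.exp_nat_mul]
    congr 1
    field_simp
  have e2 : Real.exp (η / M) ^ M = Real.exp η := by
    rw [← Real.exp_nat_mul]
    congr 1
    field_simp
  have h3 : Real.exp (-η) * A ^ M ≤ B ^ M := by
    have := pow_le_pow_left₀ (mul_nonneg (Real.exp_pos _).le hA) h1 M
    rwa [mul_pow, e1] at this
  have h4 : B ^ M ≤ Real.exp η * A ^ M := by
    have := pow_le_pow_left₀ hB h2 M
    rwa [mul_pow, e2] at this
  have hK : 0 ≤ Real.sqrt 2 ^ M * a * S := by positivity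
  constructor
  · calc Real.exp (-η) * (Real.sqrt 2 ^ M * a * A ^ M * S) = (Real.sqrt 2 ^ M * a * S) * (Real.exp (-η) * A ^ M) := by ring
      _ ≤ (Real.sqrt 2 ^ M * a * S) * B ^ M := mul_le_mul_of_nonneg_left h3 hK
  · calc Real.sqrt 2 ^ M * a * S * B ^ M ≤ (Real.sqrt 2 ^ M * a * S) * (Real.exp η * A ^ M) := mul_le_mul_of_nonneg_left h4 hK
      _ = Real.exp η * (Real.sqrt 2 ^ M * a * A ^ M * S) := by ring

theorem chart_rho (hX : IsCone X) (hch : Charts X) (hu : TorusMap X Λ u) (hΛ : Lat Λ) (hM : 1 ≤ M) (Ω : Form X M 1) {χ : Chart X}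
    {υ : ℂ × ℂ → ℂ} {s δ : ℝ} {y₀ : MN N} {Q : MN N → ℂ × ℂ} (hloc : LocData Λ u χ υ s y₀ δ Q) {r η : ℝ} (hr : 0 < r)
    (hη : 0 < η) :
    ∃ ε : ℝ, 0 < ε ∧ ∀ F ∈ Sec X Λ u, ∀ G ∈ Sec X Λ u, ∀ z₀ : ℂ,
      (∀ z ∈ ball z₀ r, dist (pr (F z)) y₀ ≤ δ ∧ dist (pr (G z)) y₀ ≤ δ ∧ dist (pr (F z)) (pr (G z)) ≤ ε) →
      ∃ (h : ℂ → ℂ) (Fh : ℂ → EN N), DifferentiableOn ℂ h (ball z₀ r) ∧ DifferentiableOn ℂ Fh (ball z₀ r) ∧
        (∀ z ∈ ball z₀ r, ∃ c : ℂ, c ≠ 0 ∧ Fh z = c • F z) ∧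
        ∀ z ∈ closedBall z₀ (r / 2),
          Real.exp (-η) * (‖h z‖ * ‖Fh z‖) ≤ rho M (That X Λ u Ω) (fun z => pr (F z)) (fun z => pr (G z)) z ∧
          rho M (That X Λ u Ω) (fun z => pr (F z)) (fun z => pr (G z)) z ≤ Real.exp η * (‖h z‖ * ‖Fh z‖) := by
  have hadm := hloc.adm
  have hs := hadm.pos
  have hs2 := hadm.lt
  obtain ⟨δΛ, hδΛ, hdisc⟩ := hΛ.discrete
  have hM0 : (0 : ℝ) < M := by
    have : 0 < M := hM
    exact_mod_cast this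
  have hb2 : ∀ p ∈ ball (0 : ℂ × ℂ) s, p ∈ ball (0 : ℂ × ℂ) 2 := fun p hp => ball_subset_ball hs2.le hp
  have hPW : closedBall (0 : ℂ × ℂ) (s / 2) ⊆ ball (0 : ℂ × ℂ) s := closedBall_subset_ball (by linarith)
  have hσX : ∀ p ∈ ball (0 : ℂ × ℂ) 2, χ.σ p ∈ X := fun p hp => (χ.σ_mem p hp).1
  have hσ0 : ∀ p ∈ ball (0 : ℂ × ℂ) 2, χ.σ p ≠ 0 := fun p hp h0 => hX.zero_notMem (h0 ▸ hσX p hp)
  obtain ⟨ε₁, hε₁, hcomp⟩ := comp (isCompact_closedBall (0 : ℂ × ℂ) (s / 2)) isOpen_ball hPW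
    (σ := χ.σ) (υ := υ) (fun p hp => χ.σ_an p (hb2 p hp)) hadm.an (fun p hp => hσ0 p (hb2 p hp))
    (fun p hp e he => chart_imm hX χ (hb2 p hp) he) hadm.ne (2 * s / r) (div_pos hη hM0)
  have hυc : ContinuousOn υ (closedBall (0 : ℂ × ℂ) (s / 2)) := fun p hp =>
    (hadm.an p (hPW hp)).continuousAt.continuousWithinAt
  obtain ⟨ε₂, hε₂, hunif⟩ := Metric.uniformContinuousOn_iff.1
    ((isCompact_closedBall (0 : ℂ × ℂ) (s / 2)).uniformContinuousOn_of_continuous hυc) δΛ hδΛ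
  obtain ⟨ε₃, hε₃, hQ⟩ := Metric.uniformContinuousOn_iff.1
    ((isCompact_closedBall y₀ δ).uniformContinuousOn_of_continuous hloc.cont) (min ε₁ ε₂) (lt_min hε₁ hε₂)
  refine ⟨ε₃ / 2, by positivity, fun F hF G hG z₀ hB => ?_⟩
  obtain ⟨hFd, hFX, hFu⟩ := hF
  obtain ⟨hGd, hGX, hGu⟩ := hG
  set p : ℂ → ℂ × ℂ := fun z => χ.q (F z) with hp
  set q : ℂ → ℂ × ℂ := fun z => χ.q (G z) with hq
  have hFm : ∀ z ∈ ball z₀ r, F z ∈ χ.U ∧ p z = Q (pr (F z)) ∧ p z ∈ closedBall (0 : ℂ × ℂ) (s / 2) :=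
    fun z hz => hloc.mem _ (hFX z) (hB z hz).1
  have hGm : ∀ z ∈ ball z₀ r, G z ∈ χ.U ∧ q z = Q (pr (G z)) ∧ q z ∈ closedBall (0 : ℂ × ℂ) (s / 2) :=
    fun z hz => hloc.mem _ (hGX z) (hB z hz).2.1
  have hpq : ∀ z ∈ ball z₀ r, dist (q z) (p z) < min ε₁ ε₂ := by
    intro z hz
    rw [(hFm z hz).2.1, (hGm z hz).2.1]
    refine hQ _ ?_ _ ?_ ?_
    · exact (hB z hz).2.1
    · exact (hB z hz).1
    · rw [dist_comm]
      exact lt_of_le_of_lt (hB z hz).2.2 (by linarith)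
  have hpan : ∀ z ∈ ball z₀ r, AnalyticAt ℂ p z := fun z hz =>
    (χ.q_an _ (hFm z hz).1).comp (hFd.analyticAt z)
  have hqan : ∀ z ∈ ball z₀ r, AnalyticAt ℂ q z := fun z hz =>
    (χ.q_an _ (hGm z hz).1).comp (hGd.analyticAt z)
  have hsurF : ∀ z ∈ ball z₀ r, ∃ c : ℂ, c ≠ 0 ∧ F z = c • χ.σ (p z) := fun z hz =>
    (χ.surj _ (hFX z) (hFm z hz).1).2
  have hsurG : ∀ z ∈ ball z₀ r, ∃ c : ℂ, c ≠ 0 ∧ G z = c • χ.σ (q z) := fun z hz =>
    (χ.surj _ (hGX z) (hGm z hz).1).2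
  have hυp : ∀ z ∈ ball z₀ r, υ (p z) - z ∈ Λ := by
    intro z hz
    obtain ⟨c, hc, hcF⟩ := hsurF z hz
    have m1 : u (F z) - u (χ.σ (p z)) ∈ Λ := by
      rw [hcF]
      exact hu.smul _ (hσX _ (hb2 _ (hPW (hFm z hz).2.2))) c hc
    have m2 := hadm.lift _ (hPW (hFm z hz).2.2)
    have m3 := hFu z
    have e : υ (p z) - z = -(u (χ.σ (p z)) - υ (p z)) - (u (F z) - u (χ.σ (p z))) + (u (F z) - z) := by ring
    rw [e]
    exact Λ.add_mem (Λ.sub_mem (Λ.neg_mem m2) m1) m3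
  have hυq : ∀ z ∈ ball z₀ r, υ (q z) - z ∈ Λ := by
    intro z hz
    obtain ⟨c, hc, hcG⟩ := hsurG z hz
    have m1 : u (G z) - u (χ.σ (q z)) ∈ Λ := by
      rw [hcG]
      exact hu.smul _ (hσX _ (hb2 _ (hPW (hGm z hz).2.2))) c hc
    have m2 := hadm.lift _ (hPW (hGm z hz).2.2)
    have m3 := hGu z
    have e : υ (q z) - z = -(u (χ.σ (q z)) - υ (q z)) - (u (G z) - u (χ.σ (q z))) + (u (G z) - z) := by ring
    rw [e]
    exact Λ.add_mem (Λ.sub_mem (Λ.neg_mem m2) m1) m3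
  have hυeq : ∀ z ∈ ball z₀ r, υ (q z) = υ (p z) := by
    intro z hz
    have m : υ (q z) - υ (p z) ∈ Λ := by
      have e : υ (q z) - υ (p z) = (υ (q z) - z) - (υ (p z) - z) := by ring
      rw [e]
      exact Λ.sub_mem (hυq z hz) (hυp z hz)
    have hd : ‖υ (q z) - υ (p z)‖ < δΛ := by
      rw [← dist_eq_norm]
      exact hunif _ (hGm z hz).2.2 _ (hFm z hz).2.2 (lt_of_lt_of_le (hpq z hz) (min_le_right _ _))
    exact sub_eq_zero.1 (hdisc _ m hd)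
  have hcont : ContinuousOn (fun z => υ (p z) - z) (ball z₀ r) := fun z hz =>
    (((hadm.an _ (hPW (hFm z hz).2.2)).continuousAt.comp (hpan z hz).continuousAt).sub
      continuousAt_id).continuousWithinAt
  have hconst := hΛ.const (convex_ball z₀ r).isPreconnected hcont hυp
  have hdυ1 : ∀ z ∈ ball z₀ r, fderiv ℂ υ (p z) (deriv p z) = 1 := by
    intro z hz
    have h1 : HasDerivAt (fun w => υ (p w)) (fderiv ℂ υ (p z) (deriv p z)) z :=
      (hadm.an _ (hPW (hFm z hz).2.2)).differentiableAt.hasFDerivAt.comp_hasDerivAt z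
        (hpan z hz).differentiableAt.hasDerivAt
    have h2 : HasDerivAt (fun w => υ (p w)) 1 z := by
      have h3 : HasDerivAt (fun w : ℂ => w + (υ (p z) - z)) 1 z := (hasDerivAt_id z).add_const _
      refine h3.congr_of_eventuallyEq ?_
      filter_upwards [isOpen_ball.mem_nhds hz] with w hw
      have := hconst w hw z hz
      rw [← this]
      ring
    exact h1.unique h2
  have hderiv : ∀ z ∈ closedBall z₀ (r / 2), ‖deriv p z‖ ≤ 2 * s / r := by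
    intro z hz
    have hsub : closedBall z (r / 4) ⊆ ball z₀ r := by
      intro w hw
      rw [mem_ball]
      rw [mem_closedBall] at hw hz
      have := dist_triangle w z z₀
      linarith
    have hd : DifferentiableOn ℂ p (closedBall z (r / 4)) := fun w hw =>
      (hpan w (hsub hw)).differentiableAt.differentiableWithinAt
    have hr4 : 0 < r / 4 := by positivity
    have hdc : DiffContOnCl ℂ p (ball z (r / 4)) :=
      DifferentiableOn.diffContOnCl (by rw [closure_ball z hr4.ne']; exact hd)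
    have h1 := Complex.norm_deriv_le_of_forall_mem_sphere_norm_le hr4 hdc (C := s / 2)
      (fun w hw => by simpa using (hFm w (hsub (sphere_subset_closedBall hw))).2.2)
    refine h1.trans (le_of_eq ?_)
    field_simp
    ring
  have hzB : ∀ z ∈ closedBall z₀ (r / 2), z ∈ ball z₀ r := fun z hz =>
    closedBall_subset_ball (by linarith) hz
  have hpd : DifferentiableOn ℂ p (ball z₀ r) := fun z hz => (hpan z hz).differentiableAt.differentiableWithinAt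
  have hqd : DifferentiableOn ℂ q (ball z₀ r) := fun z hz => (hqan z hz).differentiableAt.differentiableWithinAt
  have hp'd : DifferentiableOn ℂ (deriv p) (ball z₀ r) := hpd.deriv isOpen_ball
  refine ⟨fun z => ((Real.sqrt 2 : ℝ) : ℂ) ^ M * aCoef Ω χ (p z) * det2 (q z - p z) (deriv p z) ^ M, fun z => χ.σ (p z),
    ?_, ?_, ?_, ?_⟩
  · have ha : DifferentiableOn ℂ (fun z => aCoef Ω χ (p z)) (ball z₀ r) := fun z hz =>
      ((aCoef_an Ω χ (hb2 _ (hPW (hFm z hz).2.2))).comp (hpan z hz)).differentiableAt.differentiableWithinAt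
    have hdet : DifferentiableOn ℂ (fun z => det2 (q z - p z) (deriv p z)) (ball z₀ r) := by
      unfold det2
      have hqp : DifferentiableOn ℂ (fun z => q z - p z) (ball z₀ r) := hqd.sub hpd
      exact (hqp.fst.mul hp'd.snd).sub (hqp.snd.mul hp'd.fst)
    exact (ha.const_mul _).mul (hdet.pow M)
  · exact fun z hz => ((χ.σ_an _ (hb2 _ (hPW (hFm z hz).2.2))).comp (hpan z hz)).differentiableAt.differentiableWithinAt
  · intro z hz
    obtain ⟨c, hc, hcF⟩ := hsurF z hz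
    refine ⟨c⁻¹, inv_ne_zero hc, ?_⟩
    simp only
    rw [hcF, smul_smul, inv_mul_cancel₀ hc, one_smul]
  · intro z hz
    have hz' := hzB z hz
    obtain ⟨c, hc, hcF⟩ := hsurF z hz'
    obtain ⟨d, hd, hdG⟩ := hsurG z hz'
    have hpP := (hFm z hz').2.2
    have hqP := (hGm z hz').2.2
    have hT : That X Λ u Ω (pr (F z)) = TF χ υ Ω (p z) :=
      hloc.That_eq hX hch hu hΛ Ω (hFX z) (hB z hz').1
    have hσp := hσ0 _ (hb2 _ (hPW hpP))
    have hσq := hσ0 _ (hb2 _ (hPW hqP))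
    have hdist : dist (pr (F z)) (pr (G z)) =
        Real.sqrt 2 * (wd (χ.σ (p z)) (χ.σ (q z)) / (‖χ.σ (p z)‖ * ‖χ.σ (q z)‖)) := by
      rw [hcF, hdG, pr_smul _ hc, pr_smul _ hd, dist_pr hσp hσq]
    have hrho : rho M (That X Λ u Ω) (fun z => pr (F z)) (fun z => pr (G z)) z =
        Real.sqrt 2 ^ M * ‖aCoef Ω χ (p z)‖ * ‖χ.σ (p z)‖ *
          (wd (χ.σ (p z)) (χ.σ (q z)) / (‖χ.σ (p z)‖ * ‖χ.σ (q z)‖) * ‖χ.σ (p z)‖ ^ 2 /
            wd (χ.σ (p z)) (fderiv ℂ χ.σ (p z) (grd υ (p z)))) ^ M := by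
      simp only [rho]
      rw [hT, hdist, TF, div_pow, mul_pow, mul_pow, pow_add, pow_mul]
      ring
    have hnorm : ‖((Real.sqrt 2 : ℝ) : ℂ) ^ M * aCoef Ω χ (p z) * det2 (q z - p z) (deriv p z) ^ M‖ * ‖χ.σ (p z)‖ =
        Real.sqrt 2 ^ M * ‖aCoef Ω χ (p z)‖ * ‖det2 (q z - p z) (deriv p z)‖ ^ M * ‖χ.σ (p z)‖ := by
      rw [norm_mul, norm_mul, norm_pow, norm_pow, Complex.norm_real, Real.norm_eq_abs, abs_of_nonneg (Real.sqrt_nonneg 2)]
    have hAB : Real.exp (-(η / M)) * ‖det2 (q z - p z) (deriv p z)‖ ≤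
        wd (χ.σ (p z)) (χ.σ (q z)) / (‖χ.σ (p z)‖ * ‖χ.σ (q z)‖) * ‖χ.σ (p z)‖ ^ 2 /
            wd (χ.σ (p z)) (fderiv ℂ χ.σ (p z) (grd υ (p z))) ∧
        wd (χ.σ (p z)) (χ.σ (q z)) / (‖χ.σ (p z)‖ * ‖χ.σ (q z)‖) * ‖χ.σ (p z)‖ ^ 2 /
            wd (χ.σ (p z)) (fderiv ℂ χ.σ (p z) (grd υ (p z))) ≤
        Real.exp (η / M) * ‖det2 (q z - p z) (deriv p z)‖ := by
      by_cases hqp : q z = p z
      · rw [hqp, sub_self, ChRho_det_zero, ChRho_wd_self]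
        simp
      · refine hcomp _ hpP _ (hPW hqP) hqp ?_ (hυeq z hz') _ (hderiv z hz) (hdυ1 z hz')
        rw [← dist_eq_norm]
        exact lt_of_lt_of_le (hpq z hz') (min_le_left _ _)
    have hwd0 : ∀ x y : EN N, 0 ≤ wd x y := fun x y => Real.sqrt_nonneg _
    have hBn : 0 ≤ wd (χ.σ (p z)) (χ.σ (q z)) / (‖χ.σ (p z)‖ * ‖χ.σ (q z)‖) * ‖χ.σ (p z)‖ ^ 2 /
            wd (χ.σ (p z)) (fderiv ℂ χ.σ (p z) (grd υ (p z))) :=
      div_nonneg (mul_nonneg (div_nonneg (hwd0 _ _) (by positivity)) (by positivity)) (hwd0 _ _)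
    have := ChRho_alg hM (norm_nonneg (aCoef Ω χ (p z))) (norm_nonneg (χ.σ (p z)))
      (norm_nonneg (det2 (q z - p z) (deriv p z))) hBn hAB.1 hAB.2
    rw [hrho, hnorm]
    exact this

end Pool.Agent.H62.EF
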