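import Pool.Agent.H62.EF.DynB

/-!
# EF DynA: the decay of `rho` on discs of closeness

Let `M, r₀, r₁, κ, θ, ε₀` be as in `Flow.loc` and `C` as in `Flow.rho_le`.  Let `f, g ∈ S` be `ε₀`-close on `A = closedBall c R`,
`r₁ ≤ R`, `w z = rho M T f g z * exp (-κ ‖z - c‖²)`, continuous on the compact set `A`; let `z₁ ∈ A` be a point where `w` is maximal.
* If `‖z₁ - c‖ ≤ R - r₁` then `closedBall z₁ r₁ ⊆ A`, so there is `z ∈ closedBall z₁ r₀ ⊆ A` with `w z₁ ≤ θ w z ≤ θ w z₁`, so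
  `w z₁ ≤ 0` (`θ < 1`), and `w ≤ 0` on `A`, `rho ≤ 0`.
* Otherwise `w z ≤ w z₁ ≤ C exp (-κ (R - r₁)²)` for `z ∈ A`.
-/

set_option autoImplicit false

open Topology Filter Metric

namespace Pool.Agent.H62.EF

variable {Y : Type} [MetricSpace Y] {K : Set Y} {Λ : AddSubgroup ℂ} {S : Set (ℂ → Y)} {T : Y → ℝ}

theorem Flow.decay (h : Flow K Λ S T) : ∃ (M : ℕ) (κ C r₁ ε₀ : ℝ), 1 ≤ M ∧ 0 < κ ∧ 0 ≤ C ∧ 0 < r₁ ∧ 0 < ε₀ ∧
    ∀ f ∈ S, ∀ g ∈ S, ∀ (c : ℂ) (R : ℝ), r₁ ≤ R → (∀ z ∈ closedBall c R, dist (f z) (g z) ≤ ε₀) →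
      ∀ z ∈ closedBall c R, rho M T f g z ≤ C * Real.exp (-κ * ((R - r₁) ^ 2 - ‖z - c‖ ^ 2)) := by
  obtain ⟨M, r₀, r₁, κ, θ, ε₀, hM, hr₀, hr₀₁, hκ, hθ, hθ1, hε₀, hloc⟩ := h.loc
  obtain ⟨C, hC0, hC⟩ := h.rho_le M
  have hr₁ : 0 < r₁ := lt_of_lt_of_le hr₀ hr₀₁
  refine ⟨M, κ, C, r₁, ε₀, hM, hκ, hC0, hr₁, hε₀, ?_⟩
  intro f hf g hg c R hR hclose z hz
  have hcont : Continuous fun z : ℂ => rho M T f g z * Real.exp (-κ * ‖z - c‖ ^ 2) := by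
    have h1 := h.continuous_rho M hf hg
    fun_prop
  obtain ⟨z₁, hz₁, hmax⟩ := (isCompact_closedBall c R).exists_isMaxOn
    ⟨c, mem_closedBall_self (hr₁.le.trans hR)⟩ hcont.continuousOn
  have hmax' : ∀ y ∈ closedBall c R, rho M T f g y * Real.exp (-κ * ‖y - c‖ ^ 2) ≤
      rho M T f g z₁ * Real.exp (-κ * ‖z₁ - c‖ ^ 2) := fun y hy => hmax hy
  have hsplit : rho M T f g z = rho M T f g z * Real.exp (-κ * ‖z - c‖ ^ 2) * Real.exp (κ * ‖z - c‖ ^ 2) := by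
    rw [mul_assoc, ← Real.exp_add]
    have h0 : -κ * ‖z - c‖ ^ 2 + κ * ‖z - c‖ ^ 2 = 0 := by ring
    rw [h0, Real.exp_zero, mul_one]
  rcases le_or_gt ‖z₁ - c‖ (R - r₁) with hcase | hcase
  · have hsub : closedBall z₁ r₁ ⊆ closedBall c R := by
      intro y hy
      rw [mem_closedBall, dist_eq_norm] at hy ⊢
      calc ‖y - c‖ = ‖(y - z₁) + (z₁ - c)‖ := by congr 1; ring
        _ ≤ ‖y - z₁‖ + ‖z₁ - c‖ := norm_add_le _ _
        _ ≤ R := by linarith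
    obtain ⟨z₂, hz₂, hle⟩ := hloc f hf g hg z₁ (fun y hy => hclose y (hsub hy)) c
    have h2 : rho M T f g z₂ * Real.exp (-κ * ‖z₂ - c‖ ^ 2) ≤ rho M T f g z₁ * Real.exp (-κ * ‖z₁ - c‖ ^ 2) :=
      hmax' z₂ (hsub (closedBall_subset_closedBall hr₀₁ hz₂))
    have h3 : rho M T f g z₁ * Real.exp (-κ * ‖z₁ - c‖ ^ 2) ≤ 0 := by
      have h4 := mul_le_mul_of_nonneg_left h2 hθ
      nlinarith
    have h5 := (hmax' z hz).trans h3
    have h6 : rho M T f g z ≤ 0 := by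
      rw [hsplit]
      exact mul_nonpos_of_nonpos_of_nonneg h5 (Real.exp_pos _).le
    exact h6.trans (mul_nonneg hC0 (Real.exp_pos _).le)
  · have h1 : rho M T f g z₁ * Real.exp (-κ * ‖z₁ - c‖ ^ 2) ≤ C * Real.exp (-κ * (R - r₁) ^ 2) := by
      refine mul_le_mul (hC f hf g hg z₁) ?_ (Real.exp_pos _).le hC0
      rw [Real.exp_le_exp]
      have h2 : (R - r₁) ^ 2 ≤ ‖z₁ - c‖ ^ 2 := pow_le_pow_left₀ (by linarith) hcase.le 2
      nlinarith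
    have h3 := (hmax' z hz).trans h1
    rw [hsplit]
    calc rho M T f g z * Real.exp (-κ * ‖z - c‖ ^ 2) * Real.exp (κ * ‖z - c‖ ^ 2)
        ≤ C * Real.exp (-κ * (R - r₁) ^ 2) * Real.exp (κ * ‖z - c‖ ^ 2) :=
          mul_le_mul_of_nonneg_right h3 (Real.exp_pos _).le
      _ = C * Real.exp (-κ * ((R - r₁) ^ 2 - ‖z - c‖ ^ 2)) := by
          rw [mul_assoc, ← Real.exp_add]
          congr 2
          ring

end Pool.Agent.H62.EF
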