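import Pool.Agent.H62.EF.Defs
import Mathlib.Order.Filter.Ultrafilter.Basic

/-!
# EF DynB: limits in a flow

`exists_lim`: `K` is compact, so for every `z` the point `F n z ∈ K` has a limit along the ultrafilter
(`IsCompact.ultrafilter_le_nhds`, applied to the image ultrafilter); `lim`.
`unif`: let `L` be the constant of `lip`; `closedBall 0 R` is covered by finitely many balls of radius `ε / (8 L)` (totally bounded),
the limit `f` has the same Lipschitz constant (`f ∈ S`), and at the finitely many centres eventually `dist < ε / 4`.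
-/

set_option autoImplicit false

open Topology Filter Metric

namespace Pool.Agent.H62.EF

variable {Y : Type} [MetricSpace Y] {K : Set Y} {Λ : AddSubgroup ℂ} {S : Set (ℂ → Y)} {T : Y → ℝ}

theorem Flow.exists_lim (h : Flow K Λ S T) (𝒰 : Ultrafilter ℕ) (F : ℕ → ℂ → Y) (hF : ∀ᶠ n in (𝒰 : Filter ℕ), F n ∈ S) :
    ∃ f ∈ S, ∀ z, Tendsto (fun n => F n z) 𝒰 (𝓝 (f z)) := by
  have key : ∀ z : ℂ, ∃ y : Y, Tendsto (fun n => F n z) 𝒰 (𝓝 y) := by
    intro z
    have hK : ((𝒰.map (fun n => F n z) : Ultrafilter Y) : Filter Y) ≤ 𝓟 K := by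
      rw [le_principal_iff]
      have h1 : ∀ᶠ n in (𝒰 : Filter ℕ), F n z ∈ K := hF.mono fun n hn => h.mem _ hn z
      exact h1
    obtain ⟨y, -, hy⟩ := h.compact.ultrafilter_le_nhds _ hK
    exact ⟨y, hy⟩
  choose f hf using key
  exact ⟨f, h.lim 𝒰 F f hF hf, hf⟩

theorem Flow.unif (h : Flow K Λ S T) (𝒰 : Ultrafilter ℕ) (F : ℕ → ℂ → Y) (hF : ∀ᶠ n in (𝒰 : Filter ℕ), F n ∈ S) {f : ℂ → Y}
    (hf : ∀ z, Tendsto (fun n => F n z) 𝒰 (𝓝 (f z))) (R ε : ℝ) (hε : 0 < ε) :
    ∀ᶠ n in (𝒰 : Filter ℕ), ∀ z ∈ closedBall (0 : ℂ) R, dist (F n z) (f z) < ε := by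
  have hfS : f ∈ S := h.lim 𝒰 F f hF hf
  obtain ⟨L, hL, hlip⟩ := h.lip
  have hδ : 0 < ε / (8 * L) := by positivity
  obtain ⟨t, -, htf, htc⟩ := (isCompact_closedBall (0 : ℂ) R).finite_cover_balls hδ
  have h1 : ∀ᶠ n in (𝒰 : Filter ℕ), ∀ c ∈ t, dist (F n c) (f c) < ε / 4 := by
    rw [Filter.eventually_all_finite htf]
    intro c _
    exact (Metric.tendsto_nhds.1 (hf c)) (ε / 4) (by positivity)
  filter_upwards [h1, hF] with n hn hnS z hz
  obtain ⟨c, hc, hzc⟩ : ∃ c ∈ t, z ∈ ball c (ε / (8 * L)) := by simpa using htc hz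
  have h2 : ‖z - c‖ < ε / (8 * L) := by simpa [dist_eq_norm] using hzc
  have h3 : L * ‖z - c‖ ≤ ε / 8 := by
    calc L * ‖z - c‖ ≤ L * (ε / (8 * L)) := mul_le_mul_of_nonneg_left h2.le hL.le
      _ = ε / 8 := by field_simp
  have h4 := hlip _ hnS z c
  have h5 := hlip _ hfS z c
  have h6 := hn c hc
  have h7 := dist_triangle4 (F n z) (F n c) (f c) (f z)
  rw [dist_comm (f c) (f z)] at h7
  linarith

/-- the function `rho` is continuous -/
theorem Flow.continuous_rho (h : Flow K Λ S T) (M : ℕ) {f g : ℂ → Y} (hf : f ∈ S) (hg : g ∈ S) : Continuous (rho M T f g) := by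
  have hfc : Continuous f := by
    obtain ⟨L, _, hlip⟩ := h.lip
    exact (LipschitzWith.of_dist_le' (K := L) fun z w => by
      rw [dist_eq_norm z w]; exact hlip f hf z w).continuous
  have hgc : Continuous g := by
    obtain ⟨L, _, hlip⟩ := h.lip
    exact (LipschitzWith.of_dist_le' (K := L) fun z w => by
      rw [dist_eq_norm z w]; exact hlip g hg z w).continuous
  have hT : Continuous fun z => T (f z) := h.T_cont.comp_continuous hfc (h.mem f hf)
  exact ((hfc.dist hgc).pow M).mul hT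

/-- maps in `S` are continuous -/
theorem Flow.continuous (h : Flow K Λ S T) {f : ℂ → Y} (hf : f ∈ S) : Continuous f := by
  obtain ⟨L, _, hlip⟩ := h.lip
  exact (LipschitzWith.of_dist_le' (K := L) fun z w => by
    rw [dist_eq_norm z w]; exact hlip f hf z w).continuous

/-- `rho` is bounded on `S` -/
theorem Flow.rho_le (h : Flow K Λ S T) (M : ℕ) : ∃ C : ℝ, 0 ≤ C ∧ ∀ f ∈ S, ∀ g ∈ S, ∀ z, rho M T f g z ≤ C := by
  obtain ⟨C, hC⟩ := h.compact.exists_bound_of_continuousOn h.T_cont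
  refine ⟨diam K ^ M * |C|, by positivity, fun f hf g hg z => ?_⟩
  have h1 : dist (f z) (g z) ≤ diam K :=
    dist_le_diam_of_mem h.compact.isBounded (h.mem f hf z) (h.mem g hg z)
  have h2 : T (f z) ≤ |C| := (le_abs_self _).trans ((hC _ (h.mem f hf z)).trans (le_abs_self C))
  unfold rho
  exact mul_le_mul (pow_le_pow_left₀ dist_nonneg h1 M) h2 (h.T_nonneg _ (h.mem f hf z)) (pow_nonneg diam_nonneg M)

theorem Flow.rho_nonneg (h : Flow K Λ S T) (M : ℕ) {f g : ℂ → Y} (hf : f ∈ S) (z : ℂ) : 0 ≤ rho M T f g z := by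
  exact mul_nonneg (pow_nonneg dist_nonneg M) (h.T_nonneg _ (h.mem f hf z))

end Pool.Agent.H62.EF
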