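import Pool.Agent.H62.EF.DynB

/-!
# EF DynS: separation of the maps with `T ∘ f = 0`

Suppose the claim is false.  For every `n` (with `ε₁ = 1 / (n + 1)`, `n₁ = n + 1`) there are `f n ≠ g n` in `S`, with `T ∘ f n = 0`,
`T ∘ g n = 0`, and `a n`, with `dist (f n z) (g n z) ≤ 1 / (n + 1)` on `closedBall (a n) (n + 1)`.  Let `l n ∈ Λ`, `‖a n - l n‖ ≤ R`
(`cocompact`), `f' n z = f n (z + l n)`, `g' n z = g n (z + l n)`; these are in `S` (`trans`), `f' n ≠ g' n`.  Along the ultrafilter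
`hyperfilter ℕ`: `f' n → f ∈ S` pointwise (`exists_lim`).  For fixed `z`: `z + l n ∈ closedBall (a n) (n + 1)` for `n ≥ ‖z‖ + R`, so
`dist (f' n z) (g' n z) → 0` and `g' n → f` as well.  `T (f z) = 0` because `T` is continuous on `K`.  Let `z₀, r, ε` be as in `iso`
for `f`.  By `unif` (`closedBall 0 (‖z₀‖ + r)`), eventually `dist (f' n z) (f z) < ε` and `dist (g' n z) (f z) < ε` on `ball z₀ r`, so
`f' n z = f z = g' n z` there, and `f' n = g' n` by `uniq`: contradiction.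
-/

set_option autoImplicit false

open Topology Filter Metric

namespace Pool.Agent.H62.EF

variable {Y : Type} [MetricSpace Y] {K : Set Y} {Λ : AddSubgroup ℂ} {S : Set (ℂ → Y)} {T : Y → ℝ}

theorem Flow.sep (h : Flow K Λ S T) : ∃ ε₁ n₁ : ℝ, 0 < ε₁ ∧ 0 < n₁ ∧ ∀ f ∈ S, ∀ g ∈ S, (∀ z, T (f z) = 0) →
    (∀ z, T (g z) = 0) → ∀ a : ℂ, (∀ z ∈ closedBall a n₁, dist (f z) (g z) ≤ ε₁) → f = g := by
  by_contra hcon
  have H : ∀ n : ℕ, ∃ (f g : ℂ → Y) (a : ℂ), f ∈ S ∧ g ∈ S ∧ (∀ z, T (f z) = 0) ∧ (∀ z, T (g z) = 0) ∧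
      (∀ z ∈ closedBall a ((n : ℝ) + 1), dist (f z) (g z) ≤ 1 / ((n : ℝ) + 1)) ∧ f ≠ g := by
    intro n
    by_contra hn
    apply hcon
    refine ⟨1 / ((n : ℝ) + 1), (n : ℝ) + 1, by positivity, by positivity, ?_⟩
    intro f hf g hg hTf hTg a hd
    by_contra hne
    exact hn ⟨f, g, a, hf, hg, hTf, hTg, hd, hne⟩
  choose f g a hf hg hTf hTg hd hne using H
  obtain ⟨R, hR, hRl⟩ := h.lat.cocompact
  choose l hl hal using fun n => hRl (a n)
  have hf' : ∀ n, (fun z => f n (z + l n)) ∈ S := fun n => h.trans _ (hf n) _ (hl n)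
  have hg' : ∀ n, (fun z => g n (z + l n)) ∈ S := fun n => h.trans _ (hg n) _ (hl n)
  have hne' : ∀ n, (fun z => f n (z + l n)) ≠ (fun z => g n (z + l n)) := by
    intro n he
    apply hne n
    funext z
    have h1 := congrFun he (z - l n)
    simpa using h1
  obtain ⟨φ, hφS, hφ⟩ := h.exists_lim (hyperfilter ℕ) (fun n z => f n (z + l n)) (Eventually.of_forall hf')
  have hclose : ∀ z, Tendsto (fun n => dist (f n (z + l n)) (g n (z + l n))) (hyperfilter ℕ : Filter ℕ) (𝓝 0) := by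
    intro z
    have hat : Tendsto (fun n => dist (f n (z + l n)) (g n (z + l n))) atTop (𝓝 0) := by
      have hz : Tendsto (fun n : ℕ => 1 / ((n : ℝ) + 1)) atTop (𝓝 0) := tendsto_one_div_add_atTop_nhds_zero_nat
      refine tendsto_of_tendsto_of_tendsto_of_le_of_le' tendsto_const_nhds hz (Eventually.of_forall fun n => dist_nonneg) ?_
      obtain ⟨m, hm⟩ := exists_nat_ge (‖z‖ + R)
      filter_upwards [eventually_ge_atTop m] with n hn
      apply hd n
      rw [mem_closedBall, dist_eq_norm]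
      have h1 : z + l n - a n = z - (a n - l n) := by ring
      have h2 : ‖z - (a n - l n)‖ ≤ ‖z‖ + ‖a n - l n‖ := norm_sub_le _ _
      have h3 : (m : ℝ) ≤ n := by exact_mod_cast hn
      rw [h1]
      linarith [hal n]
    exact hat.mono_left Nat.hyperfilter_le_atTop
  have hφg : ∀ z, Tendsto (fun n => g n (z + l n)) (hyperfilter ℕ : Filter ℕ) (𝓝 (φ z)) := fun z => (hφ z).congr_dist (hclose z)
  have hTφ : ∀ z, T (φ z) = 0 := by
    intro z
    have h1 : Tendsto (fun n => f n (z + l n)) (hyperfilter ℕ : Filter ℕ) (𝓝[K] (φ z)) :=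
      tendsto_nhdsWithin_iff.2 ⟨hφ z, Eventually.of_forall fun n => h.mem _ (hf' n) z⟩
    have h2 : Tendsto (fun n => T (f n (z + l n))) (hyperfilter ℕ : Filter ℕ) (𝓝 (T (φ z))) :=
      (h.T_cont (φ z) (h.mem _ hφS z)).tendsto.comp h1
    have h3 : Tendsto (fun n => T (f n (z + l n))) (hyperfilter ℕ : Filter ℕ) (𝓝 0) := by
      simp only [hTf]
      exact tendsto_const_nhds
    exact tendsto_nhds_unique h2 h3
  obtain ⟨z₀, r, ε, hr, hε, hiso⟩ := h.iso φ hφS hTφ
  have e1 := h.unif (hyperfilter ℕ) (fun n z => f n (z + l n)) (Eventually.of_forall hf') hφ (‖z₀‖ + r) ε hε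
  have e2 := h.unif (hyperfilter ℕ) (fun n z => g n (z + l n)) (Eventually.of_forall hg') hφg (‖z₀‖ + r) ε hε
  obtain ⟨n, h1, h2⟩ := (e1.and e2).exists
  apply hne' n
  apply h.uniq _ (hf' n) _ (hg' n) z₀
  filter_upwards [ball_mem_nhds z₀ hr] with z hz
  have hz' : z ∈ closedBall (0 : ℂ) (‖z₀‖ + r) := by
    rw [mem_closedBall, dist_zero_right]
    have h3 : ‖z‖ ≤ ‖z - z₀‖ + ‖z₀‖ := by
      have := norm_add_le (z - z₀) z₀
      simpa using this
    have h4 : ‖z - z₀‖ < r := by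
      rw [← dist_eq_norm]
      exact mem_ball.1 hz
    linarith
  have h3 := hiso _ (hf' n) (fun z => hTf n _) z hz (h1 z hz')
  have h4 := hiso _ (hg' n) (fun z => hTg n _) z hz (h2 z hz')
  exact h3.trans h4.symm

end Pool.Agent.H62.EF
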