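import Pool.Agent.H62.EF.DynA
import Pool.Agent.H62.EF.DynS

/-!
# EF DynF: a flow is finite

Let `M, κ, C, r₁, ε₀` be as in `Flow.decay`, `ε₁, n₁` as in `Flow.sep`, `ε = min ε₀ ε₁`.

(a) `eq_of_rho`: let `f, g ∈ S` and `rho M T f g z = 0` for all `z` in a non-empty open set `U` and `¬ ∀ z, T (f z) = 0`.  Then `f = g`: by
`T_dense` there is `z₁ ∈ U` with `T (f z₁) ≠ 0`, and `T (f z) ≠ 0` for `z` near `z₁` (continuity), so `dist (f z) (g z) = 0` near `z₁`;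
`uniq`.

(b) `eq_of_close`: let `f, g ∈ S`, `dist (f z) (g z) ≤ ε` for all `z`.  Then `f = g`: `decay` with `c = 0` and `R → ∞` gives
`rho M T f g = 0` and (exchange `f` and `g`) `rho M T g f = 0`.  If `T ∘ f` is not `0`, or `T ∘ g` is not `0`: (a).  Otherwise `sep`.

(c) Let `S` be infinite.  Claim: for every `n` there are `f ≠ g` in `S` with `dist (f z) (g z) ≤ 1 / (n + 1)` on `closedBall 0 n`.  Let
`h : ℕ → S` be injective; along `hyperfilter ℕ` `h k → f` pointwise (`exists_lim`), and by `unif` the set of the `k` with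
`dist (h k z) (f z) < 1 / (2 (n + 1))` on `closedBall 0 n` is in `hyperfilter ℕ`, so it is infinite and contains two elements.

(d) For `n` with `1 / (n + 1) ≤ ε` let `f n ≠ g n` be as in (c).  By (b) the set `{z | ε < dist (f n z) (g n z)}` is not empty; it is open
and does not meet `closedBall 0 n`; let `R n` be the infimum of `‖z‖` on it, `R n ≥ n`.  There is a point `z n` in its closure with
`‖z n‖ = R n` (compactness), so `ε ≤ dist (f n (z n)) (g n (z n))`, and `dist (f n z) (g n z) ≤ ε` for `‖z‖ < R n`, hence (continuity)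
for `‖z‖ ≤ R n` if `R n > 0`.  (So: for every `n ≥ n₀`, `n₀ ≥ 1`, there are `f ≠ g` in `S`, `R ≥ n` and `z₁` with `‖z₁‖ = R`,
`ε ≤ dist (f z₁) (g z₁)`, `dist (f z) (g z) ≤ ε` on `closedBall 0 R`.)

(e) Let `l n ∈ Λ`, `‖z n - l n‖ ≤ R₀` (`cocompact`), `w n = z n - l n`, `f' n z = f n (z + l n)`, `g' n z = g n (z + l n)`, both in `S`.
Along `𝒰 = hyperfilter ℕ`: `w n → w`, `f' n → f'`, `g' n → g'` in `S` (pointwise), and the unit numbers `e n = z n / R n → e`, `‖e‖ = 1`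
(compactness).  `f' n (w n) = f n (z n)`, and by `lip` `dist (f' n (w n)) (f' n w) → 0`; so `ε ≤ dist (f' w) (g' w)` and `f' ≠ g'`.
`dist (f' n z) (g' n z) ≤ ε` if `‖z + l n‖ ≤ R n`, i.e. `z ∈ closedBall (-l n) (R n)`.  Let `y = z - w`,
`H = {z | Re ((z - w) * conj e) < -(r₁ + 1)}`.  For `z ∈ H`: `z + l n = z - w n + z n`,
`‖z + l n‖² = ‖z - w n‖² + 2 R n Re ((z - w n) * conj (e n)) + (R n)²`, and `Re ((z - w n) * conj (e n)) → Re (y * conj e) < -(r₁ + 1)`,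
`‖z - w n‖ → ‖y‖`; so eventually `‖z + l n‖² ≤ (R n)² - 2 R n (r₁ + 1) + (‖y‖ + 1)²`, and
`(R n - r₁)² - ‖z + l n‖² ≥ 2 R n - (‖y‖ + 1)² + r₁² → ∞`.  By `decay` with `c = -l n`, `R = R n`:
`rho M T (f' n) (g' n) z → 0` and `rho M T (g' n) (f' n) z → 0`.  As `T` is continuous on `K` and `f' n z → f' z`, `g' n z → g' z`:
`rho M T f' g' z = 0 = rho M T g' f' z` for `z ∈ H`, and `dist (f' z) (g' z) ≤ ε` for `z ∈ H`.  `H` is open and not empty.  If `T ∘ f'` is not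
`0` then `f' = g'` by (a); the same if `T ∘ g'` is not `0`.  Otherwise `f' = g'` by `sep`: `H` contains a `closedBall a n₁`
(`a = w - (r₁ + 2 + n₁) e`).  Contradiction.
-/

set_option autoImplicit false

open Topology Filter Metric

namespace Pool.Agent.H62.EF

variable {Y : Type} [MetricSpace Y] {K : Set Y} {Λ : AddSubgroup ℂ} {S : Set (ℂ → Y)} {T : Y → ℝ}

private theorem dynF_eq_of_rho (h : Flow K Λ S T) {M : ℕ} {f g : ℂ → Y} (hf : f ∈ S) (hg : g ∈ S)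
    {U : Set ℂ} (hU : IsOpen U) (hne : U.Nonempty) (hr : ∀ z ∈ U, rho M T f g z = 0)
    (hT : ¬ ∀ z, T (f z) = 0) : f = g := by
  obtain ⟨z0, hz0⟩ := hne
  have hd := (h.T_dense f hf).resolve_left hT
  have h1 : ∃ᶠ z in 𝓝 z0, T (f z) ≠ 0 ∧ z ∈ U := (hd z0).and_eventually (hU.mem_nhds hz0)
  obtain ⟨z1, hz1, hzU⟩ := h1.exists
  have hc : Continuous fun z => T (f z) := h.T_cont.comp_continuous (h.continuous hf) (h.mem f hf)
  have h2 : ∀ᶠ z in 𝓝 z1, T (f z) ≠ 0 := hc.continuousAt.eventually_ne hz1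
  apply h.uniq f hf g hg z1
  filter_upwards [h2, hU.mem_nhds hzU] with z hz hzU
  have h3 := hr z hzU
  rw [rho, mul_eq_zero] at h3
  have h4 := h3.resolve_right hz
  have h5 : dist (f z) (g z) = 0 := by
    by_contra hne
    exact pow_ne_zero _ hne h4
  exact dist_eq_zero.1 h5

private theorem dynF_concl (h : Flow K Λ S T) {M : ℕ} {ε₁ n₁ : ℝ} (hn₁ : 0 < n₁)
    (hsep : ∀ f ∈ S, ∀ g ∈ S, (∀ z, T (f z) = 0) → (∀ z, T (g z) = 0) → ∀ a : ℂ,
      (∀ z ∈ closedBall a n₁, dist (f z) (g z) ≤ ε₁) → f = g)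
    {f g : ℂ → Y} (hf : f ∈ S) (hg : g ∈ S) {U : Set ℂ} (hU : IsOpen U) {a : ℂ}
    (ha : closedBall a n₁ ⊆ U) (hr : ∀ z ∈ U, rho M T f g z = 0)
    (hr' : ∀ z ∈ U, rho M T g f z = 0) (hd : ∀ z ∈ U, dist (f z) (g z) ≤ ε₁) : f = g := by
  have hne : U.Nonempty := ⟨a, ha (mem_closedBall_self hn₁.le)⟩
  by_cases h1 : ∀ z, T (f z) = 0
  · by_cases h2 : ∀ z, T (g z) = 0
    · exact hsep f hf g hg h1 h2 a fun z hz => hd z (ha hz)
    · exact (dynF_eq_of_rho h hg hf hU hne hr' h2).symm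
  · exact dynF_eq_of_rho h hf hg hU hne hr h1

private theorem dynF_exp {ι : Type*} {l : Filter ι} {κ C : ℝ} (hκ : 0 < κ) {φ : ι → ℝ}
    (hφ : Tendsto φ l atTop) : Tendsto (fun i => C * Real.exp (-κ * φ i)) l (𝓝 0) := by
  have h1 : Tendsto (fun i => -κ * φ i) l atBot := hφ.const_mul_atTop_of_neg (neg_neg_of_pos hκ)
  have h2 := (Real.tendsto_exp_atBot.comp h1).const_mul C
  rw [mul_zero] at h2
  exact h2

private theorem dynF_zero (h : Flow K Λ S T) {M : ℕ} {κ C r₁ ε₀ : ℝ} (hκ : 0 < κ)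
    (hdec : ∀ f ∈ S, ∀ g ∈ S, ∀ (c : ℂ) (R : ℝ), r₁ ≤ R →
      (∀ z ∈ closedBall c R, dist (f z) (g z) ≤ ε₀) → ∀ z ∈ closedBall c R,
        rho M T f g z ≤ C * Real.exp (-κ * ((R - r₁) ^ 2 - ‖z - c‖ ^ 2)))
    {f g : ℂ → Y} (hf : f ∈ S) (hg : g ∈ S) (hd : ∀ z, dist (f z) (g z) ≤ ε₀) (z : ℂ) :
    rho M T f g z = 0 := by
  apply le_antisymm _ (h.rho_nonneg M hf z)
  have h1 : Tendsto (fun R : ℝ => (R - r₁) ^ 2 - ‖z - 0‖ ^ 2) atTop atTop := by
    have h2 : Tendsto (fun R : ℝ => R - r₁) atTop atTop := tendsto_atTop_add_const_right _ _ tendsto_id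
    have h3 : Tendsto (fun R : ℝ => (R - r₁) ^ 2) atTop atTop :=
      (tendsto_pow_atTop two_ne_zero).comp h2
    exact tendsto_atTop_add_const_right _ _ h3
  refine ge_of_tendsto (dynF_exp (C := C) hκ h1) ?_
  filter_upwards [eventually_ge_atTop r₁, eventually_ge_atTop ‖z‖] with R hR1 hR2
  exact hdec f hf g hg 0 R hR1 (fun z _ => hd z) z (by simpa using hR2)

private theorem dynF_two (h : Flow K Λ S T) (hinf : S.Infinite) (R ε : ℝ) (hε : 0 < ε) :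
    ∃ f ∈ S, ∃ g ∈ S, f ≠ g ∧ ∀ z ∈ closedBall (0 : ℂ) R, dist (f z) (g z) < ε := by
  let e := hinf.natEmbedding
  have hF : ∀ᶠ n in ((hyperfilter ℕ : Ultrafilter ℕ) : Filter ℕ), (fun k => (e k : ℂ → Y)) n ∈ S :=
    Eventually.of_forall fun n => (e n).2
  obtain ⟨f, hf, hlim⟩ := h.exists_lim (hyperfilter ℕ) (fun k => (e k : ℂ → Y)) hF
  have h1 := h.unif (hyperfilter ℕ) (fun k => (e k : ℂ → Y)) hF hlim R (ε / 2) (half_pos hε)
  have h2 : {k : ℕ | ∀ z ∈ closedBall (0 : ℂ) R, dist ((e k : ℂ → Y) z) (f z) < ε / 2}.Infinite := by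
    intro hfin
    exact notMem_hyperfilter_of_finite hfin h1
  obtain ⟨i, hi, j, hj, hij⟩ := h2.nontrivial
  refine ⟨e i, (e i).2, e j, (e j).2, ?_, ?_⟩
  · intro heq
    exact hij (e.injective (Subtype.ext heq))
  · intro z hz
    have h3 := hi z hz
    have h4 := hj z hz
    calc dist ((e i : ℂ → Y) z) ((e j : ℂ → Y) z) ≤ dist ((e i : ℂ → Y) z) (f z) +
          dist ((e j : ℂ → Y) z) (f z) := dist_triangle_right _ _ _
      _ < ε / 2 + ε / 2 := add_lt_add h3 h4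
      _ = ε := add_halves ε

private theorem dynF_max (h : Flow K Λ S T) {ε : ℝ} (hε : 0 < ε)
    (hclose : ∀ f ∈ S, ∀ g ∈ S, (∀ z, dist (f z) (g z) ≤ ε) → f = g) (hinf : S.Infinite)
    (ρ : ℝ) (hρ : 0 < ρ) : ∃ f ∈ S, ∃ g ∈ S, ∃ z₁ : ℂ, ρ < ‖z₁‖ ∧ ε ≤ dist (f z₁) (g z₁) ∧
      ∀ z, ‖z‖ ≤ ‖z₁‖ → dist (f z) (g z) ≤ ε := by
  obtain ⟨f, hf, g, hg, hne, hd⟩ := dynF_two h hinf ρ ε hε
  have hcont : Continuous fun z => dist (f z) (g z) := (h.continuous hf).dist (h.continuous hg)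
  have hcl : IsClosed {z : ℂ | ε ≤ dist (f z) (g z)} := isClosed_le continuous_const hcont
  have hnon : {z : ℂ | ε ≤ dist (f z) (g z)}.Nonempty := by
    by_contra hemp
    apply hne
    apply hclose f hf g hg
    intro z
    by_contra hz
    exact hemp ⟨z, (not_le.1 hz).le⟩
  obtain ⟨z₁, hz₁, hmin⟩ := hcl.exists_infDist_eq_dist hnon 0
  have hlt : ∀ z, ‖z‖ < ‖z₁‖ → dist (f z) (g z) < ε := by
    intro z hz
    by_contra hge
    have h1 : infDist 0 {z : ℂ | ε ≤ dist (f z) (g z)} ≤ dist 0 z :=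
      infDist_le_dist_of_mem (not_lt.1 hge)
    rw [hmin, dist_zero_left, dist_zero_left] at h1
    linarith
  have hρ1 : ρ < ‖z₁‖ := by
    by_contra hge
    have h1 := hd z₁ (by simpa using not_lt.1 hge)
    exact absurd hz₁ (not_le.2 h1)
  refine ⟨f, hf, g, hg, z₁, hρ1, hz₁, ?_⟩
  intro z hz
  have h1 : closedBall (0 : ℂ) ‖z₁‖ ⊆ {z : ℂ | dist (f z) (g z) ≤ ε} := by
    rw [← closure_ball (0 : ℂ) (by linarith : ‖z₁‖ ≠ 0)]
    apply closure_minimal _ (isClosed_le hcont continuous_const)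
    intro w hw
    exact (hlt w (by simpa using hw)).le
  exact h1 (by simpa using hz)

theorem Flow.finite (h : Flow K Λ S T) : S.Finite := by
  by_contra hnf
  have hinf : S.Infinite := hnf
  obtain ⟨M, κ, C, r₁, ε₀, -, hκ, hC, hr₁, hε₀, hdec⟩ := h.decay
  obtain ⟨ε₁, n₁, hε₁, hn₁, hsep⟩ := h.sep
  obtain ⟨L, hL, hlip⟩ := h.lip
  obtain ⟨R₀, hR₀, hcoc⟩ := h.lat.cocompact
  set ε := min ε₀ ε₁ with hεdef
  have hε : 0 < ε := lt_min hε₀ hε₁
  have hle0 : ε ≤ ε₀ := min_le_left _ _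
  have hle1 : ε ≤ ε₁ := min_le_right _ _
  have hclose : ∀ f ∈ S, ∀ g ∈ S, (∀ z, dist (f z) (g z) ≤ ε) → f = g := by
    intro f hf g hg hd
    have h1 : ∀ z, rho M T f g z = 0 :=
      dynF_zero h hκ hdec hf hg fun z => (hd z).trans hle0
    have h2 : ∀ z, rho M T g f z = 0 :=
      dynF_zero h hκ hdec hg hf fun z => by rw [dist_comm]; exact (hd z).trans hle0
    exact dynF_concl (M := M) h hn₁ hsep hf hg isOpen_univ (a := 0) (Set.subset_univ _)
      (fun z _ => h1 z) (fun z _ => h2 z) fun z _ => (hd z).trans hle1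
  have hex : ∀ n : ℕ, ∃ f ∈ S, ∃ g ∈ S, ∃ z₁ : ℂ, (n : ℝ) + 1 < ‖z₁‖ ∧ ε ≤ dist (f z₁) (g z₁) ∧
      ∀ z, ‖z‖ ≤ ‖z₁‖ → dist (f z) (g z) ≤ ε := fun n =>
    dynF_max h hε hclose hinf _ (by positivity)
  choose f hf g hg z hz1 hz2 hz3 using hex
  choose l hl hlR using fun n => hcoc (z n)
  set 𝒰 : Ultrafilter ℕ := hyperfilter ℕ with h𝒰
  -- the translates
  have hf' : ∀ᶠ n in (𝒰 : Filter ℕ), (fun n x => f n (x + l n)) n ∈ S :=
    Eventually.of_forall fun n => h.trans _ (hf n) _ (hl n)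
  have hg' : ∀ᶠ n in (𝒰 : Filter ℕ), (fun n x => g n (x + l n)) n ∈ S :=
    Eventually.of_forall fun n => h.trans _ (hg n) _ (hl n)
  obtain ⟨F, hF, hFlim⟩ := h.exists_lim 𝒰 (fun n x => f n (x + l n)) hf'
  obtain ⟨G, hG, hGlim⟩ := h.exists_lim 𝒰 (fun n x => g n (x + l n)) hg'
  obtain ⟨w, -, hw⟩ : ∃ w ∈ closedBall (0 : ℂ) R₀, Tendsto (fun n => z n - l n) 𝒰 (𝓝 w) := by
    obtain ⟨w, hw1, hw2⟩ := (isCompact_closedBall (0 : ℂ) R₀).ultrafilter_le_nhds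
      (𝒰.map fun n => z n - l n) (by
        rw [Ultrafilter.coe_map, le_principal_iff, mem_map]
        exact Filter.univ_mem' fun n => by simpa using hlR n)
    exact ⟨w, hw1, hw2⟩
  obtain ⟨e, he, helim⟩ : ∃ e ∈ sphere (0 : ℂ) 1,
      Tendsto (fun n => z n / (‖z n‖ : ℂ)) 𝒰 (𝓝 e) := by
    obtain ⟨w, hw1, hw2⟩ := (isCompact_sphere (0 : ℂ) 1).ultrafilter_le_nhds
      (𝒰.map fun n => z n / (‖z n‖ : ℂ)) (by
        rw [Ultrafilter.coe_map, le_principal_iff, mem_map]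
        refine Filter.univ_mem' fun n => ?_
        have h1 : ‖z n‖ ≠ 0 := by
          have := hz1 n
          have h2 : (0 : ℝ) ≤ n := Nat.cast_nonneg n
          linarith
        simp [h1])
    exact ⟨w, hw1, hw2⟩
  have he1 : ‖e‖ = 1 := by simpa using he
  have hRlim : Tendsto (fun n => ‖z n‖) (𝒰 : Filter ℕ) atTop := by
    have h1 : Tendsto (fun n : ℕ => ‖z n‖) atTop atTop := by
      refine tendsto_atTop_mono (fun n => ?_) tendsto_natCast_atTop_atTop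
      have := hz1 n
      linarith
    exact h1.mono_left Nat.hyperfilter_le_atTop
  -- the limits differ
  have hval : ∀ (φ : ℕ → ℂ → Y) (Φ : ℂ → Y), (∀ n, φ n ∈ S) →
      (∀ x, Tendsto (fun n => φ n (x + l n)) 𝒰 (𝓝 (Φ x))) →
      Tendsto (fun n => φ n (z n)) 𝒰 (𝓝 (Φ w)) := by
    intro φ Φ hφ hlim
    have h1 : Tendsto (fun n => dist (φ n (z n)) (φ n (w + l n))) 𝒰 (𝓝 0) := by
      have h2 : Tendsto (fun n => L * ‖(z n - l n) - w‖) 𝒰 (𝓝 0) := by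
        have h3 := (tendsto_iff_norm_sub_tendsto_zero.1 hw).const_mul L
        rw [mul_zero] at h3
        exact h3
      refine squeeze_zero (fun n => dist_nonneg) (fun n => ?_) h2
      refine (hlip _ (hφ n) _ _).trans (le_of_eq ?_)
      congr 2
      ring
    rw [tendsto_iff_dist_tendsto_zero]
    have h4 := (h1.add (tendsto_iff_dist_tendsto_zero.1 (hlim w)))
    rw [add_zero] at h4
    exact squeeze_zero (fun n => dist_nonneg) (fun n => dist_triangle _ _ _) h4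
  have hFw := hval f F hf hFlim
  have hGw := hval g G hg hGlim
  have hFG : F ≠ G := by
    intro heq
    have h1 : ε ≤ dist (F w) (G w) :=
      ge_of_tendsto (hFw.dist hGw) (Eventually.of_forall fun n => hz2 n)
    rw [heq, dist_self] at h1
    linarith
  -- the half plane
  have hhalf : ∀ x : ℂ, ((x - w) * (starRingEnd ℂ) e).re < -(r₁ + 1) →
      ∃ B : ℝ, ∀ᶠ n in (𝒰 : Filter ℕ), ‖x + l n‖ ^ 2 ≤ ‖z n‖ ^ 2 - 2 * ‖z n‖ * (r₁ + 1) + B := by
    intro x hx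
    refine ⟨‖x - w‖ ^ 2 + 1, ?_⟩
    have h1 : Tendsto (fun n => x - (z n - l n)) 𝒰 (𝓝 (x - w)) := hw.const_sub x
    have h2 : Tendsto (fun n => ((x - (z n - l n)) *
        (starRingEnd ℂ) (z n / (‖z n‖ : ℂ))).re) 𝒰 (𝓝 ((x - w) * (starRingEnd ℂ) e).re) :=
      (Complex.continuous_re.tendsto _).comp
        (h1.mul ((Complex.continuous_conj.tendsto _).comp helim))
    have h3 : Tendsto (fun n => ‖x - (z n - l n)‖ ^ 2) 𝒰 (𝓝 (‖x - w‖ ^ 2)) := h1.norm.pow 2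
    filter_upwards [h2.eventually (gt_mem_nhds hx),
      h3.eventually (gt_mem_nhds (lt_add_one (‖x - w‖ ^ 2)))] with n hn1 hn2
    have hpos : 0 < ‖z n‖ := by
      have := hz1 n
      have h2 : (0 : ℝ) ≤ n := Nat.cast_nonneg n
      linarith
    have h4 : ((x - (z n - l n)) * (starRingEnd ℂ) (z n)).re =
        ‖z n‖ * ((x - (z n - l n)) * (starRingEnd ℂ) (z n / (‖z n‖ : ℂ))).re := by
      have h5 : z n = (‖z n‖ : ℂ) * (z n / (‖z n‖ : ℂ)) := by
        rw [mul_div_cancel₀]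
        exact_mod_cast hpos.ne'
      conv_lhs => rw [h5, map_mul, Complex.conj_ofReal, mul_left_comm]
      rw [Complex.re_ofReal_mul]
      congr 5
      rw [← h5]
    have h6 : ‖x + l n‖ ^ 2 = ‖x - (z n - l n)‖ ^ 2 + ‖z n‖ ^ 2 +
        2 * ((x - (z n - l n)) * (starRingEnd ℂ) (z n)).re := by
      rw [← Complex.normSq_eq_norm_sq, ← Complex.normSq_eq_norm_sq, ← Complex.normSq_eq_norm_sq,
        ← Complex.normSq_add]
      congr 1
      ring
    rw [h6, h4]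
    have h7 : ‖z n‖ * ((x - (z n - l n)) * (starRingEnd ℂ) (z n / (‖z n‖ : ℂ))).re ≤
        ‖z n‖ * (-(r₁ + 1)) := mul_le_mul_of_nonneg_left hn1.le hpos.le
    linarith
  have hin : ∀ x : ℂ, ((x - w) * (starRingEnd ℂ) e).re < -(r₁ + 1) →
      ∀ᶠ n in (𝒰 : Filter ℕ), ‖x + l n‖ ≤ ‖z n‖ := by
    intro x hx
    obtain ⟨B, hB⟩ := hhalf x hx
    filter_upwards [hB, hRlim.eventually_ge_atTop B, hRlim.eventually_ge_atTop 0] with n h1 h2 h3
    have h4 : ‖x + l n‖ ^ 2 ≤ ‖z n‖ ^ 2 := by nlinarith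
    exact (pow_le_pow_iff_left₀ (norm_nonneg _) (norm_nonneg _) two_ne_zero).1 h4
  have hrho : ∀ (φ γ : ℕ → ℂ → Y) (Φ Γ : ℂ → Y), (∀ n, φ n ∈ S) → (∀ n, γ n ∈ S) → Φ ∈ S →
      (∀ x, Tendsto (fun n => φ n (x + l n)) 𝒰 (𝓝 (Φ x))) →
      (∀ x, Tendsto (fun n => γ n (x + l n)) 𝒰 (𝓝 (Γ x))) →
      (∀ n x, ‖x‖ ≤ ‖z n‖ → dist (φ n x) (γ n x) ≤ ε) →
      ∀ x : ℂ, ((x - w) * (starRingEnd ℂ) e).re < -(r₁ + 1) → rho M T Φ Γ x = 0 := by
    intro φ γ Φ Γ hφ hγ hΦ hlimφ hlimγ hd x hx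
    obtain ⟨B, hB⟩ := hhalf x hx
    have h1 : Tendsto (fun n => rho M T (fun y => φ n (y + l n)) (fun y => γ n (y + l n)) x) 𝒰
        (𝓝 (rho M T Φ Γ x)) := by
      have h2 : Tendsto (fun n => T (φ n (x + l n))) 𝒰 (𝓝 (T (Φ x))) := by
        have h3 := h.T_cont (Φ x) (h.mem Φ hΦ x)
        exact h3.tendsto.comp (tendsto_nhdsWithin_iff.2
          ⟨hlimφ x, Eventually.of_forall fun n => h.mem _ (hφ n) _⟩)
      exact (((hlimφ x).dist (hlimγ x)).pow M).mul h2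
    have h4 : Tendsto (fun n => C * Real.exp (-κ * (2 * ‖z n‖ + (r₁ ^ 2 - B)))) 𝒰 (𝓝 0) :=
      dynF_exp hκ (tendsto_atTop_add_const_right _ _ (hRlim.const_mul_atTop two_pos))
    apply le_antisymm
    · refine le_of_tendsto_of_tendsto h1 h4 ?_
      filter_upwards [hB, hin x hx, hRlim.eventually_ge_atTop r₁] with n hn1 hn2 hn3
      have h5 := hdec _ (h.trans _ (hφ n) _ (hl n)) _ (h.trans _ (hγ n) _ (hl n)) (-(l n)) ‖z n‖ hn3
        (fun y hy => (hd n _ (by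
          rw [mem_closedBall, dist_eq_norm, sub_neg_eq_add] at hy
          exact hy)).trans hle0) x (by
          rw [mem_closedBall, dist_eq_norm, sub_neg_eq_add]
          exact hn2)
      refine h5.trans ?_
      apply mul_le_mul_of_nonneg_left _ hC
      apply Real.exp_le_exp.2
      rw [sub_neg_eq_add]
      have h6 : 2 * ‖z n‖ + (r₁ ^ 2 - B) ≤ (‖z n‖ - r₁) ^ 2 - ‖x + l n‖ ^ 2 := by nlinarith
      nlinarith
    · exact h.rho_nonneg M hΦ x
  have hclH : ∀ x : ℂ, ((x - w) * (starRingEnd ℂ) e).re < -(r₁ + 1) → dist (F x) (G x) ≤ ε := by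
    intro x hx
    refine le_of_tendsto ((hFlim x).dist (hGlim x)) ?_
    filter_upwards [hin x hx] with n hn
    exact hz3 n _ hn
  apply hFG
  refine dynF_concl (M := M) h hn₁ hsep hF hG
    (U := {x : ℂ | ((x - w) * (starRingEnd ℂ) e).re < -(r₁ + 1)}) ?_
    (a := w - ((r₁ + 2 + n₁ : ℝ) : ℂ) * e) ?_ ?_ ?_ ?_
  · exact isOpen_lt (by fun_prop) continuous_const
  · intro x hx
    rw [mem_closedBall, dist_eq_norm] at hx
    have h1 : ((x - w) * (starRingEnd ℂ) e).re =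
        ((x - (w - ((r₁ + 2 + n₁ : ℝ) : ℂ) * e)) * (starRingEnd ℂ) e).re - (r₁ + 2 + n₁) := by
      have h2 : e * (starRingEnd ℂ) e = 1 := by
        rw [Complex.mul_conj, Complex.normSq_eq_norm_sq, he1]
        norm_num
      have h3 : (x - w) * (starRingEnd ℂ) e =
          (x - (w - ((r₁ + 2 + n₁ : ℝ) : ℂ) * e)) * (starRingEnd ℂ) e -
            ((r₁ + 2 + n₁ : ℝ) : ℂ) * (e * (starRingEnd ℂ) e) := by ring
      rw [h3, h2, mul_one, Complex.sub_re, Complex.ofReal_re]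
    have h4 : ((x - (w - ((r₁ + 2 + n₁ : ℝ) : ℂ) * e)) * (starRingEnd ℂ) e).re ≤ n₁ := by
      refine (Complex.re_le_norm _).trans ?_
      rw [norm_mul, RCLike.norm_conj, he1, mul_one]
      exact hx
    change ((x - w) * (starRingEnd ℂ) e).re < -(r₁ + 1)
    rw [h1]
    linarith
  · exact hrho f g F G hf hg hF hFlim hGlim hz3
  · exact hrho g f G F hg hf hG hGlim hFlim (fun n x hx => by
      rw [dist_comm]
      exact hz3 n x hx)
  · intro x hx
    exact (hclH x hx).trans hle1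

end Pool.Agent.H62.EF
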