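import Pool.Agent.H62.EF.DUl

/-!
# EF Tfl: the length of the form on vertical vectors

* `TfAt_chart`: `→`: `v = dσ_p e + a • x`, `dυ_p e = 0`, `w = dσ_p e' + a' • x`, `dυ_p e' = 1` (`DU.chart`), `x = χ.σ p`.  `e = λ • grd υ p`
  (`dυ_p ≠ 0`, so its kernel is spanned by `grd υ p`), `wd x v = wd x (dσ_p e) = ‖λ‖ wd x (dσ_p (grd υ p))`, and by `Form.add_smul`, `Form.det` (write
  `dσ_p e = e.1 • dσ_p (1,0) + e.2 • dσ_p (0,1)`; these vectors are in `Tan X x`)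
  `Ω x v w = (det2 e e')^M aCoef Ω χ p`, `det2 e e' = λ det2 (grd υ p) e' = -λ dυ_p e' = -λ`.  The powers of `‖λ‖` cancel (`wd x v > 0` so `λ ≠ 0`).
  `←`: `v = dσ_p (grd υ p)`, `w = dσ_p e'` with `dυ_p e' = 1` (`DU.of_chart`, `chart_imm`).
* `TfAt.smul`: `DU.smul`, `Form.scale`, `wd (c • x) (c • v) = ‖c‖² wd x v`: the power of `‖c‖` is `-1 + (1 + 2 M) - 2 M = 0`.
* `TfAt.unique`: by `exists_adm` (from the vector `w` with `DU x w 1`) `x = a • χ.σ 0` in a chart; `TfAt.smul` (with `a⁻¹`) and `TfAt_chart`.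
* `TfAt.exists`: `exists_adm`, `TfAt_chart` at `p = 0`, `TfAt.smul`.
* `TfAt.ne_zero`: with `v, w` as in `TfAt`: `Ω x v w ≠ 0` by `NoZeroOff`: `x, v, w` are linearly independent: `wd x v > 0`, so `x, v` are independent; if
  `w = a x + b v` then (in the chart at `x`, with `x = a₀ • χ.σ 0`; `DU.chart`, `chart_imm`: `dσ e' ∈ span (x, dσ e)` implies `e' ∈ ℂ e` by `chart_imm` applied to
  `e' - b e`) `dυ e' = b dυ e = 0`, but `dυ e' = 1`.
-/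

set_option autoImplicit false

open Topology Filter Metric

namespace Pool.Agent.H62.EF

open Pool.Agent.H36.BP (EN fs wd)
open Pool.Agent.H14.PP (IsCone Chart Form Tan aCoef)

variable {N : ℕ} {X : Set (EN N)} {Λ : AddSubgroup ℂ} {u : EN N → ℂ} {M : ℕ}

/-- the length of the form in a chart -/
noncomputable def TF (χ : Chart X) (υ : ℂ × ℂ → ℂ) (Ω : Form X M 1) (p : ℂ × ℂ) : ℝ :=
  ‖aCoef Ω χ p‖ * ‖χ.σ p‖ ^ (1 + 2 * M) / wd (χ.σ p) (fderiv ℂ χ.σ p (grd υ p)) ^ M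

private theorem Tfl_ker {υ : ℂ × ℂ → ℂ} {p : ℂ × ℂ} (h : fderiv ℂ υ p ≠ 0) {e : ℂ × ℂ} (he : fderiv ℂ υ p e = 0) :
    ∃ l : ℂ, e = l • grd υ p := by
  have hlin : ∀ e : ℂ × ℂ, fderiv ℂ υ p e = e.1 * fderiv ℂ υ p (1, 0) + e.2 * fderiv ℂ υ p (0, 1) := by
    intro e
    have h1 : e = e.1 • ((1 : ℂ), (0 : ℂ)) + e.2 • ((0 : ℂ), (1 : ℂ)) := by
      ext <;> simp
    conv_lhs => rw [h1]
    rw [map_add, map_smul, map_smul, smul_eq_mul, smul_eq_mul]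
  rw [hlin] at he
  by_cases ha : fderiv ℂ υ p (1, 0) = 0
  · by_cases hb : fderiv ℂ υ p (0, 1) = 0
    · exfalso
      apply h
      ext
      · simpa using ha
      · simpa using hb
    · refine ⟨-e.1 / fderiv ℂ υ p (0, 1), ?_⟩
      rw [ha, mul_zero, zero_add] at he
      have h2 : e.2 = 0 := (mul_eq_zero.1 he).resolve_right hb
      unfold grd
      ext
      · simp only [Prod.smul_fst, smul_eq_mul]
        field_simp
      · simp only [Prod.smul_snd, smul_eq_mul]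
        rw [ha, h2]
        ring
  · refine ⟨e.2 / fderiv ℂ υ p (1, 0), ?_⟩
    unfold grd
    ext
    · simp only [Prod.smul_fst, smul_eq_mul]
      field_simp
      linear_combination he
    · simp only [Prod.smul_snd, smul_eq_mul]
      field_simp

private theorem Tfl_det {υ : ℂ × ℂ → ℂ} {p : ℂ × ℂ} (e : ℂ × ℂ) : det2 (grd υ p) e = -(fderiv ℂ υ p e) := by
  have hlin : fderiv ℂ υ p e = e.1 * fderiv ℂ υ p (1, 0) + e.2 * fderiv ℂ υ p (0, 1) := by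
    have h1 : e = e.1 • ((1 : ℂ), (0 : ℂ)) + e.2 • ((0 : ℂ), (1 : ℂ)) := by
      ext <;> simp
    conv_lhs => rw [h1]
    rw [map_add, map_smul, map_smul, smul_eq_mul, smul_eq_mul]
  rw [hlin]
  unfold det2 grd
  ring

private theorem Tfl_grd0 {υ : ℂ × ℂ → ℂ} {p : ℂ × ℂ} : fderiv ℂ υ p (grd υ p) = 0 := by
  have h := Tfl_det (υ := υ) (p := p) (grd υ p)
  have h2 : det2 (grd υ p) (grd υ p) = 0 := by
    unfold det2
    ring
  rw [h2] at h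
  exact neg_eq_zero.1 h.symm

private theorem Tfl_grd_ne {υ : ℂ × ℂ → ℂ} {p : ℂ × ℂ} (h : fderiv ℂ υ p ≠ 0) : grd υ p ≠ 0 := by
  intro h0
  apply h
  unfold grd at h0
  rw [Prod.mk_eq_zero, neg_eq_zero] at h0
  ext
  · simpa using h0.2
  · simpa using h0.1

private theorem Tfl_wd (x v : EN N) (a : ℂ) : wd x (v + a • x) = wd x v := by
  have h := Pool.Agent.H36.BP.wd_inv x v 1 a
  rw [one_smul, one_smul, norm_one] at h
  rw [h]
  ring

private theorem Tfl_form (Ω : Form X M 1) {χ : Chart X} {υ : ℂ × ℂ → ℂ} {s : ℝ}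
    (h : Adm Λ u χ υ s) {p : ℂ × ℂ} (hp : p ∈ ball (0 : ℂ × ℂ) s) (e e' : ℂ × ℂ) (a a' : ℂ) :
    Ω.toFun (χ.σ p) (fderiv ℂ χ.σ p e + a • χ.σ p) (fderiv ℂ χ.σ p e' + a' • χ.σ p) = det2 e e' ^ M * aCoef Ω χ p := by
  have hp2 : p ∈ ball (0 : ℂ × ℂ) 2 := ball_subset_ball h.lt.le hp
  have hX : χ.σ p ∈ X := (χ.σ_mem p hp2).1
  have hT : ∀ e : ℂ × ℂ, Tan X (χ.σ p) (fderiv ℂ χ.σ p e) := fun e => (DU.of_chart h hp e).tan
  rw [Ω.add_smul _ hX _ _ (hT e) (hT e')]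
  have hlin : ∀ e : ℂ × ℂ, fderiv ℂ χ.σ p e = e.1 • fderiv ℂ χ.σ p (1, 0) + e.2 • fderiv ℂ χ.σ p (0, 1) := by
    intro e
    have h1 : e = e.1 • ((1 : ℂ), (0 : ℂ)) + e.2 • ((0 : ℂ), (1 : ℂ)) := by
      ext <;> simp
    conv_lhs => rw [h1]
    rw [map_add, map_smul, map_smul]
  rw [hlin e, hlin e', Ω.det _ hX _ _ (hT _) (hT _)]
  rfl

private theorem Tfl_mem {x v : EN N} {c : ℂ} (h : DU X Λ u x v c) : x ∈ X := by
  obtain ⟨γ, D, -, h2, h3, -⟩ := h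
  have h5 := h2.self_of_nhds
  rwa [h3] at h5

theorem TfAt_chart (hX : IsCone X) (hu : TorusMap X Λ u) (hΛ : Lat Λ) (Ω : Form X M 1) {χ : Chart X} {υ : ℂ × ℂ → ℂ} {s : ℝ}
    (h : Adm Λ u χ υ s) {p : ℂ × ℂ} (hp : p ∈ ball (0 : ℂ × ℂ) s) (t : ℝ) : TfAt Λ u Ω (χ.σ p) t ↔ t = TF χ υ Ω p := by
  have hp2 : p ∈ ball (0 : ℂ × ℂ) 2 := ball_subset_ball h.lt.le hp
  have hXp : χ.σ p ∈ X := (χ.σ_mem p hp2).1
  have hne := h.ne p hp
  have hg : 0 < wd (χ.σ p) (fderiv ℂ χ.σ p (grd υ p)) := chart_imm hX χ hp2 (Tfl_grd_ne hne)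
  constructor
  · rintro ⟨v, w, hv, hw, hpos, ht⟩
    obtain ⟨e, a, rfl, he⟩ := DU.chart hX hu hΛ h hp hv
    obtain ⟨e', a', rfl, he'⟩ := DU.chart hX hu hΛ h hp hw
    obtain ⟨l, hl⟩ := Tfl_ker hne he
    rw [Tfl_wd] at hpos
    rw [Tfl_form Ω h hp, Tfl_wd] at ht
    have h1 : wd (χ.σ p) (fderiv ℂ χ.σ p e) = ‖l‖ * wd (χ.σ p) (fderiv ℂ χ.σ p (grd υ p)) := by
      rw [hl, map_smul, Pool.Agent.H36.BP.wd_smul_right]
    have h2 : det2 e e' = -l := by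
      have h3 : det2 e e' = l * det2 (grd υ p) e' := by
        rw [hl]
        unfold det2
        simp only [Prod.smul_fst, Prod.smul_snd, smul_eq_mul]
        ring
      rw [h3, Tfl_det, he']
      ring
    have hl0 : 0 < ‖l‖ := by
      rw [h1] at hpos
      exact (pos_iff_pos_of_mul_pos hpos).2 hg
    rw [ht, h1, h2, norm_mul, norm_pow, norm_neg]
    unfold TF
    rw [mul_pow]
    have hl1 : ‖l‖ ^ M ≠ 0 := (pow_pos hl0 M).ne'
    have hg1 : wd (χ.σ p) (fderiv ℂ χ.σ p (grd υ p)) ^ M ≠ 0 := (pow_pos hg M).ne'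
    field_simp
  · intro ht
    obtain ⟨e0, he0⟩ : ∃ e0, fderiv ℂ υ p e0 ≠ 0 := by
      by_contra hcon
      push Not at hcon
      exact hne (ContinuousLinearMap.ext hcon)
    set e' : ℂ × ℂ := (fderiv ℂ υ p e0)⁻¹ • e0 with he'
    have h1 : fderiv ℂ υ p e' = 1 := by
      rw [he', map_smul, smul_eq_mul, inv_mul_cancel₀ he0]
    refine ⟨fderiv ℂ χ.σ p (grd υ p), fderiv ℂ χ.σ p e', ?_, ?_, hg, ?_⟩
    · have h2 := DU.of_chart h hp (grd υ p)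
      rwa [Tfl_grd0] at h2
    · have h2 := DU.of_chart h hp e'
      rwa [h1] at h2
    · have h2 := Tfl_form Ω h hp (grd υ p) e' 0 0
      rw [zero_smul, add_zero, add_zero, Tfl_det, h1] at h2
      rw [h2, ht, norm_mul, norm_pow, norm_neg, norm_one, one_pow, one_mul]
      rfl

theorem TfAt.smul (hX : IsCone X) (hu : TorusMap X Λ u) {Ω : Form X M 1} {x : EN N} {t : ℝ} (h : TfAt Λ u Ω x t) {c : ℂ}
    (hc : c ≠ 0) : TfAt Λ u Ω (c • x) t := by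
  obtain ⟨v, w, hv, hw, hpos, ht⟩ := h
  have hx : x ∈ X := Tfl_mem hv
  have hc0 : ‖c‖ ≠ 0 := norm_ne_zero_iff.2 hc
  have hcpos : 0 < ‖c‖ := norm_pos_iff.2 hc
  have hwd : wd (c • x) (c • v) = ‖c‖ ^ 2 * wd x v := by
    have h1 := Pool.Agent.H36.BP.wd_inv x v c 0
    rwa [zero_smul, add_zero] at h1
  refine ⟨c • v, c • w, DU.smul hX hu hv hc, DU.smul hX hu hw hc, ?_, ?_⟩
  · rw [hwd]
    positivity
  · have h1 := Ω.scale x hx v w hv.tan hw.tan c hc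
    rw [pow_one] at h1
    rw [ht, hwd, ← h1, norm_mul, norm_smul]
    have h2 : wd x v ^ M ≠ 0 := (pow_pos hpos M).ne'
    have h3 : ‖c‖ ^ M ≠ 0 := pow_ne_zero _ hc0
    rw [mul_pow, mul_pow, pow_add ‖c‖, pow_one, ← pow_mul]
    have h4 : ‖c‖ ^ (2 * M) ≠ 0 := pow_ne_zero _ hc0
    field_simp

theorem TfAt.unique (hX : IsCone X) (hch : Charts X) (hu : TorusMap X Λ u) (hΛ : Lat Λ) {Ω : Form X M 1} {x : EN N} (hx : x ∈ X)
    {t t' : ℝ} (h : TfAt Λ u Ω x t) (h' : TfAt Λ u Ω x t') : t = t' := by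
  obtain ⟨v, w, hv, hw, hpos, ht⟩ := id h
  obtain ⟨χ, υ, s, h1, h2, h3⟩ := exists_adm hX hch hu hΛ hx one_ne_zero hw
  obtain ⟨-, c, hc, h4⟩ := χ.surj x hx h1
  rw [h2] at h4
  have h0 : (0 : ℂ × ℂ) ∈ ball (0 : ℂ × ℂ) s := mem_ball_self h3.pos
  have h5 : c⁻¹ • x = χ.σ 0 := by
    conv_lhs => rw [h4]
    rw [smul_smul, inv_mul_cancel₀ hc, one_smul]
  have h6 := h.smul hX hu (inv_ne_zero hc)
  have h7 := h'.smul hX hu (inv_ne_zero hc)
  rw [h5] at h6 h7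
  rw [(TfAt_chart hX hu hΛ Ω h3 h0 t).1 h6, (TfAt_chart hX hu hΛ Ω h3 h0 t').1 h7]

theorem TfAt.exists (hX : IsCone X) (hch : Charts X) (hu : TorusMap X Λ u) (hΛ : Lat Λ) (Ω : Form X M 1) {x w : EN N} (hx : x ∈ X)
    (hw : DU X Λ u x w 1) : ∃ t, 0 ≤ t ∧ TfAt Λ u Ω x t := by
  obtain ⟨χ, υ, s, h1, h2, h3⟩ := exists_adm hX hch hu hΛ hx one_ne_zero hw
  obtain ⟨-, c, hc, h4⟩ := χ.surj x hx h1
  rw [h2] at h4
  have h0 : (0 : ℂ × ℂ) ∈ ball (0 : ℂ × ℂ) s := mem_ball_self h3.pos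
  refine ⟨TF χ υ Ω 0, ?_, ?_⟩
  · unfold TF
    exact div_nonneg (by positivity) (pow_nonneg (Pool.Agent.H36.BP.wd_nonneg _ _) _)
  · have h5 := (TfAt_chart hX hu hΛ Ω h3 h0 _).2 rfl
    have h6 := h5.smul hX hu hc
    rwa [← h4] at h6

theorem TfAt.ne_zero (hX : IsCone X) (hch : Charts X) (hu : TorusMap X Λ u) (hΛ : Lat Λ) {Ω : Form X M 1} {T : Set (EN N)}
    (hΩ : Ω.NoZeroOff T) {x : EN N} (hx : x ∈ X) (hxT : x ∉ T) {t : ℝ} (h : TfAt Λ u Ω x t) : t ≠ 0 := by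
  obtain ⟨v, w, hv, hw, hpos, ht⟩ := h
  have hx0 : x ≠ 0 := fun h0 => hX.zero_notMem (h0 ▸ hx)
  have hΩ0 : Ω.toFun x v w ≠ 0 := by
    refine hΩ x hx hxT v w hv.tan hw.tan ?_
    obtain ⟨χ, υ, s, h1, h2, h3⟩ := exists_adm hX hch hu hΛ hx one_ne_zero hw
    obtain ⟨-, c, hc, h4⟩ := χ.surj x hx h1
    rw [h2] at h4
    have h0 : (0 : ℂ × ℂ) ∈ ball (0 : ℂ × ℂ) s := mem_ball_self h3.pos
    have h02 : (0 : ℂ × ℂ) ∈ ball (0 : ℂ × ℂ) 2 := mem_ball_self (by norm_num)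
    have h5 : c⁻¹ • x = χ.σ 0 := by
      conv_lhs => rw [h4]
      rw [smul_smul, inv_mul_cancel₀ hc, one_smul]
    have hσ0 : χ.σ 0 ≠ 0 := fun h9 => hX.zero_notMem (h9 ▸ (χ.σ_mem 0 h02).1)
    have h6 := hv.smul hX hu (inv_ne_zero hc)
    have h7 := hw.smul hX hu (inv_ne_zero hc)
    rw [h5] at h6 h7
    obtain ⟨e, a, he, he2⟩ := DU.chart hX hu hΛ h3 h0 h6
    obtain ⟨e', a', he', he2'⟩ := DU.chart hX hu hΛ h3 h0 h7
    have hwd : 0 < wd (χ.σ 0) (c⁻¹ • v) := by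
      have h8 := Pool.Agent.H36.BP.wd_inv x v c⁻¹ 0
      rw [zero_smul, add_zero, h5] at h8
      rw [h8]
      have h9 : 0 < ‖c⁻¹‖ := norm_pos_iff.2 (inv_ne_zero hc)
      positivity
    rw [Fintype.linearIndependent_iff]
    intro g hg
    rw [Fin.sum_univ_three] at hg
    simp only [Matrix.cons_val_zero, Matrix.cons_val_one, Matrix.cons_val_two, Matrix.head_cons, Matrix.tail_cons] at hg
    have h10 : fderiv ℂ χ.σ 0 (g 1 • e + g 2 • e') = (-(g 0 + g 1 * a + g 2 * a')) • χ.σ 0 := by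
      have h11 : g 0 • χ.σ 0 + g 1 • (fderiv ℂ χ.σ 0 e + a • χ.σ 0) + g 2 • (fderiv ℂ χ.σ 0 e' + a' • χ.σ 0) = 0 := by
        rw [← he, ← he', ← h5, smul_comm (g 0) c⁻¹, smul_comm (g 1) c⁻¹, smul_comm (g 2) c⁻¹, ← smul_add, ← smul_add, hg, smul_zero]
      rw [map_add, map_smul, map_smul]
      have h12 : g 1 • fderiv ℂ χ.σ 0 e + g 2 • fderiv ℂ χ.σ 0 e' - (-(g 0 + g 1 * a + g 2 * a')) • χ.σ 0 = 0 := by
        rw [← h11]
        module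
      exact sub_eq_zero.1 h12
    have h13 : g 1 • e + g 2 • e' = 0 := by
      by_contra hcon
      have h14 := chart_imm hX χ h02 hcon
      have h15 : wd (χ.σ 0) (fderiv ℂ χ.σ 0 (g 1 • e + g 2 • e')) = 0 :=
        (Pool.Agent.H36.BP.wd_eq_zero hσ0).2 ⟨_, h10⟩
      exact h14.ne' h15
    have h16 : g 2 = 0 := by
      have h17 := congrArg (fderiv ℂ υ 0) h13
      rw [map_add, map_smul, map_smul, map_zero, he2, he2', smul_zero, zero_add, smul_eq_mul, mul_one] at h17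
      exact h17
    rw [h16, zero_smul, add_zero] at h13
    have h18 : e ≠ 0 := by
      rintro rfl
      rw [he, map_zero, zero_add] at hwd
      have h19 : wd (χ.σ 0) (a • χ.σ 0) = 0 := (Pool.Agent.H36.BP.wd_eq_zero hσ0).2 ⟨a, rfl⟩
      exact hwd.ne' h19
    have h20 : g 1 = 0 := (smul_eq_zero.1 h13).resolve_right h18
    rw [h16, h20, zero_smul, zero_smul, add_zero, add_zero] at hg
    have h21 : g 0 = 0 := (smul_eq_zero.1 hg).resolve_right hx0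
    intro i
    fin_cases i
    · exact h21
    · exact h20
    · exact h16
  rw [ht]
  have h1 : 0 < ‖x‖ := norm_pos_iff.2 hx0
  have h2 : 0 < ‖Ω.toFun x v w‖ := norm_pos_iff.2 hΩ0
  positivity

/-- the length of the form, as a function on the projective space -/
noncomputable def That (X : Set (EN N)) (Λ : AddSubgroup ℂ) (u : EN N → ℂ) (Ω : Form X M 1) (y : MN N) : ℝ := by
  classical exact if h : ∃ t x, x ∈ X ∧ pr x = y ∧ TfAt Λ u Ω x t then h.choose else 0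

theorem That_eq (hX : IsCone X) (hch : Charts X) (hu : TorusMap X Λ u) (hΛ : Lat Λ) {Ω : Form X M 1} {x : EN N} (hx : x ∈ X)
    {t : ℝ} (h : TfAt Λ u Ω x t) : That X Λ u Ω (pr x) = t := by
  have hex : ∃ t x', x' ∈ X ∧ pr x' = pr x ∧ TfAt Λ u Ω x' t := ⟨t, x, hx, rfl, h⟩
  have hdef : That X Λ u Ω (pr x) = hex.choose := by
    unfold That
    rw [dif_pos hex]
  rw [hdef]
  obtain ⟨x', hx', hpr, hT⟩ := hex.choose_spec
  have hx0 : x ≠ 0 := fun h0 => hX.zero_notMem (h0 ▸ hx)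
  have hx0' : x' ≠ 0 := fun h0 => hX.zero_notMem (h0 ▸ hx')
  obtain ⟨c, hc, hcx⟩ := (pr_eq_iff hx0' hx0).1 hpr
  have h1 := h.smul hX hu hc
  rw [← hcx] at h1
  exact TfAt.unique hX hch hu hΛ hx' hT h1

end Pool.Agent.H62.EF
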